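import Pool.Agent.CW.GB
import Pool.Agent.Helper4.VCM.CCAux

/-!
# CW, module CLB
-/

set_option autoImplicit false
set_option linter.unusedSectionVars false
set_option linter.unusedVariables false

namespace Pool.Agent.CW

open Set Pool.Agent.Helper5 Pool.Agent.Helper5.DU Pool.Agent.Helper6.Str
  Pool.Agent.Helper79.VC Pool.Agent.Helper97.VC Pool.Agent.Helper97.MD Pool.Agent.Helper6.VC
  Pool.Agent.Helper97.LO

open scoped Classical

variable {L : FirstOrder.Language.{0, 0}} [∀ n, IsEmpty (L.Functions n)] {M N : Type}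
  {S : L.Structure M}

/-- the set `U` is closed for all levels below `μ` -/
def CloA (S : L.Structure M) (μ : Ordinal.{0}) (U : Set M) : Prop :=
  ∀ γ < μ, Clo S univ γ U

theorem CloA.mono {μ μ' : Ordinal.{0}} {U : Set M} (h : CloA S μ U) (hμ : μ' ≤ μ) :
    CloA S μ' U :=
  fun γ hγ => h γ (hγ.trans_le hμ)

theorem CloA.bfr {μ γ : Ordinal.{0}} {U : Set M} (h : CloA S μ U) (hγ : γ < μ) {F : Set M}
    (hF : F.Finite) (hFU : F ⊆ U) : BFR S S U univ γ (dg F) :=
  Pool.Agent.Helper97.LO.CCAux.clo_right (h γ hγ) hF hFU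

theorem CloA.bfr' {μ γ : Ordinal.{0}} {U : Set M} (h : CloA S μ U) (hγ : γ < μ) {F : Set M}
    (hF : F.Finite) (hFU : F ⊆ U) : BFR S S univ U γ (dg F) :=
  Pool.Agent.Helper97.LO.CCAux.clo_left (h γ hγ) hF hFU

theorem CloA.bs {μ : Ordinal.{0}} {U : Set M} (h : CloA S μ U) (hμ : Gd μ) {P Q : Finset M}
    (hP : (P : Set M) ⊆ U) (hQ : (Q : Set M) ⊆ U) :
    Bs (bt S) U P Q = Bs (bt S) univ P Q ∩ U := by
  have key : ∀ x ∈ U, (x ∈ Bs (bt S) U P Q ↔ x ∈ Bs (bt S) univ P Q) := by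
    intro x hx
    have h1 : BFR S S U univ Ordinal.omega0
        (dg ((insert x (P ∪ Q) : Finset M) : Set M)) := by
      refine h.bfr hμ.om (Finset.finite_toSet _) ?_
      rw [Finset.coe_insert, Finset.coe_union]
      exact insert_subset hx (union_subset hP hQ)
    have h2 : BFR S S U univ Ordinal.omega0
        (insert (x, x) (dg ((P ∪ Q : Finset M) : Set M))) := by
      refine BFR.anti ?_ h1
      rintro a (rfl | ⟨b, hb, rfl⟩)
      · exact ⟨x, by simp, rfl⟩
      · exact ⟨b, Finset.mem_coe.mpr (Finset.mem_insert_of_mem (Finset.mem_coe.mp hb)), rfl⟩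
    refine mem_bs_iff hx (mem_univ x) h2 (mt_dg P ?_) (mt_dg Q ?_)
    · refine image_mono ?_
      rw [Finset.coe_union]
      exact subset_union_left
    · refine image_mono ?_
      rw [Finset.coe_union]
      exact subset_union_right
  ext x
  constructor
  · intro hx
    have hxU : x ∈ U := bs_subset hP hx
    exact ⟨(key x hxU).mp hx, hxU⟩
  · rintro ⟨hx, hxU⟩
    exact (key x hxU).mpr hx

theorem CloA.ok {μ : Ordinal.{0}} {U : Set M} (h : CloA S μ U) (hμ : Gd μ) {P Q : Finset M}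
    (hP : (P : Set M) ⊆ U) (hQ : (Q : Set M) ⊆ U) :
    Ok (bt S) U P Q ↔ Ok (bt S) univ P Q := by
  have h1 : BFR S S U univ (Ordinal.omega0 + 1) (dg ((P ∪ Q : Finset M) : Set M)) := by
    refine h.bfr (hμ.add _ hμ.om _ (Ordinal.one_lt_omega0.trans hμ.om)) (Finset.finite_toSet _) ?_
    rw [Finset.coe_union]
    exact union_subset hP hQ
  refine ok_iff h1 (mt_dg P ?_) (mt_dg Q ?_) hP hQ (subset_univ _) (subset_univ _)
  · refine image_mono ?_
    rw [Finset.coe_union]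
    exact subset_union_left
  · refine image_mono ?_
    rw [Finset.coe_union]
    exact subset_union_right

theorem CloA.jd (hL : Ar2 L) {μ : Ordinal.{0}} {U : Set M} (h : CloA S μ U) (hμ : Gd μ)
    {P Q : Finset M} (hP : (P : Set M) ⊆ U) (hQ : (Q : Set M) ⊆ U) :
    Jd S U μ (Bs (bt S) U P Q) ↔ Jd S univ μ (Bs (bt S) univ P Q) := by
  have hPm : Mt (dg ((P ∪ Q : Finset M) : Set M)) P P := by
    refine mt_dg P (image_mono ?_)
    rw [Finset.coe_union]
    exact subset_union_left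
  have hQm : Mt (dg ((P ∪ Q : Finset M) : Set M)) Q Q := by
    refine mt_dg Q (image_mono ?_)
    rw [Finset.coe_union]
    exact subset_union_right
  refine jd_iff hL hμ (p := dg ((P ∪ Q : Finset M) : Set M)) (κ := Ordinal.omega0)
    (bs_subset hP) (subset_univ _) hμ.om ?_ ?_
  · intro x hx x' hx' hxx
    exact mem_bs_iff hx hx' hxx hPm hQm
  · intro γ hγ
    refine h.bfr hγ (Finset.finite_toSet _) ?_
    rw [Finset.coe_union]
    exact union_subset hP hQ

theorem CloA.cov (hL : Ar2 L) {μ ζ : Ordinal.{0}} {U : Set M} (h : CloA S μ U) (hμ : Gd μ)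
    (hζ : ζ < μ) {F : Finset M} (hF : (F : Set M) ⊆ U) {k : ℕ} :
    Cov S U F k ζ ↔ Cov S univ F k ζ :=
  cov_iff hL (hζ.trans hμ.lt)
    (h.bfr ((le_self_add).trans_lt (gd_up hμ hζ)) (Finset.finite_toSet F) hF) hF (subset_univ _)
    (mt_dg F Subset.rfl)

theorem CloA.lv (hL : Ar2 L) {μ ζ : Ordinal.{0}} {U : Set M} (h : CloA S μ U) (hμ : Gd μ)
    (hζ : ζ < μ) {P Q P' Q' : Finset M} (hOk : Ok (bt S) U P Q) (hOk' : Ok (bt S) U P' Q')
    (hlv : Lv S univ (Bs (bt S) univ P Q ∩ Bs (bt S) univ P' Q') ζ) :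
    Lv S U (Bs (bt S) U P Q ∩ Bs (bt S) U P' Q') ζ := by
  set R : Finset M := P ∪ Q ∪ (P' ∪ Q') with hR
  have hRU : (R : Set M) ⊆ U := by
    rw [hR, Finset.coe_union, Finset.coe_union, Finset.coe_union]
    exact union_subset (union_subset hOk.left hOk.right) (union_subset hOk'.left hOk'.right)
  have hrk : rk (bt S) U (Bs (bt S) U P Q ∩ Bs (bt S) U P' Q') ≠ ⊤ := by
    have h1 := rk_inter_le (bt S) U (Bs (bt S) U P Q) (Bs (bt S) U P' Q')
    rw [rk_bs hOk, rk_bs hOk'] at h1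
    intro h2
    rw [h2, top_le_iff] at h1
    have h3 : ((rho (bt S) P Q + rho (bt S) P' Q' : ℕ) : ℕ∞) = ⊤ := by exact_mod_cast h1
    exact ENat.natCast_ne_top _ h3
  obtain ⟨G, hG⟩ := exists_rc hrk
  have hGU : (G : Set M) ⊆ U := fun g hg => (hG.1 hg).1
  set q : Set (M × M) := dg ((R ∪ G : Finset M) : Set M) with hq
  have hsub : ((R ∪ G : Finset M) : Set M) ⊆ U := by
    rw [Finset.coe_union]
    exact union_subset hRU hGU
  have hm : ∀ W : Finset M, W ⊆ R ∪ G → Mt q W W := fun W hW =>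
    mt_dg W (image_mono (Finset.coe_subset.mpr hW))
  have hPR : P ⊆ R ∪ G := fun x hx => by simp [hR, hx]
  have hQR : Q ⊆ R ∪ G := fun x hx => by simp [hR, hx]
  have hPR' : P' ⊆ R ∪ G := fun x hx => by simp [hR, hx]
  have hQR' : Q' ⊆ R ∪ G := fun x hx => by simp [hR, hx]
  have hGR : G ⊆ R ∪ G := Finset.subset_union_right
  have hXU : Bs (bt S) U P Q ∩ Bs (bt S) U P' Q' ⊆ U :=
    inter_subset_left.trans (bs_subset hOk.left)
  have h2 : (2 : Ordinal.{0}) < Ordinal.omega0 := by exact_mod_cast Ordinal.natCast_lt_omega0 2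
  have hG' : RC S univ (Bs (bt S) univ P Q ∩ Bs (bt S) univ P' Q') G := by
    refine rc_of (p := q) (κ := Ordinal.omega0) ?_ hXU (subset_univ _) (subset_univ _) ?_
      (hm G hGR) hG
    · intro x hx x' hx' hxx
      exact and_congr (mem_bs_iff hx hx' hxx (hm P hPR) (hm Q hQR))
        (mem_bs_iff hx hx' hxx (hm P' hPR') (hm Q' hQR'))
    · exact h.bfr (hμ.add _ hμ.om _ (h2.trans hμ.om)) (Finset.finite_toSet _) hsub
  have hb : BFR S S (Bs (bt S) univ P Q ∩ Bs (bt S) univ P' Q')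
      (Bs (bt S) U P Q ∩ Bs (bt S) U P' Q') (ζ + Ordinal.omega0) q := by
    refine BFR.restr (subset_univ _) hXU Ordinal.omega0 _ ?_ (h.bfr' (hμ.add _ hμ.om _
      (hμ.add _ hζ _ hμ.om)) (Finset.finite_toSet _) hsub)
    intro x hx x' hx' hxx
    exact and_congr (mem_bs_iff hx hx' hxx (hm P hPR) (hm Q hQR))
      (mem_bs_iff hx hx' hxx (hm P' hPR') (hm Q' hQR'))
  refine Lv.congr hL (hζ.trans hμ.lt) (subset_univ _) hXU hG' hG hlv
    ((Finset.finite_toSet G).image _) (mt_dg G Subset.rfl) ?_ (BFR.anti ?_ hb)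
  · rintro _ ⟨g, hg, rfl⟩
    exact ⟨hg, hg⟩
  · exact image_mono (Finset.coe_subset.mpr hGR)

end Pool.Agent.CW
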