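import Pool.Agent.CW.GB

/-!
# CW, module CLC
-/

set_option autoImplicit false
set_option linter.unusedSectionVars false
set_option linter.unusedVariables false

namespace Pool.Agent.CW

open Set Pool.Agent.Helper5 Pool.Agent.Helper5.DU Pool.Agent.Helper6.Str
  Pool.Agent.Helper79.VC Pool.Agent.Helper97.VC Pool.Agent.Helper97.MD Pool.Agent.Helper6.VC
  Pool.Agent.Helper97.LO

open scoped Classical

variable {L : FirstOrder.Language.{0, 0}} [∀ n, IsEmpty (L.Functions n)] {M N : Type}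
  {S : L.Structure M}

/-- constants are moved to themselves -/
theorem bfr_dg (S : L.Structure M) (U : Set M) (γ : Ordinal.{0}) :
    ∀ {p : Set (M × M)}, (∀ a ∈ p, a.2 = a.1) → BFR S S U U γ p := by
  induction γ using WellFoundedLT.induction with
  | _ γ ih =>
    intro p hp
    rw [BFR.def]
    refine ⟨TR.atEq_refl S hp, fun β hβ => ⟨fun x hx => ⟨x, hx, ih β hβ ?_⟩,
      fun x hx => ⟨x, hx, ih β hβ ?_⟩⟩⟩
    · rintro a (rfl | ha)
      · rfl
      · exact hp a ha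
    · rintro a (rfl | ha)
      · rfl
      · exact hp a ha

/-- matched subsets -/
theorem Mt.sub {p : Set (M × N)} {F P : Finset M} {F' : Finset N} (h : Mt p F F')
    (hP : P ⊆ F) : ∃ P' ⊆ F', Mt p P P' := by
  refine ⟨F'.filter fun y => ∃ x ∈ P, (x, y) ∈ p, Finset.filter_subset _ _, fun x hx => ?_,
    fun y hy => (Finset.mem_filter.1 hy).2⟩
  obtain ⟨y, hy, hxy⟩ := h.1 x (hP hx)
  exact ⟨y, Finset.mem_filter.2 ⟨hy, x, hx, hxy⟩, hxy⟩

/-- `A` is closed of level `γ` in the piece `U` with the constants `C` -/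
def CloC (S : L.Structure M) (U C : Set M) (γ : Ordinal.{0}) (A : Set M) : Prop :=
  ∀ F : Finset M, (F : Set M) ⊆ U ∩ A → ∀ c ∈ U, ∃ d ∈ U ∩ A,
    BFR S S U U γ (insert (c, d) (dg (F : Set M)) ∪ dg C)

theorem CloC.mono {U C A : Set M} {γ β : Ordinal.{0}} (h : CloC S U C γ A) (hβ : β ≤ γ) :
    CloC S U C β A := by
  intro F hF c hc
  obtain ⟨d, hd, h1⟩ := h F hF c hc
  exact ⟨d, hd, h1.mono hβ⟩

private theorem CLC_rel {U C A : Set M} {γ₀ : Ordinal.{0}} (h : CloC S U C γ₀ A)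
    {T : L.Structure N} {V : Set N} {q : Set (N × M)} (hq : ∀ a ∈ q, a.2 ∈ C) (γ : Ordinal.{0}) :
    γ ≤ γ₀ → ∀ p : Set (N × M), p.Finite → (∀ a ∈ p, a.2 ∈ U ∩ A) → BFR T S V U γ (p ∪ q) →
      BFR T S V (U ∩ A) γ (p ∪ q) := by
  induction γ using WellFoundedLT.induction with
  | _ γ ih =>
    intro hγ p hp hpA hb
    rw [BFR.def]
    refine ⟨hb.atEq, fun β hβ => ⟨fun c hc => ?_, fun y hy => ?_⟩⟩
    · obtain ⟨y, hyX, hy⟩ := hb.forth hβ hc
      have hfin : (Prod.snd '' p).Finite := hp.image _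
      obtain ⟨d, hd, hd'⟩ := h hfin.toFinset (by
        rw [hfin.coe_toFinset]
        rintro _ ⟨a, ha, rfl⟩
        exact hpA a ha) y hyX
      refine ⟨d, hd, ?_⟩
      rw [← insert_union]
      refine ih β hβ (hβ.le.trans hγ) _ (hp.insert _) ?_ ?_
      · rintro a (rfl | ha)
        · exact hd
        · exact hpA a ha
      · refine hy.trans (hd'.mono (hβ.le.trans hγ)) ?_
        rintro a ((rfl | ha) | ha)
        · exact ⟨y, mem_insert _ _, Or.inl (mem_insert _ _)⟩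
        · refine ⟨a.2, mem_insert_of_mem _ (Or.inl ha),
            Or.inl (mem_insert_of_mem _ ⟨a.2, ?_, rfl⟩)⟩
          rw [hfin.coe_toFinset]
          exact mem_image_of_mem _ ha
        · exact ⟨a.2, mem_insert_of_mem _ (Or.inr ha), Or.inr ⟨a.2, hq a ha, rfl⟩⟩
    · obtain ⟨x, hxY, hx⟩ := hb.back hβ hy.1
      refine ⟨x, hxY, ?_⟩
      rw [← insert_union] at hx ⊢
      refine ih β hβ (hβ.le.trans hγ) _ (hp.insert _) ?_ hx
      rintro a (rfl | ha)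
      · exact hy
      · exact hpA a ha

/-- a closed set is equivalent to the piece -/
theorem CloC.rel {U C A : Set M} {γ : Ordinal.{0}} (h : CloC S U C γ A) {T : L.Structure N}
    {V : Set N} {p q : Set (N × M)} (hp : p.Finite) (hpA : ∀ a ∈ p, a.2 ∈ U ∩ A)
    (hq : ∀ a ∈ q, a.2 ∈ C) (hb : BFR T S V U γ (p ∪ q)) : BFR T S V (U ∩ A) γ (p ∪ q) :=
  CLC_rel h hq γ le_rfl p hp hpA hb

/-- the same with the closed set on the left -/
theorem CloC.rel' {U C A : Set M} {γ : Ordinal.{0}} (h : CloC S U C γ A) {T : L.Structure N}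
    {V : Set N} {p q : Set (M × N)} (hp : p.Finite) (hpA : ∀ a ∈ p, a.1 ∈ U ∩ A)
    (hq : ∀ a ∈ q, a.1 ∈ C) (hb : BFR S T U V γ (p ∪ q)) : BFR S T (U ∩ A) V γ (p ∪ q) := by
  have h1 : BFR T S V (U ∩ A) γ (Prod.swap '' p ∪ Prod.swap '' q) := by
    refine h.rel (hp.image _) ?_ ?_ (hb.symm ?_)
    · rintro _ ⟨a, ha, rfl⟩
      exact hpA a ha
    · rintro _ ⟨a, ha, rfl⟩
      exact hq a ha
    · rintro _ (⟨a, ha, rfl⟩ | ⟨a, ha, rfl⟩)
      · exact Or.inl ha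
      · exact Or.inr ha
  refine h1.symm ?_
  rintro a (ha | ha)
  · exact Or.inl ⟨a, ha, rfl⟩
  · exact Or.inr ⟨a, ha, rfl⟩

/-- finite sets can be moved into closed sets -/
theorem CloC.move {U C A : Set M} {γ : Ordinal.{0}}
    (h : CloC S U C (γ + Ordinal.omega0) A) (F₀ F : Finset M) (hF₀ : (F₀ : Set M) ⊆ U ∩ A)
    (hF : (F : Set M) ⊆ U) : ∃ (q : Set (M × M)) (F' : Finset M), q.Finite ∧
      (F' : Set M) ⊆ U ∩ A ∧ Mt q F F' ∧ (∀ a ∈ q, a.1 ∈ F ∧ a.2 ∈ F') ∧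
      BFR S S U U γ (q ∪ dg (F₀ : Set M) ∪ dg C) := by
  have h1 : BFR S S U (U ∩ A) (γ + Ordinal.omega0) (dg (F₀ : Set M) ∪ dg C) := by
    refine h.rel (F₀.finite_toSet.image _) ?_ ?_ (bfr_dg S U _ ?_)
    · rintro _ ⟨a, ha, rfl⟩
      exact hF₀ ha
    · rintro _ ⟨a, ha, rfl⟩
      exact ha
    · rintro _ (⟨a, ha, rfl⟩ | ⟨a, ha, rfl⟩) <;> rfl
  obtain ⟨q, F', hq, hF', hMt, hqF, h2⟩ := forth_fin h1 F hF
  refine ⟨q, F', hq, hF', hMt, hqF, ?_⟩
  have h3 : BFR S S (U ∩ A) U γ (dg ((F₀ ∪ F' : Finset M) : Set M) ∪ dg C) := by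
    refine (h.mono le_self_add).rel' ((F₀ ∪ F').finite_toSet.image _) ?_ ?_ (bfr_dg S U _ ?_)
    · rintro _ ⟨a, ha, rfl⟩
      rw [Finset.coe_union] at ha
      rcases ha with ha | ha
      · exact hF₀ ha
      · exact hF' ha
    · rintro _ ⟨a, ha, rfl⟩
      exact ha
    · rintro _ (⟨a, ha, rfl⟩ | ⟨a, ha, rfl⟩) <;> rfl
  refine h2.trans h3 ?_
  rintro a ((ha | ha) | ha)
  · refine ⟨a.2, Or.inr ha, Or.inl ⟨a.2, ?_, rfl⟩⟩
    rw [Finset.coe_union]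
    exact Or.inr (hqF a ha).2
  · obtain ⟨b, hb, rfl⟩ := ha
    refine ⟨b, Or.inl (Or.inl ⟨b, hb, rfl⟩), Or.inl ⟨b, ?_, rfl⟩⟩
    rw [Finset.coe_union]
    exact Or.inl hb
  · obtain ⟨b, hb, rfl⟩ := ha
    exact ⟨b, Or.inl (Or.inr ⟨b, hb, rfl⟩), Or.inr ⟨b, hb, rfl⟩⟩

/-- basic sets in closed sets -/
theorem cloC_bs {P Q C : Finset M} {A : Set M} {γ : Ordinal.{0}} (hP : (P : Set M) ⊆ A)
    (hQ : (Q : Set M) ⊆ A) (hC : (C : Set M) ⊆ A)
    (h : Clo S univ (Ordinal.omega0 + γ) A) :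
    CloC S (Bs (bt S) univ P Q) (C : Set M) γ A := by
  intro F hF c hc
  obtain ⟨d, hd, h1⟩ := h (F ∪ P ∪ Q ∪ C) (by
    intro x hx
    simp only [Finset.coe_union, mem_union] at hx
    refine ⟨?_, mem_univ _⟩
    rcases hx with ((hx | hx) | hx) | hx
    · exact (hF hx).2
    · exact hP hx
    · exact hQ hx
    · exact hC hx) c (mem_univ c)
  have hsub : ∀ Z : Finset M, Z ⊆ F ∪ P ∪ Q ∪ C →
      dg (Z : Set M) ⊆ dg ((F ∪ P ∪ Q ∪ C : Finset M) : Set M) := fun Z hZ =>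
    image_mono (Finset.coe_subset.mpr hZ)
  have hPs : P ⊆ F ∪ P ∪ Q ∪ C := fun x hx => by simp [hx]
  have hQs : Q ⊆ F ∪ P ∪ Q ∪ C := fun x hx => by simp [hx]
  have hFs : F ⊆ F ∪ P ∪ Q ∪ C := fun x hx => by simp [hx]
  have hCs : C ⊆ F ∪ P ∪ Q ∪ C := fun x hx => by simp [hx]
  have hdB : d ∈ Bs (bt S) univ P Q :=
    (mem_bs_iff (mem_univ c) (mem_univ d) (h1.mono le_self_add) (mt_dg P (hsub P hPs))
      (mt_dg Q (hsub Q hQs))).mp hc
  refine ⟨d, ⟨hdB, hd.1⟩, ?_⟩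
  have h2 : BFR S S (Bs (bt S) univ P Q) (Bs (bt S) univ P Q) γ
      (insert (c, d) (dg ((F ∪ P ∪ Q ∪ C : Finset M) : Set M))) := by
    refine BFR.restr (subset_univ _) (subset_univ _) Ordinal.omega0 γ (fun x _ y _ hxy => ?_) h1
    refine mem_bs_iff (mem_univ x) (mem_univ y) hxy ?_ ?_
    · exact mt_dg P ((hsub P hPs).trans (subset_insert _ _))
    · exact mt_dg Q ((hsub Q hQs).trans (subset_insert _ _))
  refine BFR.anti ?_ h2
  rintro a ((rfl | ha) | ha)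
  · exact mem_insert _ _
  · exact mem_insert_of_mem _ (hsub F hFs ha)
  · exact mem_insert_of_mem _ (hsub C hCs ha)

end Pool.Agent.CW
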