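import Pool.Agent.CW.GB

/-!
# CW, module CLI
-/

set_option autoImplicit false
set_option linter.unusedSectionVars false
set_option linter.unusedVariables false

namespace Pool.Agent.CW

open Set Pool.Agent.Helper5 Pool.Agent.Helper5.DU Pool.Agent.Helper6.Str
  Pool.Agent.Helper79.VC Pool.Agent.Helper97.VC Pool.Agent.Helper97.MD Pool.Agent.Helper6.VC
  Pool.Agent.Helper97.LO

open scoped Classical

variable {L : FirstOrder.Language.{0, 0}} [∀ n, IsEmpty (L.Functions n)] {M N : Type}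
  {S : L.Structure M}

/-- cuts in different universes -/
theorem rk_inter_univ {A : Type} {τ : M → M → A} {U X : Set M} (hr : rk τ univ X ≠ ⊤) :
    rk τ U (X ∩ U) ≠ ⊤ := by
  obtain ⟨n, hn⟩ := ENat.ne_top_iff_exists.1 hr
  have h1 : rk τ U (X ∩ U) ≤ n := by
    rw [rk_le_iff]
    intro P Q hP hQ
    have h2 : (rho τ P Q : ℕ∞) ≤ rk τ univ X := by
      refine rho_le_rk (hP.trans inter_subset_left) fun x hx => ⟨mem_univ _, fun hxX => ?_⟩
      exact (hQ hx).2 ⟨hxX, (hQ hx).1⟩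
    rw [← hn] at h2
    exact_mod_cast h2
  exact ne_top_of_le_ne_top (ENat.natCast_ne_top n) h1

theorem rc_inter {U X : Set M} {G : Finset M} (hG : RC S univ X G) (hGU : (G : Set M) ⊆ U) :
    RC S U (X ∩ U) G := by
  refine ⟨fun g hg => ⟨hGU hg, fun h => (hG.1 hg).2 h.1⟩, fun y hy hyX => ?_⟩
  obtain ⟨g, hg, h⟩ := hG.2 y (mem_univ _) fun h => hyX ⟨h, hy⟩
  exact ⟨g, hg, fun x hx => h x hx.1⟩

/-- two universes which share a cut and representatives of its columns -/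
theorem cutIso_id {U V X : Set M} {G : Finset M} (hG : RC S univ X G)
    (hr : rk (bt S) univ X ≠ ⊤) (hGU : (G : Set M) ⊆ U) (hGV : (G : Set M) ⊆ V)
    (h : X ∩ U = X ∩ V) : CutIso S U S V (X ∩ U) (X ∩ U) id where
  sub := inter_subset_right
  sub' := by
    rw [h]
    exact inter_subset_right
  bij := bijOn_id _
  atEq := TR.atEq_refl S fun a ha => ha.2
  cut := rk_inter_univ hr
  cut' := by
    rw [h]
    exact rk_inter_univ hr
  rows := by
    have key : ∀ {W : Set M}, (G : Set M) ⊆ W → ∀ x ∈ X, ∀ y ∈ X,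
        ((∀ g ∈ W, g ∉ X ∩ W → bt S x g = bt S y g) ↔ ∀ g ∈ G, bt S x g = bt S y g) := by
      intro W hW x hx y hy
      constructor
      · intro h g hg
        exact h g (hW hg) fun h' => (hG.1 hg).2 h'.1
      · intro h g hg hgX
        obtain ⟨g₀, hg₀, h'⟩ := hG.2 g (mem_univ _) fun h'' => hgX ⟨h'', hg⟩
        rw [h' x hx, h' y hy, h g₀ hg₀]
    intro x hx y hy
    rw [key hGU x hx.1 y hy.1, h]
    exact (key hGV x hx.1 y hy.1).symm

theorem lv_id {U V X : Set M} {G : Finset M} (hG : RC S univ X G)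
    (hr : rk (bt S) univ X ≠ ⊤) (hGU : (G : Set M) ⊆ U) (hGV : (G : Set M) ⊆ V)
    (h : X ∩ U = X ∩ V) (hL : Ar2 L) {W : Set M} (hW : W ⊆ X ∩ U) (hrW : rk (bt S) U W ≠ ⊤)
    {ζ : Ordinal.{0}} : Lv S U W ζ ↔ Lv S V W ζ := by
  have h1 := (cutIso_id hG hr hGU hGV h).lv (ζ := ζ) hL hW hrW
  rwa [image_id] at h1

theorem jd_id {U V X : Set M} {G : Finset M} (hG : RC S univ X G)
    (hr : rk (bt S) univ X ≠ ⊤) (hGU : (G : Set M) ⊆ U) (hGV : (G : Set M) ⊆ V)
    (h : X ∩ U = X ∩ V) (hL : Ar2 L) {W : Set M} (hW : W ⊆ X ∩ U)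
    {μ : Ordinal.{0}} (hμ : Gd μ) : Jd S U μ W ↔ Jd S V μ W := by
  have h1 := (cutIso_id hG hr hGU hGV h).jd hL hμ hW
  rwa [image_id] at h1

end Pool.Agent.CW
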