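import Pool.Agent.VB.G

/-!
# Bounded clique-width: definitions

Paper proof: team-store CW_paper.md. Everything is relative to a universe `U : Set M`: the
structure is the pair `(S, U)`, i.e. the induced substructure with universe `U`.
-/

set_option autoImplicit false
set_option linter.unusedSectionVars false
set_option linter.unusedVariables false

namespace Pool.Agent.CW

open Set Pool.Agent.Helper5 Pool.Agent.Helper5.DU Pool.Agent.Helper6.Str
  Pool.Agent.Helper79.VC Pool.Agent.Helper97.VC Pool.Agent.Helper97.MD Pool.Agent.Helper6.VC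
  Pool.Agent.Helper97.LO

open scoped Classical

variable {L : FirstOrder.Language.{0, 0}} {M N : Type} {A A' : Type}

/-! ### rank -/

/-- the row of `x` over the finite set `Q`, a vector indexed by the pairs (column, label) -/
noncomputable def row (τ : M → M → A) (Q : Finset M) (x : M) : M × A → ZMod 2 :=
  fun c => if c.1 ∈ Q ∧ τ x c.1 = c.2 then 1 else 0

/-- the rank of the rows of `P` over `Q` -/
noncomputable def rk1 (τ : M → M → A) (P Q : Finset M) : ℕ :=
  Module.finrank (ZMod 2) (Submodule.span (ZMod 2) (row τ Q '' (P : Set M)))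

/-- the cut-rank of a pair of finite sets -/
noncomputable def rho (τ : M → M → A) (P Q : Finset M) : ℕ := rk1 τ P Q + rk1 τ Q P

/-- the cut-rank of the set `X` in the universe `U` -/
noncomputable def rk (τ : M → M → A) (U X : Set M) : ℕ∞ :=
  ⨆ (P : Finset M) (_ : (P : Set M) ⊆ X) (Q : Finset M) (_ : (Q : Set M) ⊆ U \ X),
    (rho τ P Q : ℕ∞)

/-- `P`, `Q` are references of the cut `X` -/
structure Refs (τ : M → M → A) (U X : Set M) (P Q : Finset M) : Prop where
  left : (P : Set M) ⊆ X
  right : (Q : Set M) ⊆ U \ X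
  eq : rk τ U X = rho τ P Q

/-! ### basic sets -/

/-- arcs: `y` in, `z` out increases the rank of `P`, `Q` -/
def Arc (τ : M → M → A) (P Q : Finset M) (y z : M) : Prop :=
  rho τ P Q < rho τ (insert y P) (insert z Q)

/-- the set `V(P,Q)`: closure of `P` under arcs in `U` -/
def Bs (τ : M → M → A) (U : Set M) (P Q : Finset M) : Set M :=
  {z | ∃ x ∈ P, Relation.ReflTransGen (fun y z => z ∈ U ∧ Arc τ P Q y z) x z}

/-- `V(P,Q)` is defined: the parameters are in `U` and the closure of `P` avoids `Q` -/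
structure Ok (τ : M → M → A) (U : Set M) (P Q : Finset M) : Prop where
  left : (P : Set M) ⊆ U
  right : (Q : Set M) ⊆ U
  disj : ∀ z ∈ Bs τ U P Q, z ∉ Q

/-! ### matched finite sets, levels -/

/-- `P` and `P'` are matched by `p` -/
def Mt (p : Set (M × N)) (P : Finset M) (P' : Finset N) : Prop :=
  (∀ x ∈ P, ∃ y ∈ P', (x, y) ∈ p) ∧ ∀ y ∈ P', ∃ x ∈ P, (x, y) ∈ p

/-- `G` represents the columns over `X` -/
def RC (S : L.Structure M) (U X : Set M) (G : Finset M) : Prop :=
  (G : Set M) ⊆ U \ X ∧ ∀ y ∈ U, y ∉ X → ∃ g ∈ G, ∀ x ∈ X, bt S x y = bt S x g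

/-- `ζ` is a Scott level of the cut `X` of `(S, U)` with its rows named -/
def Lv (S : L.Structure M) (U X : Set M) (ζ : Ordinal.{0}) : Prop :=
  ∃ G : Finset M, RC S U X G ∧ ∀ p : Set (M × M), p.Finite → (∀ a ∈ p, a.1 ∈ X ∧ a.2 ∈ X) →
    BFR S S X X ζ (p ∪ dg (G : Set M)) → BFI S S X X (p ∪ dg (G : Set M))

/-! ### covers and ideals -/

/-- the finite set `F` is covered by `k` basic sets of rank at most `k` and level `ζ` -/
def Cov (S : L.Structure M) (U : Set M) (F : Finset M) (k : ℕ) (ζ : Ordinal.{0}) : Prop :=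
  ∃ P Q : Fin k → Finset M, (∀ i, Ok (bt S) U (P i) (Q i) ∧ rho (bt S) (P i) (Q i) ≤ k ∧
    Lv S U (Bs (bt S) U (P i) (Q i)) ζ) ∧ ∀ x ∈ F, ∃ i, x ∈ Bs (bt S) U (P i) (Q i)

/-- all finite subsets of `Z` are covered -/
def CovS (S : L.Structure M) (U Z : Set M) (k : ℕ) (ζ : Ordinal.{0}) : Prop :=
  ∀ F : Finset M, (F : Set M) ⊆ Z → Cov S U F k ζ

/-- the ideal `J_ζ` -/
def Jd (S : L.Structure M) (U : Set M) (ζ : Ordinal.{0}) (Z : Set M) : Prop :=
  ∃ ζ' < ζ, ∃ k, CovS S U Z k ζ'

/-- additively indecomposable ordinals above `ω` and below `ω₁` -/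
structure Gd (ζ : Ordinal.{0}) : Prop where
  om : Ordinal.omega0 < ζ
  lt : ζ < om1
  add : ∀ a < ζ, ∀ b < ζ, a + b < ζ

/-- isomorphic cuts of two structures (with their row classes) -/
structure CutIso (S : L.Structure M) (U : Set M) (T : L.Structure N) (V : Set N)
    (C : Set M) (C' : Set N) (f : M → N) : Prop where
  sub : C ⊆ U
  sub' : C' ⊆ V
  bij : BijOn f C C'
  atEq : AtEq S T {a | a.1 ∈ C ∧ a.2 = f a.1}
  cut : rk (bt S) U C ≠ ⊤
  cut' : rk (bt T) V C' ≠ ⊤
  rows : ∀ x ∈ C, ∀ y ∈ C, (∀ g ∈ U, g ∉ C → bt S x g = bt S y g) ↔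
    ∀ g ∈ V, g ∉ C' → bt T (f x) g = bt T (f y) g

/-! ### wild sets -/

/-- definable cuts of `(S, univ)` which are not in the ideal `TT` -/
structure Wil (S : L.Structure M) (X : Set M) : Prop where
  dfb : Dfb S X
  cut : rk (bt S) univ X ≠ ⊤
  not_tt : ¬ TT S X

/-! ### width -/

/-- rooted binary trees with leaves in `M` -/
inductive BT (M : Type) : Type
  | leaf : M → BT M
  | node : BT M → BT M → BT M

/-- the list of the leaves -/
def BT.lv : BT M → List M
  | .leaf x => [x]
  | .node l r => l.lv ++ r.lv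

/-- the subtrees -/
def BT.subs : BT M → List (BT M)
  | .leaf x => [.leaf x]
  | .node l r => .node l r :: (l.subs ++ r.subs)

/-- `D` and `G ∖ D` have at most `k` different rows over each other -/
def FCut (τ : M → M → A) (G D : Finset M) (k : ℕ) : Prop :=
  ((fun (x : M) (y : {y // y ∈ G \ D}) => τ x y.1) '' {x | x ∈ D}).ncard ≤ k ∧
  ((fun (y : M) (x : {x // x ∈ D}) => τ x.1 y) '' {y | y ∈ G \ D}).ncard ≤ k

/-- every finite nonempty subset of `P` is the set of leaves of a binary tree such that the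
leaves of every subtree and the other leaves have at most `k` different rows over each other -/
def FinTree (τ : M → M → A) (P : Set M) (k : ℕ) : Prop :=
  ∀ F : Finset M, (F : Set M) ⊆ P → F.Nonempty → ∃ t : BT M, t.lv.Nodup ∧
    (∀ x, x ∈ t.lv ↔ x ∈ F) ∧ ∀ s ∈ t.subs, FCut τ F s.lv.toFinset k

/-- the infinite primitive subsets are sparse up to a background type, or of finite tree width -/
def SpTreePrim (S : L.Structure M) : Prop :=
  ∀ P : Set M, P.Infinite → IsPrim (bt S) P →
    (∃ b : Set (L.Relations 2), ¬ HasTK (gr S P b)) ∨ ∃ k, FinTree (bt S) P k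

end Pool.Agent.CW
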