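import Pool.Agent.CW.Defs

/-!
# Bounded clique-width, case B: definitions
-/

set_option autoImplicit false
set_option linter.unusedSectionVars false
set_option linter.unusedVariables false

namespace Pool.Agent.CW

open Set Pool.Agent.Helper5 Pool.Agent.Helper5.DU Pool.Agent.Helper6.Str
  Pool.Agent.Helper79.VC Pool.Agent.Helper97.VC Pool.Agent.Helper97.MD Pool.Agent.Helper6.VC
  Pool.Agent.Helper97.LO

open scoped Classical

variable {L : FirstOrder.Language.{0, 0}} [∀ n, IsEmpty (L.Functions n)] {M N : Type}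

/-- `X` is definable over `F` at level `η` -/
def DfAt (S : L.Structure M) (F : Finset M) (η : Ordinal.{0}) (X : Set M) : Prop :=
  ∀ c c', BFR S S univ univ η (insert (c, c') (dg (F : Set M))) → (c ∈ X ↔ c' ∈ X)

/-- closed ordinals: the levels of the basic sets in the ideal are smaller -/
structure Cls (S : L.Structure M) (ζ : Ordinal.{0}) : Prop where
  gd : Gd ζ
  lv : ∀ P Q : Finset M, Ok (bt S) univ P Q → Jd S univ ζ (Bs (bt S) univ P Q) →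
    ∃ ζ' < ζ, Lv S univ (Bs (bt S) univ P Q) ζ'

/-- the situation of case B: `X = V(PX,QX)`, critical rank `t`, bound `a` for the levels of the
sets of smaller rank -/
structure CB (S : L.Structure M) (PX QX : Finset M) (t : ℕ) (a : Ordinal.{0}) : Prop where
  ok : Ok (bt S) univ PX QX
  wil : Wil S (Bs (bt S) univ PX QX)
  a_lt : a < om1
  low : ∀ P Q : Finset M, Ok (bt S) univ P Q →
    Bs (bt S) univ P Q ⊆ Bs (bt S) univ PX QX → TT S (Bs (bt S) univ P Q) →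
    rho (bt S) P Q < t → Lv S univ (Bs (bt S) univ P Q) a
  high : ∀ P Q : Finset M, Ok (bt S) univ P Q →
    Bs (bt S) univ P Q ⊆ Bs (bt S) univ PX QX → Wil S (Bs (bt S) univ P Q) →
    ∀ ζ < om1, ∃ P' Q' : Finset M, Ok (bt S) univ P' Q' ∧
      Bs (bt S) univ P' Q' ⊆ Bs (bt S) univ P Q ∧ TT S (Bs (bt S) univ P' Q') ∧
      rho (bt S) P' Q' = t ∧ ¬ Jd S univ ζ (Bs (bt S) univ P' Q')

/-- basic sets of rank `t` in the ideal `TT` which are not small -/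
structure Big (S : L.Structure M) (X : Set M) (t : ℕ) (a₁ : Ordinal.{0}) (P Q : Finset M) :
    Prop where
  ok : Ok (bt S) univ P Q
  sub : Bs (bt S) univ P Q ⊆ X
  tt : TT S (Bs (bt S) univ P Q)
  rho : rho (bt S) P Q = t
  not_small : ¬ Jd S univ a₁ (Bs (bt S) univ P Q)

/-- the levels of the basic subsets of `W` of rank at most `r` in the ideal `TT` are unbounded -/
def Unb (S : L.Structure M) (W : Set M) (r : ℕ) : Prop :=
  ∀ ζ < om1, ∃ P Q : Finset M, Ok (bt S) univ P Q ∧ Bs (bt S) univ P Q ⊆ W ∧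
    TT S (Bs (bt S) univ P Q) ∧ rho (bt S) P Q ≤ r ∧ ¬ Lv S univ (Bs (bt S) univ P Q) ζ

/-- the maximal cut of rank `t` in the ideal `TT` containing `V` -/
def Hat (S : L.Structure M) (X : Set M) (t : ℕ) (V : Set M) : Set M :=
  ⋃₀ {T | T ⊆ X ∧ TT S T ∧ rk (bt S) univ T ≤ t ∧ V ⊆ T}

/-- a basic set `V(P,Q)` contained in `W` and its replacement `V(P',Q')` -/
structure RepD (S : L.Structure M) (B : Set M) (b ω' lam : Ordinal.{0}) (W : Set M)
    (P Q G P' Q' G' : Finset M) (q : Set (M × M)) : Prop where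
  ok : Ok (bt S) univ P Q
  sub : Bs (bt S) univ P Q ⊆ W
  inB : (P : Set M) ⊆ B ∧ (Q : Set M) ⊆ B ∧ (G : Set M) ⊆ B
  inB' : (P' : Set M) ⊆ B ∧ (Q' : Set M) ⊆ B ∧ (G' : Set M) ⊆ B
  rc : RC S univ (Bs (bt S) univ P Q) G
  ok' : Ok (bt S) univ P' Q'
  rc' : RC S univ (Bs (bt S) univ P' Q') G'
  fin : q.Finite
  mt : Mt q G' G
  mem : ∀ c ∈ q, c.1 ∈ G' ∧ c.2 ∈ G
  bfr : BFR S S (Bs (bt S) univ P' Q') (Bs (bt S) univ P Q) b q
  lv' : ∃ ζ < lam, Lv S univ (Bs (bt S) univ P' Q') ζ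
  big' : ¬ Jd S univ ω' (Bs (bt S) univ P' Q')

/-- closure properties of the countable set `B` and the ordinal `lam` -/
structure CloD (S : L.Structure M) (PX QX : Finset M) (t : ℕ) (a₁ b z ω' : Ordinal.{0})
    (B : Set M) (lam : Ordinal.{0}) : Prop where
  ctb : B.Countable
  gd : Gd lam
  lt : ω' < lam
  clo : ∀ γ < lam, Clo S univ γ B
  lv : ∀ P Q : Finset M, (P : Set M) ⊆ B → (Q : Set M) ⊆ B → Ok (bt S) univ P Q →
    TT S (Bs (bt S) univ P Q) → ∃ ζ < lam, Lv S univ (Bs (bt S) univ P Q) ζ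
  hat : ∀ P Q : Finset M, (P : Set M) ⊆ B → (Q : Set M) ⊆ B →
    Big S (Bs (bt S) univ PX QX) t a₁ P Q →
    (∃ η < lam, DfAt S (P ∪ Q ∪ (PX ∪ QX)) η
      (Hat S (Bs (bt S) univ PX QX) t (Bs (bt S) univ P Q))) ∧
    ∃ ζ < lam, Lv S univ (Hat S (Bs (bt S) univ PX QX) t (Bs (bt S) univ P Q)) ζ
  wild : ∀ P Q : Finset M, (P : Set M) ⊆ B → (Q : Set M) ⊆ B → Ok (bt S) univ P Q →
    Bs (bt S) univ P Q ⊆ Bs (bt S) univ PX QX → Wil S (Bs (bt S) univ P Q) →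
    ∀ ζ < lam, ∃ P' Q' : Finset M, (P' : Set M) ⊆ B ∧ (Q' : Set M) ⊆ B ∧
      Big S (Bs (bt S) univ PX QX) t a₁ P' Q' ∧
      Bs (bt S) univ P' Q' ⊆ Bs (bt S) univ P Q ∧ ¬ Jd S univ ζ (Bs (bt S) univ P' Q')
  rep : ∀ P Q G : Finset M, (P : Set M) ⊆ B → (Q : Set M) ⊆ B → (G : Set M) ⊆ B →
    Ok (bt S) univ P Q → TT S (Bs (bt S) univ P Q) → rho (bt S) P Q = t →
    RC S univ (Bs (bt S) univ P Q) G → ¬ Jd S univ z (Bs (bt S) univ P Q) →
    ∃ (P' Q' G' : Finset M) (q : Set (M × M)),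
      RepD S B b ω' lam (Bs (bt S) univ P Q) P Q G P' Q' G' q

/-- the classes of the basic sets of rank `t` with representatives of their columns, for the
equivalence of level `b`, which are not in the ideal `z` have members outside all ideals -/
def BCl (S : L.Structure M) (t : ℕ) (b z : Ordinal.{0}) : Prop :=
  ∀ P Q G : Finset M, Ok (bt S) univ P Q → TT S (Bs (bt S) univ P Q) → rho (bt S) P Q = t →
    RC S univ (Bs (bt S) univ P Q) G → ¬ Jd S univ z (Bs (bt S) univ P Q) →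
    ∀ ζ < om1, ∃ (P' Q' G' : Finset M) (q : Set (M × M)), Ok (bt S) univ P' Q' ∧
      TT S (Bs (bt S) univ P' Q') ∧ RC S univ (Bs (bt S) univ P' Q') G' ∧ q.Finite ∧
      Mt q G' G ∧ (∀ c ∈ q, c.1 ∈ G' ∧ c.2 ∈ G) ∧
      BFR S S (Bs (bt S) univ P' Q') (Bs (bt S) univ P Q) b q ∧
      ¬ Jd S univ ζ (Bs (bt S) univ P' Q')

/-- thresholds -/
structure ThrD (S : L.Structure M) (PX QX : Finset M) (t : ℕ) (a₁ z : Ordinal.{0})
    (ζ : ℕ → Ordinal.{0}) (ω' : Ordinal.{0}) (PV QV : ℕ → Finset M) : Prop where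
  big : ∀ n, Big S (Bs (bt S) univ PX QX) t a₁ (PV n) (QV n)
  gd : ∀ n, Gd (ζ n)
  zlt : z < ζ 0
  lt : ∀ n, ζ n < ζ (n + 1)
  not_jd : ∀ n, ¬ Jd S univ (ζ n)
    (Hat S (Bs (bt S) univ PX QX) t (Bs (bt S) univ (PV n) (QV n)))
  jd : ∀ n, Jd S univ (ζ (n + 1))
    (Hat S (Bs (bt S) univ PX QX) t (Bs (bt S) univ (PV n) (QV n)))
  gdω : Gd ω'
  ltω : ∀ n, ζ n < ω'

/-- `T` enumerates the maximal cuts given by basic sets over `B` -/
structure HatD (S : L.Structure M) (PX QX : Finset M) (t : ℕ) (a₁ : Ordinal.{0}) (B : Set M)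
    (T : ℕ → Set M) : Prop where
  inj : Function.Injective T
  hat : ∀ k, ∃ P Q : Finset M, (P : Set M) ⊆ B ∧ (Q : Set M) ⊆ B ∧
    Big S (Bs (bt S) univ PX QX) t a₁ P Q ∧
    T k = Hat S (Bs (bt S) univ PX QX) t (Bs (bt S) univ P Q)
  all : ∀ P Q : Finset M, (P : Set M) ⊆ B → (Q : Set M) ⊆ B →
    Big S (Bs (bt S) univ PX QX) t a₁ P Q →
    ∃ k, T k = Hat S (Bs (bt S) univ PX QX) t (Bs (bt S) univ P Q)

/-- all the data for the coding of case B -/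
structure Dat (S : L.Structure M) (δ : Ordinal.{0}) : Type 1 where
  PX : Finset M
  QX : Finset M
  t : ℕ
  a : Ordinal.{0}
  a₁ : Ordinal.{0}
  b : Ordinal.{0}
  z : Ordinal.{0}
  ζ : ℕ → Ordinal.{0}
  ω' : Ordinal.{0}
  lam : Ordinal.{0}
  B : Set M
  T : ℕ → Set M
  n : ℕ → ℕ
  P : ℕ → Finset M
  Q : ℕ → Finset M
  G : ℕ → Finset M
  P' : ℕ → Finset M
  Q' : ℕ → Finset M
  G' : ℕ → Finset M
  q : ℕ → Set (M × M)
  cb : CB S PX QX t a
  cls₁ : Cls S a₁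
  haa : a < a₁
  hb : Gd b
  hab : a₁ < b
  hδ : δ < b
  hbz : b < z
  hζ : ∀ n, Gd (ζ n)
  hzζ : z < ζ 0
  hζs : ∀ n, ζ n < ζ (n + 1)
  hω : Gd ω'
  hζω : ∀ n, ζ n < ω'
  hlam : Gd lam
  hωl : ω' < lam
  ctb : B.Countable
  hX : (PX : Set M) ⊆ B ∧ (QX : Set M) ⊆ B
  clo : ∀ γ < lam, Clo S univ γ B
  wild : ∀ P Q : Finset M, (P : Set M) ⊆ B → (Q : Set M) ⊆ B → Ok (bt S) univ P Q →
    Bs (bt S) univ P Q ⊆ Bs (bt S) univ PX QX → Wil S (Bs (bt S) univ P Q) →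
    ∀ ζ < lam, ∃ P' Q' : Finset M, (P' : Set M) ⊆ B ∧ (Q' : Set M) ⊆ B ∧
      Big S (Bs (bt S) univ PX QX) t a₁ P' Q' ∧
      Bs (bt S) univ P' Q' ⊆ Bs (bt S) univ P Q ∧ ¬ Jd S univ ζ (Bs (bt S) univ P' Q')
  T_sub : ∀ k, T k ⊆ Bs (bt S) univ PX QX
  T_tt : ∀ k, TT S (T k)
  T_rk : ∀ k, rk (bt S) univ (T k) ≤ t
  T_max : ∀ P Q : Finset M, (P : Set M) ⊆ B → (Q : Set M) ⊆ B →
    Big S (Bs (bt S) univ PX QX) t a₁ P Q → ∃ k, Bs (bt S) univ P Q ⊆ T k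
  T_inter : ∀ i j, i ≠ j → CovS S univ (T i ∩ T j) (max 1 t) a
  T_cov : ∀ k, CovS S univ (T k \ (T k \ ⋃ i < k, T i)) (n k) a
  U_df : ∀ k, ∃ F : Finset M, (F : Set M) ⊆ B ∧ ∃ η < lam, DfAt S F η (T k \ ⋃ i < k, T i)
  U_rk : ∀ k, rk (bt S) univ (T k \ ⋃ i < k, T i) ≤ t
  U_lam : ∀ k, Jd S univ lam (T k \ ⋃ i < k, T i)
  idx : ∀ n, ∃ k, Jd S univ (ζ (n + 1)) (T k \ ⋃ i < k, T i) ∧
    ¬ Jd S univ (ζ n) (T k \ ⋃ i < k, T i)
  rep : ∀ k n, Jd S univ (ζ (n + 1)) (T k \ ⋃ i < k, T i) →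
    ¬ Jd S univ (ζ n) (T k \ ⋃ i < k, T i) →
    RepD S B b ω' lam (T k \ ⋃ i < k, T i) (P k) (Q k) (G k) (P' k) (Q' k) (G' k) (q k)

namespace Dat

variable {S : L.Structure M} {δ : Ordinal.{0}} (d : Dat S δ)

/-- the wild set in which we code -/
def X : Set M := Bs (bt S) univ d.PX d.QX

/-- the cores -/
def U (k : ℕ) : Set M := d.T k \ ⋃ i < k, d.T i

/-- the replaced basic subset of the core -/
def V (k : ℕ) : Set M := Bs (bt S) univ (d.P k) (d.Q k)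

/-- its replacement -/
def V' (k : ℕ) : Set M := Bs (bt S) univ (d.P' k) (d.Q' k)

/-- the core `k` has index `n` -/
def Ix (n k : ℕ) : Prop :=
  Jd S univ (d.ζ (n + 1)) (d.U k) ∧ ¬ Jd S univ (d.ζ n) (d.U k)

/-- the cores which are changed in the structure coding `f` -/
def R (f : ℕ → Bool) : Set ℕ := {k | ∃ n, f n = false ∧ d.Ix n k}

/-- the element of `V k` which gives the outer relations -/
noncomputable def u (c : Option ℕ × M) : M :=
  match c.1 with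
  | none => c.2
  | some k => if h : ∃ x, x ∈ d.V k ∧ x ∈ d.B ∧ AtEq S S (insert (c.2, x) (d.q k)) then
      h.choose else c.2

/-- the structure containing all the coding structures -/
@[instance_reducible]
noncomputable def TN : L.Structure (Option ℕ × M) where
  funMap g := isEmptyElim g
  RelMap {n} R v := if (∃ k : ℕ, ∀ i, (v i).1 = some k) then S.RelMap R (fun i => (v i).2)
    else S.RelMap R (fun i => d.u (v i))

/-- the universe of the structure coding `f` -/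
def UN (f : ℕ → Bool) : Set (Option ℕ × M) :=
  {c | (c.1 = none ∧ c.2 ∈ d.B ∧ ∀ k ∈ d.R f, c.2 ∉ d.V k) ∨
    ∃ k ∈ d.R f, c.1 = some k ∧ c.2 ∈ d.V' k ∧ c.2 ∈ d.B}

/-- the new pieces -/
def D (k : ℕ) : Set (Option ℕ × M) := {c | c.1 = some k ∧ c.2 ∈ d.V' k ∧ c.2 ∈ d.B}

/-- the cores of the structure coding `f` -/
def UU (f : ℕ → Bool) (k : ℕ) : Set (Option ℕ × M) := {c | c ∈ d.UN f ∧ d.u c ∈ d.U k}

/-- admissible maps of level `β` -/
structure Adm (f : ℕ → Bool) (β : Ordinal.{0}) (p : Set ((Option ℕ × M) × M)) : Prop where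
  fin : p.Finite
  mem : ∀ c ∈ p, c.1 ∈ d.UN f ∧ c.2 ∈ d.B
  hnone : ∀ c ∈ p, c.1.1 = none → c.2 = c.1.2
  hsome : ∀ c ∈ p, ∀ k, c.1.1 = some k → c.2 ∈ d.V k
  bfr : ∀ k ∈ d.R f, BFR S S (d.V' k ∩ d.B) (d.V k ∩ d.B) β
    ({e | (((some k : Option ℕ), e.1), e.2) ∈ p} ∪ d.q k)

/-- the parameters of `X` in the structure coding `f` -/
structure Par (f : ℕ → Bool) (p₀ : Set ((Option ℕ × M) × M)) (CP CQ : Finset (Option ℕ × M)) :
    Prop where
  adm : d.Adm f (d.a₁ + Ordinal.omega0 + Ordinal.omega0 + Ordinal.omega0) p₀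
  mtP : Mt p₀ CP d.PX
  mtQ : Mt p₀ CQ d.QX

/-- basic sets of rank `t` in the ideal, contained in the set `X` of the structure coding `f` -/
structure Nice (f : ℕ → Bool) (CP CQ P Q : Finset (Option ℕ × M)) : Prop where
  ok : Ok (bt d.TN) (d.UN f) P Q
  sub : Bs (bt d.TN) (d.UN f) P Q ⊆ Bs (bt d.TN) (d.UN f) CP CQ
  lam : Jd d.TN (d.UN f) d.lam (Bs (bt d.TN) (d.UN f) P Q)
  rho : rho (bt d.TN) P Q = d.t

/-- big basic sets of the structure coding `f` -/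
structure BigN (f : ℕ → Bool) (CP CQ P Q : Finset (Option ℕ × M)) : Prop where
  nice : d.Nice f CP CQ P Q
  not_small : ¬ Jd d.TN (d.UN f) d.a₁ (Bs (bt d.TN) (d.UN f) P Q)

/-- the class of a big basic set -/
def cl (f : ℕ → Bool) (CP CQ P Q : Finset (Option ℕ × M)) : Set (Option ℕ × M) :=
  {x | ∃ P₁ Q₁ : Finset (Option ℕ × M), d.Nice f CP CQ P₁ Q₁ ∧
    Bs (bt d.TN) (d.UN f) P Q ⊆ Bs (bt d.TN) (d.UN f) P₁ Q₁ ∧
    x ∈ Bs (bt d.TN) (d.UN f) P₁ Q₁}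

/-- the decoding property -/
def QQ (f : ℕ → Bool) (CP CQ : Finset (Option ℕ × M)) (n : ℕ) : Prop :=
  ∃ P Q : Finset (Option ℕ × M), d.BigN f CP CQ P Q ∧
    Jd d.TN (d.UN f) (d.ζ (n + 1)) (d.cl f CP CQ P Q) ∧
    ¬ Jd d.TN (d.UN f) (d.ζ n) (d.cl f CP CQ P Q)

end Dat

end Pool.Agent.CW
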