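import Pool.Agent.CW.Defs

/-!
# Rank, back and forth: , , 

Merged file (to shorten the import chain): contents, unchanged, of
`Pool.Agent.CW.RKa`, `Pool.Agent.CW.RKb`, `Pool.Agent.CW.BSa`.
-/

/-! ### formerly `Pool.Agent.CW.RKa` -/

section

/-!
# CW, module RKa
-/

set_option autoImplicit false
set_option linter.unusedSectionVars false
set_option linter.unusedVariables false

namespace Pool.Agent.CW

open Set Pool.Agent.Helper5 Pool.Agent.Helper5.DU Pool.Agent.Helper6.Str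
  Pool.Agent.Helper79.VC Pool.Agent.Helper97.VC Pool.Agent.Helper97.MD Pool.Agent.Helper6.VC
  Pool.Agent.Helper97.LO

open scoped Classical

variable {M N A : Type}

theorem row_eq_iff {τ : M → M → A} {Q : Finset M} {x y : M} :
    row τ Q x = row τ Q y ↔ ∀ q ∈ Q, τ x q = τ y q := by
  constructor
  · intro h q hq
    have h1 := congrFun h (q, τ x q)
    unfold row at h1
    rw [if_pos ⟨hq, rfl⟩] at h1
    by_contra h2
    rw [if_neg (fun h3 => h2 h3.2.symm)] at h1
    exact one_ne_zero h1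
  · intro h
    funext c
    unfold row
    by_cases hc : c.1 ∈ Q
    · rw [h c.1 hc]
    · rw [if_neg (fun h3 => hc h3.1), if_neg (fun h3 => hc h3.1)]

theorem rk1_fin (τ : M → M → A) (P Q : Finset M) :
    FiniteDimensional (ZMod 2) (Submodule.span (ZMod 2) (row τ Q '' (P : Set M))) :=
  FiniteDimensional.span_of_finite _ (P.finite_toSet.image _)

/-- restriction of the columns -/
noncomputable def rk1_res (Q : Finset M) : (M × A → ZMod 2) →ₗ[ZMod 2] (M × A → ZMod 2) where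
  toFun v := fun c => if c.1 ∈ Q then v c else 0
  map_add' v w := by
    funext c
    simp only [Pi.add_apply]
    split_ifs <;> simp
  map_smul' a v := by
    funext c
    simp only [Pi.smul_apply, RingHom.id_apply]
    split_ifs <;> simp

theorem rk1_mono {τ : M → M → A} {P P' Q Q' : Finset M} (hP : P ⊆ P') (hQ : Q ⊆ Q') :
    rk1 τ P Q ≤ rk1 τ P' Q' := by
  have h1 : rk1 τ P Q ≤ rk1 τ P' Q := by
    have := rk1_fin τ P' Q
    exact Submodule.finrank_mono (Submodule.span_mono (image_mono (by exact_mod_cast hP)))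
  refine h1.trans ?_
  have h2 : ∀ x, row τ Q x = rk1_res (A := A) Q (row τ Q' x) := by
    intro x
    funext c
    show row τ Q x c = if c.1 ∈ Q then row τ Q' x c else 0
    unfold row
    by_cases hc : c.1 ∈ Q
    · rw [if_pos hc]
      by_cases h3 : τ x c.1 = c.2
      · rw [if_pos ⟨hc, h3⟩, if_pos ⟨hQ hc, h3⟩]
      · rw [if_neg (fun h => h3 h.2), if_neg (fun h => h3 h.2)]
    · rw [if_neg hc, if_neg (fun h => hc h.1)]
  have h3 : row τ Q '' (P' : Set M) = rk1_res (A := A) Q '' (row τ Q' '' (P' : Set M)) := by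
    rw [image_image]
    exact image_congr fun x _ => h2 x
  have := rk1_fin τ P' Q'
  unfold rk1
  rw [h3, ← Submodule.map_span]
  exact Submodule.finrank_map_le _ _

/-- all columns -/
noncomputable def rk1_psi (τ : M → M → A) : (M →₀ ZMod 2) →ₗ[ZMod 2] (M × A → ZMod 2) :=
  Finsupp.linearCombination (ZMod 2) (fun x (c : M × A) => if τ x c.1 = c.2 then (1 : ZMod 2) else 0)

/-- the combinations which vanish on the columns in `Q` -/
noncomputable def rk1_K (τ : M → M → A) (Q : Set M) : Submodule (ZMod 2) (M →₀ ZMod 2) where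
  carrier := {v | ∀ c : M × A, c.1 ∈ Q → rk1_psi τ v c = 0}
  add_mem' := by
    intro v w hv hw c hc
    rw [map_add, Pi.add_apply, hv c hc, hw c hc, add_zero]
  zero_mem' := by
    intro c _
    rw [map_zero, Pi.zero_apply]
  smul_mem' := by
    intro a v hv c hc
    rw [map_smul, Pi.smul_apply, hv c hc, smul_zero]

theorem rk1_key (τ : M → M → A) (P Q : Finset M) :
    rk1 τ P Q + Module.finrank (ZMod 2)
      (Finsupp.supported (ZMod 2) (ZMod 2) (P : Set M) ⊓ rk1_K τ (Q : Set M) :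
        Submodule (ZMod 2) (M →₀ ZMod 2)) = P.card := by
  set E := Finsupp.supported (ZMod 2) (ZMod 2) (P : Set M) with hE
  set φ : (M →₀ ZMod 2) →ₗ[ZMod 2] (M × A → ZMod 2) :=
    Finsupp.linearCombination (ZMod 2) (row τ Q) with hφ
  have hφ1 : ∀ v, φ v = rk1_res (A := A) Q (rk1_psi τ v) := by
    intro v
    have h : φ = (rk1_res (A := A) Q).comp (rk1_psi τ) := by
      apply Finsupp.lhom_ext
      intro x b
      rw [hφ, Finsupp.linearCombination_single, LinearMap.comp_apply]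
      unfold rk1_psi
      rw [Finsupp.linearCombination_single, map_smul]
      congr 1
      funext c
      show row τ Q x c = if c.1 ∈ Q then (if τ x c.1 = c.2 then (1 : ZMod 2) else 0) else 0
      unfold row
      by_cases hc : c.1 ∈ Q
      · rw [if_pos hc]
        by_cases h3 : τ x c.1 = c.2
        · rw [if_pos ⟨hc, h3⟩, if_pos h3]
        · rw [if_neg (fun h => h3 h.2), if_neg h3]
      · rw [if_neg hc, if_neg (fun h => hc h.1)]
    rw [h]
    rfl
  have hker : LinearMap.ker φ = rk1_K τ (Q : Set M) := by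
    ext v
    rw [LinearMap.mem_ker, hφ1]
    constructor
    · intro h c hc
      have h1 := congrFun h c
      have h2 : rk1_res (A := A) Q (rk1_psi τ v) c = rk1_psi τ v c := by
        show (if c.1 ∈ Q then rk1_psi τ v c else 0) = _
        rw [if_pos (by exact_mod_cast hc)]
      rw [h2] at h1
      exact h1
    · intro h
      funext c
      show (if c.1 ∈ Q then rk1_psi τ v c else 0) = 0
      split_ifs with hc
      · exact h c (by exact_mod_cast hc)
      · rfl
  have hfin : FiniteDimensional (ZMod 2) E := by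
    have : Module.Finite (ZMod 2) ((P : Set M) →₀ ZMod 2) := inferInstance
    exact Module.Finite.equiv (Finsupp.supportedEquivFinsupp (P : Set M)).symm
  have hcard : Module.finrank (ZMod 2) E = P.card := by
    rw [LinearEquiv.finrank_eq (Finsupp.supportedEquivFinsupp (M := ZMod 2) (R := ZMod 2)
      (P : Set M)), Module.finrank_finsupp_self]
    simp
  have hrange : LinearMap.range (φ.domRestrict E) =
      Submodule.span (ZMod 2) (row τ Q '' (P : Set M)) := by
    rw [LinearMap.range_domRestrict, hE, ← Finsupp.span_image_eq_map_linearCombination]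
  have hk2 : Module.finrank (ZMod 2) (LinearMap.ker (φ.domRestrict E)) =
      Module.finrank (ZMod 2) (E ⊓ rk1_K τ (Q : Set M) : Submodule (ZMod 2) (M →₀ ZMod 2)) := by
    rw [← hker, LinearMap.ker_domRestrict, ← Submodule.map_comap_subtype,
      Submodule.finrank_map_subtype_eq]
  have h := LinearMap.finrank_range_add_finrank_ker (K := ZMod 2) (V := E) (φ.domRestrict E)
  rw [hrange, hk2, hcard] at h
  exact h

theorem rk1_submod (τ : M → M → A) (P P' Q Q' : Finset M) :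
    rk1 τ (P ∪ P') (Q ∩ Q') + rk1 τ (P ∩ P') (Q ∪ Q') ≤ rk1 τ P Q + rk1 τ P' Q' := by
  have k1 := rk1_key τ P Q
  have k2 := rk1_key τ P' Q'
  have k3 := rk1_key τ (P ∪ P') (Q ∩ Q')
  have k4 := rk1_key τ (P ∩ P') (Q ∪ Q')
  have k5 := Finset.card_union_add_card_inter P P'
  set E : Finset M → Submodule (ZMod 2) (M →₀ ZMod 2) := fun P =>
    Finsupp.supported (ZMod 2) (ZMod 2) (P : Set M) with hE
  have hfin : ∀ P : Finset M, FiniteDimensional (ZMod 2) (E P) := by
    intro P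
    exact Module.Finite.equiv (Finsupp.supportedEquivFinsupp (P : Set M)).symm
  have := hfin P
  have := hfin P'
  have := hfin (P ∪ P')
  have : FiniteDimensional (ZMod 2) (E P ⊓ rk1_K τ (Q : Set M) :
      Submodule (ZMod 2) (M →₀ ZMod 2)) := Submodule.finiteDimensional_inf_left _ _
  have : FiniteDimensional (ZMod 2) (E P' ⊓ rk1_K τ (Q' : Set M) :
      Submodule (ZMod 2) (M →₀ ZMod 2)) := Submodule.finiteDimensional_inf_left _ _
  have : FiniteDimensional (ZMod 2) (E (P ∪ P') ⊓ rk1_K τ ((Q ∩ Q' : Finset M) : Set M) :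
      Submodule (ZMod 2) (M →₀ ZMod 2)) := Submodule.finiteDimensional_inf_left _ _
  have k6 := Submodule.finrank_sup_add_finrank_inf_eq (E P ⊓ rk1_K τ (Q : Set M))
    (E P' ⊓ rk1_K τ (Q' : Set M))
  have k7 : (E P ⊓ rk1_K τ (Q : Set M)) ⊔ (E P' ⊓ rk1_K τ (Q' : Set M)) ≤
      E (P ∪ P') ⊓ rk1_K τ ((Q ∩ Q' : Finset M) : Set M) := by
    apply sup_le
    · apply inf_le_inf
      · exact Finsupp.supported_mono (by
          intro x hx
          rw [Finset.coe_union]
          exact Or.inl hx)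
      · intro v hv c hc
        rw [Finset.coe_inter] at hc
        exact hv c hc.1
    · apply inf_le_inf
      · exact Finsupp.supported_mono (by
          intro x hx
          rw [Finset.coe_union]
          exact Or.inr hx)
      · intro v hv c hc
        rw [Finset.coe_inter] at hc
        exact hv c hc.2
  have k8 : (E P ⊓ rk1_K τ (Q : Set M)) ⊓ (E P' ⊓ rk1_K τ (Q' : Set M)) =
      E (P ∩ P') ⊓ rk1_K τ ((Q ∪ Q' : Finset M) : Set M) := by
    rw [inf_inf_inf_comm]
    congr 1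
    · rw [hE]
      simp only [Finset.coe_inter]
      rw [Finsupp.supported_inter]
    · ext v
      constructor
      · intro hv c hc
        rw [Finset.coe_union] at hc
        rcases hc with hc | hc
        · exact hv.1 c hc
        · exact hv.2 c hc
      · intro hv
        refine ⟨fun c hc => hv c ?_, fun c hc => hv c ?_⟩
        · rw [Finset.coe_union]
          exact Or.inl hc
        · rw [Finset.coe_union]
          exact Or.inr hc
  have k9 := Submodule.finrank_mono k7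
  rw [k8] at k6
  have k1' : rk1 τ P Q + Module.finrank (ZMod 2) (E P ⊓ rk1_K τ (Q : Set M) :
      Submodule (ZMod 2) (M →₀ ZMod 2)) = P.card := k1
  have k2' : rk1 τ P' Q' + Module.finrank (ZMod 2) (E P' ⊓ rk1_K τ (Q' : Set M) :
      Submodule (ZMod 2) (M →₀ ZMod 2)) = P'.card := k2
  have k3' : rk1 τ (P ∪ P') (Q ∩ Q') + Module.finrank (ZMod 2) (E (P ∪ P') ⊓
      rk1_K τ ((Q ∩ Q' : Finset M) : Set M) :
      Submodule (ZMod 2) (M →₀ ZMod 2)) = (P ∪ P').card := k3
  have k4' : rk1 τ (P ∩ P') (Q ∪ Q') + Module.finrank (ZMod 2) (E (P ∩ P') ⊓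
      rk1_K τ ((Q ∪ Q' : Finset M) : Set M) :
      Submodule (ZMod 2) (M →₀ ZMod 2)) = (P ∩ P').card := k4
  omega

theorem rk1_empty_left (τ : M → M → A) (Q : Finset M) : rk1 τ ∅ Q = 0 := by
  unfold rk1
  rw [Finset.coe_empty, image_empty, Submodule.span_empty, finrank_bot]

theorem rk1_empty_right (τ : M → M → A) (P : Finset M) : rk1 τ P ∅ = 0 := by
  have h : row τ (∅ : Finset M) '' (P : Set M) ⊆ {0} := by
    rintro _ ⟨x, _, rfl⟩
    rw [mem_singleton_iff]
    funext c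
    unfold row
    rw [if_neg (fun h => Finset.notMem_empty _ h.1)]
    rfl
  have h2 : Submodule.span (ZMod 2) (row τ (∅ : Finset M) '' (P : Set M)) = ⊥ := by
    rw [Submodule.span_eq_bot]
    intro x hx
    exact h hx
  unfold rk1
  rw [h2, finrank_bot]

theorem ncard_row_le (τ : M → M → A) (P Q : Finset M) :
    (row τ Q '' (P : Set M)).ncard ≤ 2 ^ rk1 τ P Q := by
  have := rk1_fin τ P Q
  set W := Submodule.span (ZMod 2) (row τ Q '' (P : Set M)) with hW
  have hfin : Finite W := Module.finite_of_finite (ZMod 2)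
  have h1 : Nat.card W = 2 ^ Module.finrank (ZMod 2) W := by
    have h2 := Module.natCard_eq_pow_finrank (K := ZMod 2) (V := W)
    rw [h2, Nat.card_zmod]
  have h3 : (row τ Q '' (P : Set M)).ncard ≤ (W : Set (M × A → ZMod 2)).ncard :=
    ncard_le_ncard Submodule.subset_span (Set.toFinite _)
  have h4 : (W : Set (M × A → ZMod 2)).ncard = Nat.card W := rfl
  rw [h4, h1] at h3
  exact h3

theorem rk1_le_ncard (τ : M → M → A) (P Q : Finset M) :
    rk1 τ P Q ≤ (row τ Q '' (P : Set M)).ncard := by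
  have : Fintype (row τ Q '' (P : Set M)) := (P.finite_toSet.image _).fintype
  have h := finrank_span_le_card (R := ZMod 2) (row τ Q '' (P : Set M))
  rw [ncard_eq_toFinset_card']
  exact h

theorem rk1_le_congr {τ : M → M → A} {τ' : N → N → A} {p : Set (M × N)}
    (h1 : ∀ a ∈ p, ∀ b ∈ p, (a.1 = b.1 ↔ a.2 = b.2))
    (h2 : ∀ a ∈ p, ∀ b ∈ p, τ a.1 b.1 = τ' a.2 b.2) {P Q : Finset M} {P' Q' : Finset N}
    (hP : Mt p P P') (hQ : Mt p Q Q') : rk1 τ' P' Q' ≤ rk1 τ P Q := by
  choose g hg hg' using hQ.2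
  let Θ : (M × A → ZMod 2) →ₗ[ZMod 2] (N × A → ZMod 2) :=
    { toFun := fun v c => if h : c.1 ∈ Q' then v (g c.1 h, c.2) else 0
      map_add' := by
        intro v w
        funext c
        simp only [Pi.add_apply]
        split_ifs <;> simp
      map_smul' := by
        intro a v
        funext c
        simp only [Pi.smul_apply, RingHom.id_apply]
        split_ifs <;> simp }
  have hΘ : ∀ x x', (x, x') ∈ p → Θ (row τ Q x) = row τ' Q' x' := by
    intro x x' hx
    funext c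
    show (if h : c.1 ∈ Q' then row τ Q x (g c.1 h, c.2) else 0) = row τ' Q' x' c
    unfold row
    by_cases hc : c.1 ∈ Q'
    · rw [dif_pos hc]
      have h3 := h2 _ hx _ (hg' c.1 hc)
      have h4 : τ x (g c.1 hc) = τ' x' c.1 := h3
      show (if g c.1 hc ∈ Q ∧ τ x (g c.1 hc) = c.2 then (1 : ZMod 2) else 0) = _
      rw [h4]
      by_cases h5 : τ' x' c.1 = c.2
      · rw [if_pos ⟨hg c.1 hc, h5⟩, if_pos ⟨hc, h5⟩]
      · rw [if_neg (fun h => h5 h.2), if_neg (fun h => h5 h.2)]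
    · rw [dif_neg hc, if_neg (fun h => hc h.1)]
  have h3 : row τ' Q' '' (P' : Set N) ⊆ Θ '' (row τ Q '' (P : Set M)) := by
    rintro _ ⟨x', hx', rfl⟩
    obtain ⟨x, hx, hxx⟩ := hP.2 x' hx'
    exact ⟨row τ Q x, ⟨x, hx, rfl⟩, hΘ x x' hxx⟩
  have := rk1_fin τ P Q
  unfold rk1
  calc Module.finrank (ZMod 2) (Submodule.span (ZMod 2) (row τ' Q' '' (P' : Set N)))
      ≤ Module.finrank (ZMod 2) (Submodule.span (ZMod 2) (Θ '' (row τ Q '' (P : Set M)))) := by
        rw [← Submodule.map_span]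
        refine Submodule.finrank_mono ?_
        rw [Submodule.map_span]
        exact Submodule.span_mono h3
    _ = Module.finrank (ZMod 2)
        (Submodule.map Θ (Submodule.span (ZMod 2) (row τ Q '' (P : Set M)))) := by
        rw [Submodule.map_span]
    _ ≤ _ := Submodule.finrank_map_le _ _

theorem rk1_congr {τ : M → M → A} {τ' : N → N → A} {p : Set (M × N)}
    (h1 : ∀ a ∈ p, ∀ b ∈ p, (a.1 = b.1 ↔ a.2 = b.2))
    (h2 : ∀ a ∈ p, ∀ b ∈ p, τ a.1 b.1 = τ' a.2 b.2) {P Q : Finset M} {P' Q' : Finset N}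
    (hP : Mt p P P') (hQ : Mt p Q Q') : rk1 τ P Q = rk1 τ' P' Q' := by
  apply le_antisymm
  · exact rk1_le_congr (p := Prod.swap ⁻¹' p) (fun a ha b hb => (h1 _ ha _ hb).symm)
      (fun a ha b hb => (h2 _ ha _ hb).symm) ⟨hP.2, hP.1⟩ ⟨hQ.2, hQ.1⟩
  · exact rk1_le_congr h1 h2 hP hQ

theorem rho_mono {τ : M → M → A} {P P' Q Q' : Finset M} (hP : P ⊆ P') (hQ : Q ⊆ Q') :
    rho τ P Q ≤ rho τ P' Q' :=
  add_le_add (rk1_mono hP hQ) (rk1_mono hQ hP)

theorem rho_submod (τ : M → M → A) (P P' Q Q' : Finset M) :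
    rho τ (P ∪ P') (Q ∩ Q') + rho τ (P ∩ P') (Q ∪ Q') ≤ rho τ P Q + rho τ P' Q' := by
  have h1 := rk1_submod τ P P' Q Q'
  have h2 := rk1_submod τ Q Q' P P'
  unfold rho
  omega

theorem rho_comm (τ : M → M → A) (P Q : Finset M) : rho τ P Q = rho τ Q P :=
  add_comm _ _

theorem rho_empty_left (τ : M → M → A) (Q : Finset M) : rho τ ∅ Q = 0 := by
  unfold rho
  rw [rk1_empty_left, rk1_empty_right]

theorem rho_congr {τ : M → M → A} {τ' : N → N → A} {p : Set (M × N)}
    (h1 : ∀ a ∈ p, ∀ b ∈ p, (a.1 = b.1 ↔ a.2 = b.2))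
    (h2 : ∀ a ∈ p, ∀ b ∈ p, τ a.1 b.1 = τ' a.2 b.2) {P Q : Finset M} {P' Q' : Finset N}
    (hP : Mt p P P') (hQ : Mt p Q Q') : rho τ P Q = rho τ' P' Q' := by
  unfold rho
  rw [rk1_congr h1 h2 hP hQ, rk1_congr h1 h2 hQ hP]

end Pool.Agent.CW

end

/-! ### formerly `Pool.Agent.CW.RKb` -/

section

/-!
# CW, module RKb
-/

set_option autoImplicit false
set_option linter.unusedSectionVars false
set_option linter.unusedVariables false

namespace Pool.Agent.CW

open Set Pool.Agent.Helper5 Pool.Agent.Helper5.DU Pool.Agent.Helper6.Str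
  Pool.Agent.Helper79.VC Pool.Agent.Helper97.VC Pool.Agent.Helper97.MD Pool.Agent.Helper6.VC
  Pool.Agent.Helper97.LO

open scoped Classical

variable {M N A : Type} {τ : M → M → A} {rv : A → A} {U X Y C : Set M} {P Q P' Q' : Finset M}

theorem rho_le_rk (hP : (P : Set M) ⊆ X) (hQ : (Q : Set M) ⊆ U \ X) :
    (rho τ P Q : ℕ∞) ≤ rk τ U X := by
  unfold rk
  exact le_iSup_of_le P (le_iSup_of_le hP (le_iSup_of_le Q (le_iSup_of_le hQ le_rfl)))

theorem rk_le_iff {n : ℕ} : rk τ U X ≤ n ↔ ∀ P Q : Finset M, (P : Set M) ⊆ X →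
    (Q : Set M) ⊆ U \ X → rho τ P Q ≤ n := by
  constructor
  · intro h P Q hP hQ
    exact_mod_cast (rho_le_rk hP hQ).trans h
  · intro h
    unfold rk
    exact iSup_le fun P => iSup_le fun hP => iSup_le fun Q => iSup_le fun hQ => by
      exact_mod_cast h P Q hP hQ

theorem le_rk_iff {n : ℕ} : (n : ℕ∞) ≤ rk τ U X ↔ ∃ P Q : Finset M, (P : Set M) ⊆ X ∧
    (Q : Set M) ⊆ U \ X ∧ n ≤ rho τ P Q := by
  constructor
  · intro h
    by_contra hc
    push Not at hc
    rcases Nat.eq_zero_or_pos n with hn | hn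
    · have := hc ∅ ∅ (by simp) (by simp)
      omega
    · have h1 : rk τ U X ≤ (n - 1 : ℕ) := by
        rw [rk_le_iff]
        intro P Q hP hQ
        have := hc P Q hP hQ
        omega
      have h2 : (n : ℕ∞) ≤ (n - 1 : ℕ) := h.trans h1
      have h3 : n ≤ n - 1 := by exact_mod_cast h2
      omega
  · rintro ⟨P, Q, hP, hQ, h⟩
    exact le_trans (by exact_mod_cast h) (rho_le_rk hP hQ)

theorem rk_mono_univ {V : Set M} (hUV : U ⊆ V) : rk τ U X ≤ rk τ V X := by
  unfold rk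
  exact iSup_le fun P => iSup_le fun hP => iSup_le fun Q => iSup_le fun hQ =>
    rho_le_rk hP (hQ.trans (sdiff_subset_sdiff_left hUV))

theorem rk_compl_le (τ : M → M → A) (hX : X ⊆ U) : rk τ U (U \ X) ≤ rk τ U X := by
  unfold rk
  refine iSup_le fun P => iSup_le fun hP => iSup_le fun Q => iSup_le fun hQ => ?_
  rw [rho_comm]
  refine rho_le_rk ?_ hP
  rw [sdiff_sdiff_cancel_left hX] at hQ
  exact hQ

theorem rk_compl (τ : M → M → A) (hX : X ⊆ U) : rk τ U (U \ X) = rk τ U X := by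
  apply le_antisymm (rk_compl_le τ hX)
  have h := rk_compl_le τ (U := U) (X := U \ X) sdiff_subset
  rwa [sdiff_sdiff_cancel_left hX] at h

theorem rk_empty (τ : M → M → A) (U : Set M) : rk τ U ∅ = 0 := by
  have h : rk τ U ∅ ≤ (0 : ℕ) := by
    rw [rk_le_iff]
    intro P Q hP hQ
    have h1 : P = ∅ := by
      apply Finset.coe_injective
      rw [Finset.coe_empty]
      exact subset_empty_iff.mp hP
    rw [h1, rho_empty_left]
  simpa using h

theorem rk_univ (τ : M → M → A) (U : Set M) : rk τ U U = 0 := by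
  have h := rk_compl τ (U := U) (X := ∅) (empty_subset _)
  rw [sdiff_empty, rk_empty] at h
  exact h

theorem rk_add_le {V : Set M} {c : ℕ∞}
    (h : ∀ P Q P' Q' : Finset M, (P : Set M) ⊆ X → (Q : Set M) ⊆ U \ X → (P' : Set M) ⊆ Y →
      (Q' : Set M) ⊆ V \ Y → ((rho τ P Q : ℕ∞) + rho τ P' Q') ≤ c) :
    rk τ U X + rk τ V Y ≤ c := by
  rcases eq_or_ne c ⊤ with hc | hc
  · rw [hc]
    exact le_top
  · obtain ⟨n, rfl⟩ := ENat.ne_top_iff_exists.mp hc
    have h1 : rk τ U X ≤ n := by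
      rw [rk_le_iff]
      intro P Q hP hQ
      have := h P Q ∅ ∅ hP hQ (by simp) (by simp)
      rw [rho_empty_left] at this
      have h2 : rho τ P Q + 0 ≤ n := by exact_mod_cast this
      omega
    have h2 : rk τ V Y ≤ n := by
      rw [rk_le_iff]
      intro P Q hP hQ
      have := h ∅ ∅ P Q (by simp) (by simp) hP hQ
      rw [rho_empty_left] at this
      have h2 : 0 + rho τ P Q ≤ n := by exact_mod_cast this
      omega
    obtain ⟨a, ha⟩ := ENat.ne_top_iff_exists.mp (ne_top_of_le_ne_top (ENat.natCast_ne_top n) h1)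
    obtain ⟨b, hb⟩ := ENat.ne_top_iff_exists.mp (ne_top_of_le_ne_top (ENat.natCast_ne_top n) h2)
    obtain ⟨P, Q, hP, hQ, h3⟩ := le_rk_iff.mp ha.le
    obtain ⟨P', Q', hP', hQ', h4⟩ := le_rk_iff.mp hb.le
    have h5 := h P Q P' Q' hP hQ hP' hQ'
    have h6 : rho τ P Q + rho τ P' Q' ≤ n := by exact_mod_cast h5
    rw [← ha, ← hb]
    exact_mod_cast (add_le_add h3 h4).trans h6

theorem rk_union_add_inter (τ : M → M → A) (U X Y : Set M) :
    rk τ U (X ∪ Y) + rk τ U (X ∩ Y) ≤ rk τ U X + rk τ U Y := by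
  apply rk_add_le
  intro P Q P' Q' hP hQ hP' hQ'
  set G : Finset M := P ∪ Q ∪ (P' ∪ Q') with hG
  set X1 := G.filter (fun x => x ∈ X) with hX1
  set Y1 := G.filter (fun x => x ∈ Y) with hY1
  set X2 := G.filter (fun x => x ∈ U \ X) with hX2
  set Y2 := G.filter (fun x => x ∈ U \ Y) with hY2
  have gP : ∀ x ∈ P, x ∈ G := fun x hx => by
    rw [hG, Finset.mem_union, Finset.mem_union]; exact Or.inl (Or.inl hx)
  have gQ : ∀ x ∈ Q, x ∈ G := fun x hx => by
    rw [hG, Finset.mem_union, Finset.mem_union]; exact Or.inl (Or.inr hx)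
  have gP' : ∀ x ∈ P', x ∈ G := fun x hx => by
    rw [hG, Finset.mem_union, Finset.mem_union (s := P')]; exact Or.inr (Or.inl hx)
  have gQ' : ∀ x ∈ Q', x ∈ G := fun x hx => by
    rw [hG, Finset.mem_union, Finset.mem_union (s := P')]; exact Or.inr (Or.inr hx)
  have e1 : P ⊆ X1 ∪ Y1 := by
    intro x hx
    rw [Finset.mem_union, hX1, hY1, Finset.mem_filter, Finset.mem_filter]
    rcases hP hx with h | h
    · exact Or.inl ⟨gP x hx, h⟩
    · exact Or.inr ⟨gP x hx, h⟩
  have e2 : Q ⊆ X2 ∩ Y2 := by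
    intro x hx
    rw [Finset.mem_inter, hX2, hY2, Finset.mem_filter, Finset.mem_filter]
    have h := hQ hx
    exact ⟨⟨gQ x hx, h.1, fun h3 => h.2 (Or.inl h3)⟩, gQ x hx, h.1, fun h3 => h.2 (Or.inr h3)⟩
  have e3 : P' ⊆ X1 ∩ Y1 := by
    intro x hx
    rw [Finset.mem_inter, hX1, hY1, Finset.mem_filter, Finset.mem_filter]
    have h := hP' hx
    exact ⟨⟨gP' x hx, h.1⟩, gP' x hx, h.2⟩
  have e4 : Q' ⊆ X2 ∪ Y2 := by
    intro x hx
    rw [Finset.mem_union, hX2, hY2, Finset.mem_filter, Finset.mem_filter]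
    have h := hQ' hx
    by_cases h3 : x ∈ X
    · exact Or.inr ⟨gQ' x hx, h.1, fun h4 => h.2 ⟨h3, h4⟩⟩
    · exact Or.inl ⟨gQ' x hx, h.1, h3⟩
  have f1 := rho_mono (τ := τ) e1 e2
  have f2 := rho_mono (τ := τ) e3 e4
  have f3 := rho_submod τ X1 Y1 X2 Y2
  have f4 : (rho τ X1 X2 : ℕ∞) ≤ rk τ U X := by
    apply rho_le_rk
    · intro x hx
      rw [hX1, Finset.mem_coe, Finset.mem_filter] at hx
      exact hx.2
    · intro x hx
      rw [hX2, Finset.mem_coe, Finset.mem_filter] at hx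
      exact hx.2
  have f5 : (rho τ Y1 Y2 : ℕ∞) ≤ rk τ U Y := by
    apply rho_le_rk
    · intro x hx
      rw [hY1, Finset.mem_coe, Finset.mem_filter] at hx
      exact hx.2
    · intro x hx
      rw [hY2, Finset.mem_coe, Finset.mem_filter] at hx
      exact hx.2
  have f6 : rho τ P Q + rho τ P' Q' ≤ rho τ X1 X2 + rho τ Y1 Y2 :=
    (add_le_add f1 f2).trans f3
  calc ((rho τ P Q : ℕ∞) + rho τ P' Q') ≤ (rho τ X1 X2 : ℕ∞) + rho τ Y1 Y2 := by
        exact_mod_cast f6
    _ ≤ _ := add_le_add f4 f5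

theorem rk_diff_add_diff (τ : M → M → A) (hX : X ⊆ U) (hY : Y ⊆ U) :
    rk τ U (X \ Y) + rk τ U (Y \ X) ≤ rk τ U X + rk τ U Y := by
  have h := rk_union_add_inter τ U X (U \ Y)
  have h1 : X ∩ (U \ Y) = X \ Y := by
    ext x
    exact ⟨fun h => ⟨h.1, h.2.2⟩, fun h => ⟨h.1, hX h.1, h.2⟩⟩
  have h2 : U \ (Y \ X) = X ∪ (U \ Y) := by
    ext x
    constructor
    · intro h
      by_cases h3 : x ∈ X
      · exact Or.inl h3
      · exact Or.inr ⟨h.1, fun h4 => h.2 ⟨h4, h3⟩⟩
    · rintro (h | h)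
      · exact ⟨hX h, fun h4 => h4.2 h⟩
      · exact ⟨h.1, fun h4 => h.2 h4.1⟩
  rw [h1, ← h2, rk_compl τ (sdiff_subset.trans hY), rk_compl τ hY] at h
  rw [add_comm]
  exact h

theorem rk_inter_add_diff (τ : M → M → A) (hY : Y ⊆ U) (hC : C ⊆ U) :
    rk τ U (Y ∩ C) + rk τ U (Y \ C) ≤ rk τ U Y + 2 * rk τ U C := by
  rcases eq_or_ne (rk τ U Y + rk τ U C) ⊤ with ht | ht
  · have h1 : rk τ U Y + 2 * rk τ U C = ⊤ := by
      rw [two_mul, ← add_assoc, ht, top_add]
    rw [h1]
    exact le_top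
  · have h1 := rk_union_add_inter τ U Y C
    have h2 := rk_union_add_inter τ U (Y ∪ C) (U \ C)
    have h3 : (Y ∪ C) ∩ (U \ C) = Y \ C := by
      ext x
      constructor
      · rintro ⟨h4 | h4, h5⟩
        · exact ⟨h4, h5.2⟩
        · exact absurd h4 h5.2
      · exact fun h => ⟨Or.inl h.1, hY h.1, h.2⟩
    rw [h3, rk_compl τ hC] at h2
    have h4 : rk τ U (Y \ C) ≤ rk τ U (Y ∪ C) + rk τ U C := le_trans le_add_self h2
    have h5 : rk τ U (Y ∪ C) ≠ ⊤ := fun h => ht (by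
      rw [h, top_add] at h1
      exact top_le_iff.mp h1)
    have h6 : rk τ U C ≠ ⊤ := fun h => ht (by rw [h, add_top])
    have h7 : rk τ U Y ≠ ⊤ := fun h => ht (by rw [h, top_add])
    have h8 : rk τ U (Y ∩ C) ≠ ⊤ := fun h => ht (by
      rw [h, add_top] at h1
      exact top_le_iff.mp h1)
    have h9 : rk τ U (Y \ C) ≠ ⊤ := fun h => by
      rw [h] at h4
      have := top_le_iff.mp h4
      rcases WithTop.add_eq_top.mp this with h | h
      · exact h5 h
      · exact h6 h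
    obtain ⟨a, ha⟩ := ENat.ne_top_iff_exists.mp h5
    obtain ⟨b, hb⟩ := ENat.ne_top_iff_exists.mp h6
    obtain ⟨c, hc⟩ := ENat.ne_top_iff_exists.mp h7
    obtain ⟨d, hd⟩ := ENat.ne_top_iff_exists.mp h8
    obtain ⟨e, he⟩ := ENat.ne_top_iff_exists.mp h9
    rw [← ha, ← hb, ← hc, ← hd] at h1
    rw [← ha, ← hb, ← he] at h4
    rw [← hb, ← hc, ← hd, ← he]
    have h1' : a + d ≤ c + b := by exact_mod_cast h1
    have h4' : e ≤ a + b := by exact_mod_cast h4
    have h10 : d + e ≤ c + 2 * b := by omega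
    exact_mod_cast h10

theorem rk_union_le (τ : M → M → A) (U X Y : Set M) :
    rk τ U (X ∪ Y) ≤ rk τ U X + rk τ U Y :=
  le_trans le_self_add (rk_union_add_inter τ U X Y)

theorem rk_inter_le (τ : M → M → A) (U X Y : Set M) :
    rk τ U (X ∩ Y) ≤ rk τ U X + rk τ U Y :=
  le_trans le_add_self (rk_union_add_inter τ U X Y)

theorem rk_diff_le (τ : M → M → A) (hX : X ⊆ U) (hY : Y ⊆ U) :
    rk τ U (X \ Y) ≤ rk τ U X + rk τ U Y :=
  le_trans le_self_add (rk_diff_add_diff τ hX hY)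

theorem rk_arith {t : ℕ} {a b c d : ℕ∞} (h : a + b ≤ c + d) (hc : c ≤ t) (hd : d ≤ t)
    (hb : (t : ℕ∞) ≤ b) : a ≤ t := by
  have h1 : a + t ≤ (t : ℕ∞) + t :=
    (add_le_add le_rfl hb).trans (h.trans (add_le_add hc hd))
  have h2 : a ≠ ⊤ := fun h3 => by
    rw [h3, top_add, top_le_iff] at h1
    have h4 : ((t + t : ℕ) : ℕ∞) = ⊤ := by exact_mod_cast h1
    exact ENat.natCast_ne_top _ h4
  obtain ⟨n, rfl⟩ := ENat.ne_top_iff_exists.mp h2
  have h3 : n + t ≤ t + t := by exact_mod_cast h1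
  have h4 : n ≤ t := by omega
  exact_mod_cast h4

theorem rk_union_le_of {t : ℕ} (hX : rk τ U X ≤ t) (hY : rk τ U Y ≤ t)
    (h : (t : ℕ∞) ≤ rk τ U (X ∩ Y)) : rk τ U (X ∪ Y) ≤ t :=
  rk_arith (rk_union_add_inter τ U X Y) hX hY h

theorem rk_inter_le_of {t : ℕ} (hX : rk τ U X ≤ t) (hY : rk τ U Y ≤ t)
    (h : (t : ℕ∞) ≤ rk τ U (X ∪ Y)) : rk τ U (X ∩ Y) ≤ t := by
  have h1 := rk_union_add_inter τ U X Y
  rw [add_comm] at h1
  exact rk_arith h1 hX hY h

theorem rk_diff_le_of {t : ℕ} (hXU : X ⊆ U) (hYU : Y ⊆ U) (hX : rk τ U X ≤ t)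
    (hY : rk τ U Y ≤ t) (h : (t : ℕ∞) ≤ rk τ U (Y \ X)) : rk τ U (X \ Y) ≤ t :=
  rk_arith (rk_diff_add_diff τ hXU hYU) hX hY h

theorem rk_iUnion_le {ι : Type} [Nonempty ι] {X : ι → Set M} (hd : Directed (· ⊆ ·) X) {n : ℕ}
    (h : ∀ i, rk τ U (X i) ≤ n) : rk τ U (⋃ i, X i) ≤ n := by
  rw [rk_le_iff]
  intro P Q hP hQ
  have h1 : ∃ i, (P : Set M) ⊆ X i := by
    clear hQ
    induction P using Finset.induction_on with
    | empty => exact ⟨Classical.arbitrary ι, by simp⟩
    | insert x s hx ih =>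
      rw [Finset.coe_insert] at hP
      obtain ⟨i, hi⟩ := ih ((subset_insert _ _).trans hP)
      obtain ⟨j, hj⟩ := mem_iUnion.mp (hP (mem_insert _ _))
      obtain ⟨k, hik, hjk⟩ := hd i j
      refine ⟨k, ?_⟩
      rw [Finset.coe_insert]
      exact insert_subset (hjk hj) (hi.trans hik)
  obtain ⟨i, hi⟩ := h1
  exact rk_le_iff.mp (h i) P Q hi (hQ.trans (sdiff_subset_sdiff_right (subset_iUnion X i)))

theorem exists_refs (h : rk τ U X ≠ ⊤) : ∃ P Q : Finset M, Refs τ U X P Q := by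
  obtain ⟨n, hn⟩ := ENat.ne_top_iff_exists.mp h
  obtain ⟨P, Q, hP, hQ, h1⟩ := le_rk_iff.mp hn.le
  refine ⟨P, Q, hP, hQ, le_antisymm ?_ (rho_le_rk hP hQ)⟩
  rw [← hn]
  exact_mod_cast h1

theorem Refs.mono (h : Refs τ U X P Q) (hP : P ⊆ P') (hP' : (P' : Set M) ⊆ X) (hQ : Q ⊆ Q')
    (hQ' : (Q' : Set M) ⊆ U \ X) : Refs τ U X P' Q' := by
  refine ⟨hP', hQ', le_antisymm ?_ (rho_le_rk hP' hQ')⟩
  rw [h.eq]
  exact_mod_cast rho_mono hP hQ

theorem ncard_le_of_fin {B : Type} {k : ℕ} (R : M → B) (P : Finset M) (r : M → Fin k)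
    (h : ∀ x ∈ P, ∀ x' ∈ P, r x = r x' → R x = R x') : (R '' (P : Set M)).ncard ≤ k := by
  rcases P.eq_empty_or_nonempty with hP | ⟨x0, hx0⟩
  · rw [hP, Finset.coe_empty, image_empty, ncard_empty]
    exact Nat.zero_le _
  · have : Nonempty M := ⟨x0⟩
    have h0 : ∀ b ∈ R '' (P : Set M), ∃ x, x ∈ P ∧ R x = b := fun b hb => hb
    choose! f hf hf' using h0
    have h1 : (R '' (P : Set M)).ncard ≤ (univ : Set (Fin k)).ncard := by
      refine ncard_le_ncard_of_injOn (fun b => r (f b)) (fun _ _ => mem_univ _) ?_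
        (Set.toFinite _)
      intro b hb b' hb' hbb
      rw [← hf' b hb, ← hf' b' hb']
      exact h _ (hf b hb) _ (hf b' hb') hbb
    rw [ncard_univ, Nat.card_fin] at h1
    exact h1

theorem exists_fin_of_ncard {B : Type} {k : ℕ} (hk : 0 < k) (R : M → B) (X : Set M)
    (h : ∀ P : Finset M, (P : Set M) ⊆ X → (R '' (P : Set M)).ncard ≤ k) :
    ∃ r : M → Fin k, ∀ x ∈ X, ∀ x' ∈ X, r x = r x' → R x = R x' := by
  have h1 : (R '' X).encard ≤ k := by
    by_contra hc
    rw [not_le] at hc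
    have h2 : ((k + 1 : ℕ) : ℕ∞) ≤ (R '' X).encard := by
      push_cast
      exact Order.add_one_le_of_lt hc
    obtain ⟨t, ht, ht2⟩ := exists_subset_encard_eq h2
    have ht3 : t.Finite := finite_of_encard_eq_coe ht2
    obtain ⟨s, hs⟩ := ht3.exists_finset_coe
    rw [← hs] at ht ht2
    obtain ⟨s', hs', hs''⟩ := Finset.subset_set_image_iff.mp ht
    have h3 := h s' hs'
    have h4 : R '' (s' : Set M) = (s : Set B) := by
      rw [← hs'', Finset.coe_image]
    rw [h4, ncard_coe_finset] at h3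
    rw [encard_coe_eq_coe_finsetCard] at ht2
    have h5 : s.card = k + 1 := by exact_mod_cast ht2
    omega
  have hfin : (R '' X).Finite := finite_of_encard_le_coe h1
  have : Fintype (R '' X) := hfin.fintype
  have h2 : Fintype.card (R '' X) ≤ k := by
    have h3 : (R '' X).encard = ((R '' X).ncard : ℕ∞) := (hfin.cast_ncard_eq).symm
    rw [h3] at h1
    have h4 : (R '' X).ncard ≤ k := by exact_mod_cast h1
    rw [ncard_eq_toFinset_card', toFinset_card] at h4
    exact h4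
  let e : (R '' X) ≃ Fin (Fintype.card (R '' X)) := Fintype.equivFin _
  refine ⟨fun x => if hx : x ∈ X then Fin.castLE h2 (e ⟨R x, mem_image_of_mem R hx⟩) else ⟨0, hk⟩,
    ?_⟩
  intro x hx x' hx' hxx
  simp only [dif_pos hx, dif_pos hx'] at hxx
  have h3 := e.injective (Fin.castLE_injective h2 hxx)
  exact congrArg Subtype.val h3

theorem rk_le_of_cutK (hrv : ∀ x y, τ y x = rv (τ x y)) {k : ℕ} (h : CutK τ X k) :
    rk τ U X ≤ (2 * k : ℕ) := by
  rw [rk_le_iff]
  intro P Q hP hQ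
  obtain ⟨⟨r, hr⟩, r', hr'⟩ := h
  have h1 : rk1 τ P Q ≤ k := (rk1_le_ncard τ P Q).trans (ncard_le_of_fin _ P r (by
    intro x hx x' hx' hxx
    rw [row_eq_iff]
    intro q hq
    exact hr x (hP hx) x' (hP hx') hxx q (hQ hq).2))
  have h2 : rk1 τ Q P ≤ k := (rk1_le_ncard τ Q P).trans (ncard_le_of_fin _ Q r' (by
    intro g hg g' hg' hgg
    rw [row_eq_iff]
    intro x hx
    rw [hrv x g, hrv x g', hr' g (hQ hg).2 g' (hQ hg').2 hgg x (hP hx)]))
  unfold rho
  omega

theorem cutK_aux {r : ℕ} (X : Set M)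
    (h : ∀ P Q : Finset M, (P : Set M) ⊆ X → (Q : Set M) ⊆ Xᶜ → rk1 τ P Q ≤ r) :
    ∃ f : M → Fin (2 ^ r), ∀ x ∈ X, ∀ x' ∈ X, f x = f x' → ∀ g, g ∉ X → τ x g = τ x' g := by
  obtain ⟨f, hf⟩ := exists_fin_of_ncard (k := 2 ^ r) (by positivity)
    (fun (x : M) (g : {g // g ∉ X}) => τ x g.1) X (by
      intro P hP
      have h0 : ∀ x x' : M, (∀ g : {g // g ∉ X}, τ x g.1 = τ x' g.1) ∨
          ∃ g, g ∉ X ∧ τ x g ≠ τ x' g := by
        intro x x'
        by_cases h1 : ∀ g : {g // g ∉ X}, τ x g.1 = τ x' g.1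
        · exact Or.inl h1
        · push Not at h1
          obtain ⟨g, hg⟩ := h1
          exact Or.inr ⟨g.1, g.2, hg⟩
      let s : M × M → Finset M := fun a =>
        if h1 : ∃ g, g ∉ X ∧ τ a.1 g ≠ τ a.2 g then {Classical.choose h1} else ∅
      let Q : Finset M := (P ×ˢ P).biUnion s
      have hQ : (Q : Set M) ⊆ Xᶜ := by
        intro g hg
        rw [Finset.mem_coe, Finset.mem_biUnion] at hg
        obtain ⟨a, _, ha⟩ := hg
        simp only [s] at ha
        split_ifs at ha with h1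
        · rw [Finset.mem_singleton] at ha
          rw [ha]
          exact (Classical.choose_spec h1).1
        · exact absurd ha (Finset.notMem_empty _)
      have hsep : ∀ x ∈ P, ∀ x' ∈ P, row τ Q x = row τ Q x' →
          (fun (g : {g // g ∉ X}) => τ x g.1) = fun g => τ x' g.1 := by
        intro x hx x' hx' hxx
        rcases h0 x x' with h1 | h1
        · funext g
          exact h1 g
        · exfalso
          have h2 : Classical.choose h1 ∈ Q := by
            rw [Finset.mem_biUnion]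
            refine ⟨(x, x'), Finset.mem_product.mpr ⟨hx, hx'⟩, ?_⟩
            simp only [s]
            rw [dif_pos h1, Finset.mem_singleton]
          exact (Classical.choose_spec h1).2 (row_eq_iff.mp hxx _ h2)
      have h3 : ((fun (x : M) (g : {g // g ∉ X}) => τ x g.1) '' (P : Set M)).ncard ≤
          (row τ Q '' (P : Set M)).ncard := by
        have h4 : ∀ b ∈ (fun (x : M) (g : {g // g ∉ X}) => τ x g.1) '' (P : Set M),
            ∃ x, x ∈ P ∧ (fun (g : {g // g ∉ X}) => τ x g.1) = b := fun b hb => hb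
        rcases P.eq_empty_or_nonempty with hP0 | ⟨x0, _⟩
        · rw [hP0]
          simp
        have : Nonempty M := ⟨x0⟩
        choose! φ hφ hφ' using h4
        refine ncard_le_ncard_of_injOn (fun b => row τ Q (φ b)) (fun b hb => ⟨φ b, hφ b hb, rfl⟩)
          ?_ (P.finite_toSet.image _)
        intro b hb b' hb' hbb
        rw [← hφ' b hb, ← hφ' b' hb']
        exact hsep _ (hφ b hb) _ (hφ b' hb') hbb
      refine h3.trans ((ncard_row_le τ P Q).trans ?_)
      exact Nat.pow_le_pow_right (by norm_num) (h P Q hP hQ))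
  refine ⟨f, fun x hx x' hx' hxx g hg => ?_⟩
  exact congrFun (hf x hx x' hx' hxx) ⟨g, hg⟩

theorem cutK_of_rk_le (hrv : ∀ x y, τ y x = rv (τ x y)) {r : ℕ} (h : rk τ univ X ≤ r) :
    CutK τ X (2 ^ r) := by
  rw [rk_le_iff] at h
  constructor
  · refine cutK_aux X fun P Q hP hQ => ?_
    have h1 := h P Q hP (by rw [← compl_eq_univ_sdiff]; exact hQ)
    unfold rho at h1
    omega
  · obtain ⟨f, hf⟩ := cutK_aux (τ := τ) (r := r) Xᶜ fun P Q hP hQ => by
      rw [compl_compl] at hQ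
      have h1 := h Q P hQ (by rw [← compl_eq_univ_sdiff]; exact hP)
      unfold rho at h1
      omega
    refine ⟨f, fun g hg g' hg' hgg x hx => ?_⟩
    rw [hrv g x, hrv g' x, hf g hg g' hg' hgg x (fun h2 => h2 hx)]

/-- the rank of a set in a larger cut -/
theorem rk_sub_le {C : Set M} (hX : X ⊆ C) {n m : ℕ} (h1 : rk τ C X ≤ n)
    (h2 : rk τ U C ≤ m) : rk τ U X ≤ (n + m : ℕ) := by
  rw [rk_le_iff] at h1 h2 ⊢
  intro P Q hP hQ
  set Q1 := Q.filter (fun x => x ∈ C) with hQ1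
  set Q2 := Q.filter (fun x => ¬ x ∈ C) with hQ2
  have e1 : Q = Q1 ∪ Q2 := (Finset.filter_union_filter_not_eq (fun x => x ∈ C) Q).symm
  have e2 := rho_submod τ P P Q1 Q2
  have e3 := h1 P Q1 hP (by
    intro x hx
    rw [hQ1, Finset.mem_coe, Finset.mem_filter] at hx
    exact ⟨hx.2, (hQ hx.1).2⟩)
  have e4 := h2 P Q2 (hP.trans hX) (by
    intro x hx
    rw [hQ2, Finset.mem_coe, Finset.mem_filter] at hx
    exact ⟨(hQ hx.1).1, hx.2⟩)
  rw [Finset.inter_self, Finset.union_self, ← e1] at e2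
  omega

end Pool.Agent.CW

end

/-! ### formerly `Pool.Agent.CW.BSa` -/

section

/-!
# CW, module BSa
-/

set_option autoImplicit false
set_option linter.unusedSectionVars false
set_option linter.unusedVariables false

namespace Pool.Agent.CW

open Set Pool.Agent.Helper5 Pool.Agent.Helper5.DU Pool.Agent.Helper6.Str
  Pool.Agent.Helper79.VC Pool.Agent.Helper97.VC Pool.Agent.Helper97.MD Pool.Agent.Helper6.VC
  Pool.Agent.Helper97.LO

open scoped Classical

variable {M N A : Type} {τ : M → M → A} {U X Y C T : Set M} {P Q P' Q' P₀ Q₀ F : Finset M}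

theorem subset_bs : (P : Set M) ⊆ Bs τ U P Q :=
  fun x hx => ⟨x, hx, Relation.ReflTransGen.refl⟩

theorem bs_subset (hP : (P : Set M) ⊆ U) : Bs τ U P Q ⊆ U := by
  rintro z ⟨x, hx, h⟩
  rcases Relation.ReflTransGen.cases_tail h with h1 | ⟨y, _, h1⟩
  · rw [h1]
    exact hP hx
  · exact h1.1

theorem bs_empty : Bs τ U ∅ Q = ∅ := by
  ext z
  constructor
  · rintro ⟨x, hx, _⟩
    exact absurd hx (Finset.notMem_empty _)
  · intro h
    exact h.elim

theorem ok_empty (hQ : (Q : Set M) ⊆ U) : Ok τ U ∅ Q := by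
  refine ⟨by simp, hQ, fun z hz => ?_⟩
  rw [bs_empty] at hz
  exact hz.elim

theorem ok_of_subset (hX : X ⊆ U) (hP : (P : Set M) ⊆ X) (hQ : (Q : Set M) ⊆ U \ X)
    (h : rk τ U X ≤ rho τ P Q) : Ok τ U P Q ∧ Bs τ U P Q ⊆ X := by
  have hB : Bs τ U P Q ⊆ X := by
    rintro z ⟨x, hx, hxz⟩
    induction hxz with
    | refl => exact hP hx
    | tail hxy hyz ih =>
      rename_i y w
      by_contra hw
      have h1 : (rho τ (insert y P) (insert w Q) : ℕ∞) ≤ rk τ U X := by
        refine rho_le_rk ?_ ?_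
        · rw [Finset.coe_insert]
          exact Set.insert_subset ih hP
        · rw [Finset.coe_insert]
          exact Set.insert_subset ⟨hyz.1, hw⟩ hQ
      have h2 := h1.trans h
      have h3 := hyz.2
      unfold Arc at h3
      exact absurd (Nat.cast_le.1 h2) (not_le.2 h3)
  exact ⟨⟨hP.trans hX, fun z hz => (hQ hz).1, fun z hz hzQ => (hQ hzQ).2 (hB hz)⟩, hB⟩

theorem bsa_sub_diff (h : Ok τ U P Q) : (Q : Set M) ⊆ U \ Bs τ U P Q :=
  fun z hz => ⟨h.right hz, fun hz' => h.disj z hz' hz⟩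

theorem rk_bs (h : Ok τ U P Q) : rk τ U (Bs τ U P Q) = rho τ P Q := by
  refine le_antisymm ?_ (rho_le_rk subset_bs (bsa_sub_diff h))
  have ha : ∀ y ∈ Bs τ U P Q, ∀ z ∈ U, z ∉ Bs τ U P Q →
      rho τ (insert y P) (insert z Q) ≤ rho τ P Q := by
    rintro y ⟨x, hx, hxy⟩ z hz hz'
    by_contra hcon
    exact hz' ⟨x, hx, hxy.tail ⟨hz, not_le.1 hcon⟩⟩
  have hb : ∀ z ∈ U, z ∉ Bs τ U P Q → ∀ R : Finset M, (R : Set M) ⊆ Bs τ U P Q →
      rho τ (P ∪ R) (insert z Q) ≤ rho τ P Q := by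
    intro z hz hz' R
    induction R using Finset.induction_on with
    | empty =>
      intro _
      rw [Finset.union_empty]
      rcases P.eq_empty_or_nonempty with h0 | ⟨y, hy⟩
      · rw [h0, rho_empty_left]
        exact Nat.zero_le _
      · have h1 := ha y (subset_bs hy) z hz hz'
        rwa [Finset.insert_eq_of_mem hy] at h1
    | insert y R hy ih =>
      intro hR
      rw [Finset.coe_insert] at hR
      have h1 := ih (fun a ha => hR (Set.mem_insert_of_mem _ ha))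
      have h2 := ha y (hR (Set.mem_insert _ _)) z hz hz'
      have h3 := rho_submod τ (P ∪ R) (insert y P) (insert z Q) (insert z Q)
      rw [Finset.inter_self, Finset.union_self] at h3
      have h4 : rho τ P Q ≤ rho τ ((P ∪ R) ∩ insert y P) (insert z Q) :=
        rho_mono (Finset.subset_inter Finset.subset_union_left (Finset.subset_insert _ _))
          (Finset.subset_insert _ _)
      have h5 : rho τ (P ∪ insert y R) (insert z Q) ≤
          rho τ ((P ∪ R) ∪ insert y P) (insert z Q) := by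
        refine rho_mono ?_ (Finset.Subset.refl _)
        intro a ha
        simp only [Finset.mem_union, Finset.mem_insert] at ha ⊢
        tauto
      omega
  have hc : ∀ R : Finset M, (R : Set M) ⊆ Bs τ U P Q → ∀ W : Finset M,
      (W : Set M) ⊆ U \ Bs τ U P Q → rho τ (P ∪ R) (Q ∪ W) ≤ rho τ P Q := by
    intro R hR W
    induction W using Finset.induction_on with
    | empty =>
      intro _
      rw [Finset.union_empty]
      rcases Q.eq_empty_or_nonempty with h0 | ⟨z, hz⟩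
      · rw [h0, rho_comm, rho_empty_left]
        exact Nat.zero_le _
      · have h1 := hb z (h.right hz) (fun hz' => h.disj z hz' hz) R hR
        rwa [Finset.insert_eq_of_mem hz] at h1
    | insert z W hz ih =>
      intro hW
      rw [Finset.coe_insert] at hW
      have h1 := ih (fun a ha => hW (Set.mem_insert_of_mem _ ha))
      have hz1 := hW (Set.mem_insert _ _)
      have h2 := hb z hz1.1 hz1.2 R hR
      have h3 := rho_submod τ (P ∪ R) (P ∪ R) (Q ∪ W) (insert z Q)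
      rw [Finset.inter_self, Finset.union_self] at h3
      have h4 : rho τ P Q ≤ rho τ (P ∪ R) ((Q ∪ W) ∩ insert z Q) :=
        rho_mono Finset.subset_union_left
          (Finset.subset_inter Finset.subset_union_left (Finset.subset_insert _ _))
      have h5 : rho τ (P ∪ R) (Q ∪ insert z W) ≤
          rho τ (P ∪ R) ((Q ∪ W) ∪ insert z Q) := by
        refine rho_mono (Finset.Subset.refl _) ?_
        intro a ha
        simp only [Finset.mem_union, Finset.mem_insert] at ha ⊢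
        tauto
      omega
  refine rk_le_iff.2 fun R W hR hW => ?_
  exact (rho_mono Finset.subset_union_right Finset.subset_union_right).trans (hc R hR W hW)

theorem refs_bs (h : Ok τ U P Q) : Refs τ U (Bs τ U P Q) P Q :=
  ⟨subset_bs, (bsa_sub_diff h), rk_bs h⟩

theorem Refs.bs (h : Refs τ U X P Q) (hX : X ⊆ U) (hF : (F : Set M) ⊆ X) :
    Ok τ U (P ∪ F) Q ∧ Bs τ U (P ∪ F) Q ⊆ X ∧ rho τ (P ∪ F) Q = rho τ P Q ∧
      (F : Set M) ⊆ Bs τ U (P ∪ F) Q ∧ Refs τ U X (P ∪ F) Q := by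
  have hPF : ((P ∪ F : Finset M) : Set M) ⊆ X := by
    rw [Finset.coe_union]
    exact Set.union_subset h.left hF
  have h1 : Refs τ U X (P ∪ F) Q :=
    h.mono Finset.subset_union_left hPF (Finset.Subset.refl _) h.right
  have h2 := ok_of_subset hX hPF h.right h1.eq.le
  refine ⟨h2.1, h2.2, ?_, ?_, h1⟩
  · have h3 := h1.eq.symm.trans h.eq
    exact Nat.cast_injective h3
  · intro x hx
    exact subset_bs (Finset.mem_coe.2 (Finset.mem_union_right _ (Finset.mem_coe.1 hx)))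

/-- (EXT0) -/
theorem ext0 {t : ℕ} (hV : Ok τ U P Q) (hVt : rho τ P Q = t) (hTU : T ⊆ U)
    (hVT : Bs τ U P Q ⊆ T) (hT : rk τ U T ≤ t)
    (hm : ∀ Z, Bs τ U P Q ⊆ Z → Z ⊆ T → rk τ U Z ≠ ⊤ → (t : ℕ∞) ≤ rk τ U Z)
    (hR : Refs τ U T P₀ Q₀) (hF : (F : Set M) ⊆ T) :
    Ok τ U (P₀ ∪ (P ∪ F)) Q₀ ∧ rho τ (P₀ ∪ (P ∪ F)) Q₀ = t ∧
      Bs τ U P Q ⊆ Bs τ U (P₀ ∪ (P ∪ F)) Q₀ ∧ (F : Set M) ⊆ Bs τ U (P₀ ∪ (P ∪ F)) Q₀ ∧
      Bs τ U (P₀ ∪ (P ∪ F)) Q₀ ⊆ T := by
  have hPT : (P : Set M) ⊆ T := subset_bs.trans hVT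
  have hPF : ((P ∪ F : Finset M) : Set M) ⊆ T := by
    rw [Finset.coe_union]
    exact Set.union_subset hPT hF
  obtain ⟨h1, h2, h3, h4, h5⟩ := hR.bs hTU hPF
  have hTne : rk τ U T ≠ ⊤ := ne_top_of_le_ne_top (ENat.natCast_ne_top t) hT
  have hTt : rk τ U T = t := le_antisymm hT (hm T hVT (Set.Subset.refl _) hTne)
  have h6 : rho τ (P₀ ∪ (P ∪ F)) Q₀ = t := by
    have h7 := h5.eq.symm.trans hTt
    exact Nat.cast_injective h7
  have hsub : Bs τ U P Q ⊆ Bs τ U (P₀ ∪ (P ∪ F)) Q₀ := by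
    have hr1 : rk τ U (Bs τ U P Q) ≤ t := by rw [rk_bs hV, hVt]
    have hr2 : rk τ U (Bs τ U (P₀ ∪ (P ∪ F)) Q₀) ≤ t := by rw [rk_bs h1, h6]
    have hr3 : (t : ℕ∞) ≤ rk τ U (Bs τ U P Q ∪ Bs τ U (P₀ ∪ (P ∪ F)) Q₀) := by
      refine hm _ Set.subset_union_left (Set.union_subset hVT h2) ?_
      refine ne_top_of_le_ne_top ?_ ((rk_union_le τ U _ _).trans (add_le_add hr1 hr2))
      exact WithTop.add_ne_top.2 ⟨ENat.natCast_ne_top t, ENat.natCast_ne_top t⟩
    have hr4 := rk_inter_le_of hr1 hr2 hr3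
    have hU : Bs τ U P Q ∩ Bs τ U (P₀ ∪ (P ∪ F)) Q₀ ⊆ U :=
      Set.inter_subset_left.trans (bs_subset hV.left)
    have hPi : (P : Set M) ⊆ Bs τ U P Q ∩ Bs τ U (P₀ ∪ (P ∪ F)) Q₀ := by
      intro x hx
      refine ⟨subset_bs hx, h4 ?_⟩
      rw [Finset.coe_union]
      exact Or.inl hx
    have hQi : (Q : Set M) ⊆ U \ (Bs τ U P Q ∩ Bs τ U (P₀ ∪ (P ∪ F)) Q₀) :=
      fun z hz => ⟨hV.right hz, fun hz' => hV.disj z hz'.1 hz⟩
    rw [← hVt] at hr4
    exact (ok_of_subset hU hPi hQi hr4).2.trans Set.inter_subset_right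
  refine ⟨h1, h6, hsub, ?_, h2⟩
  intro x hx
  refine h4 ?_
  rw [Finset.coe_union]
  exact Or.inr hx

end Pool.Agent.CW

end
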