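import Pool.Agent.CW.GA
import Pool.Agent.VB.H

/-!
# Extension, levels, locality

Merged file (to shorten the import chain): contents, unchanged, of
`Pool.Agent.CW.ELa`, `Pool.Agent.CW.LVa`, `Pool.Agent.CW.DET`, `Pool.Agent.CW.SUB`, `Pool.Agent.CW.COV`, `Pool.Agent.CW.ELb`, `Pool.Agent.CW.LOCa`, `Pool.Agent.CW.LOC`.
-/

/-! ### formerly `Pool.Agent.CW.ELa` -/

section

/-!
# CW, module ELa
-/

set_option autoImplicit false
set_option linter.unusedSectionVars false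
set_option linter.unusedVariables false

namespace Pool.Agent.CW

open Set Pool.Agent.Helper5 Pool.Agent.Helper5.DU Pool.Agent.Helper6.Str
  Pool.Agent.Helper79.VC Pool.Agent.Helper97.VC Pool.Agent.Helper97.MD Pool.Agent.Helper6.VC
  Pool.Agent.Helper97.LO

open scoped Classical

variable {L : FirstOrder.Language.{0, 0}} {M N : Type} {S : L.Structure M} {T : L.Structure N}
  {U : Set M} {V : Set N}
  {p : Set (M × N)} {P Q P₁ Q₁ F G : Finset M} {P' Q' P₁' Q₁' F' G' : Finset N}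

theorem Mt.mono {q : Set (M × N)} (h : Mt p P P') (hpq : p ⊆ q) : Mt q P P' :=
  ⟨fun x hx => let ⟨y, hy, hxy⟩ := h.1 x hx; ⟨y, hy, hpq hxy⟩,
    fun y hy => let ⟨x, hx, hxy⟩ := h.2 y hy; ⟨x, hx, hpq hxy⟩⟩

theorem Mt.union (h : Mt p P P') (h' : Mt p Q Q') : Mt p (P ∪ Q) (P' ∪ Q') := by
  constructor
  · intro x hx
    rcases Finset.mem_union.mp hx with hx | hx
    · obtain ⟨y, hy, hxy⟩ := h.1 x hx
      exact ⟨y, Finset.mem_union_left _ hy, hxy⟩
    · obtain ⟨y, hy, hxy⟩ := h'.1 x hx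
      exact ⟨y, Finset.mem_union_right _ hy, hxy⟩
  · intro y hy
    rcases Finset.mem_union.mp hy with hy | hy
    · obtain ⟨x, hx, hxy⟩ := h.2 y hy
      exact ⟨x, Finset.mem_union_left _ hx, hxy⟩
    · obtain ⟨x, hx, hxy⟩ := h'.2 y hy
      exact ⟨x, Finset.mem_union_right _ hx, hxy⟩

theorem Mt.ins (h : Mt p P P') {x : M} {x' : N} (hx : (x, x') ∈ p) :
    Mt p (insert x P) (insert x' P') := by
  constructor
  · intro z hz
    rcases Finset.mem_insert.mp hz with rfl | hz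
    · exact ⟨x', Finset.mem_insert_self _ _, hx⟩
    · obtain ⟨y, hy, hzy⟩ := h.1 z hz
      exact ⟨y, Finset.mem_insert_of_mem hy, hzy⟩
  · intro z hz
    rcases Finset.mem_insert.mp hz with rfl | hz
    · exact ⟨x, Finset.mem_insert_self _ _, hx⟩
    · obtain ⟨y, hy, hzy⟩ := h.2 z hz
      exact ⟨y, Finset.mem_insert_of_mem hy, hzy⟩

theorem mt_dg (P : Finset M) {p : Set (M × M)} (h : dg (P : Set M) ⊆ p) : Mt p P P :=
  ⟨fun x hx => ⟨x, hx, h ⟨x, hx, rfl⟩⟩, fun x hx => ⟨x, hx, h ⟨x, hx, rfl⟩⟩⟩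

theorem mt_swap {p : Set (M × N)} (h : Mt p P P') : Mt (Prod.swap ⁻¹' p) P' P :=
  ⟨h.2, h.1⟩

theorem bt_of_atEq (h : AtEq S T p) {a b : M × N} (ha : a ∈ p) (hb : b ∈ p) :
    bt S a.1 b.1 = bt T a.2 b.2 := by
  have key : ∀ (a b : M × N), a ∈ p → b ∈ p → ∀ R : L.Relations 2,
      S.RelMap R ![a.1, b.1] ↔ T.RelMap R ![a.2, b.2] := by
    intro a b ha hb R
    have h1 := h.2 2 R ![a, b] (fun i => by
      fin_cases i
      · exact ha
      · exact hb)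
    have h2 : (fun i => ((![a, b] : Fin 2 → M × N) i).1) = ![a.1, b.1] := by
      funext i
      fin_cases i <;> rfl
    have h3 : (fun i => ((![a, b] : Fin 2 → M × N) i).2) = ![a.2, b.2] := by
      funext i
      fin_cases i <;> rfl
    rw [h2, h3] at h1
    exact h1
  unfold bt
  refine Prod.ext ?_ ?_
  · ext R
    exact key a b ha hb R
  · ext R
    exact key b a hb ha R

theorem rho_of_atEq (h : AtEq S T p) (hP : Mt p P P') (hQ : Mt p Q Q') :
    rho (bt S) P Q = rho (bt T) P' Q' :=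
  rho_congr h.1 (fun a ha b hb => bt_of_atEq h ha hb) hP hQ

theorem forth_fin {γ : Ordinal.{0}}
    (h : BFR S T U V (γ + Ordinal.omega0) p) (F : Finset M) (hF : (F : Set M) ⊆ U) :
    ∃ (q : Set (M × N)) (F' : Finset N), q.Finite ∧ (F' : Set N) ⊆ V ∧ Mt q F F' ∧
      (∀ a ∈ q, a.1 ∈ F ∧ a.2 ∈ F') ∧ BFR S T U V γ (p ∪ q) := by
  have h1 : BFR S T U V (γ + (F.card : Ordinal.{0})) p :=
    h.mono (add_le_add_right (Ordinal.natCast_lt_omega0 _).le γ)
  obtain ⟨y, hy, h2⟩ := BFR.forth_many F.card h1 (fun i => ((F.equivFin.symm i : F) : M))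
    (fun i => hF (F.equivFin.symm i).2)
  refine ⟨range fun i => (((F.equivFin.symm i : F) : M), y i), Finset.univ.image y,
    finite_range _, ?_, ⟨?_, ?_⟩, ?_, h2⟩
  · intro z hz
    rw [Finset.mem_coe, Finset.mem_image] at hz
    obtain ⟨i, _, rfl⟩ := hz
    exact hy i
  · intro x hx
    refine ⟨y (F.equivFin ⟨x, hx⟩), Finset.mem_image_of_mem _ (Finset.mem_univ _),
      F.equivFin ⟨x, hx⟩, ?_⟩
    simp
  · intro z hz
    rw [Finset.mem_image] at hz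
    obtain ⟨i, _, rfl⟩ := hz
    exact ⟨_, (F.equivFin.symm i).2, i, rfl⟩
  · rintro a ⟨i, rfl⟩
    exact ⟨(F.equivFin.symm i).2, Finset.mem_image_of_mem _ (Finset.mem_univ _)⟩

theorem back_fin {γ : Ordinal.{0}}
    (h : BFR S T U V (γ + Ordinal.omega0) p) (F' : Finset N) (hF : (F' : Set N) ⊆ V) :
    ∃ (q : Set (M × N)) (F : Finset M), q.Finite ∧ (F : Set M) ⊆ U ∧ Mt q F F' ∧
      (∀ a ∈ q, a.1 ∈ F ∧ a.2 ∈ F') ∧ BFR S T U V γ (p ∪ q) := by
  have h1 : BFR S T U V (γ + (F'.card : Ordinal.{0})) p :=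
    h.mono (add_le_add_right (Ordinal.natCast_lt_omega0 _).le γ)
  obtain ⟨y, hy, h2⟩ := BFR.back_many F'.card h1 (fun i => ((F'.equivFin.symm i : F') : N))
    (fun i => hF (F'.equivFin.symm i).2)
  refine ⟨range fun i => (y i, ((F'.equivFin.symm i : F') : N)), Finset.univ.image y,
    finite_range _, ?_, ⟨?_, ?_⟩, ?_, h2⟩
  · intro z hz
    rw [Finset.mem_coe, Finset.mem_image] at hz
    obtain ⟨i, _, rfl⟩ := hz
    exact hy i
  · intro z hz
    rw [Finset.mem_image] at hz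
    obtain ⟨i, _, rfl⟩ := hz
    exact ⟨_, (F'.equivFin.symm i).2, i, rfl⟩
  · intro x hx
    refine ⟨y (F'.equivFin ⟨x, hx⟩), Finset.mem_image_of_mem _ (Finset.mem_univ _),
      F'.equivFin ⟨x, hx⟩, ?_⟩
    simp
  · rintro a ⟨i, rfl⟩
    exact ⟨Finset.mem_image_of_mem _ (Finset.mem_univ _), (F'.equivFin.symm i).2⟩

/-- paths of arcs are transferred, one direction -/
theorem bs_fwd (hP : Mt p P P') (hQ : Mt p Q Q') {x0 : M} (hx0 : x0 ∈ P) {x : M}
    (hx : Relation.ReflTransGen (fun y z => z ∈ U ∧ Arc (bt S) P Q y z) x0 x) :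
    (x ∈ P ∨ x ∈ U) ∧ ∃ n : ℕ, ∀ x' ∈ V, BFR S T U V (n : Ordinal.{0}) (insert (x, x') p) →
      x' ∈ Bs (bt T) V P' Q' := by
  induction hx with
  | refl =>
    refine ⟨Or.inl hx0, 0, fun x' _ h => ?_⟩
    obtain ⟨y', hy', hxy⟩ := hP.1 x0 hx0
    have h1 : x' = y' := (h.atEq.1 (x0, x') (mem_insert _ _) (x0, y')
      (mem_insert_of_mem _ hxy)).mp rfl
    exact ⟨x', by rw [h1]; exact hy', Relation.ReflTransGen.refl⟩
  | tail hab hbc ih =>
    rename_i b c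
    obtain ⟨hbU, n, hn⟩ := ih
    refine ⟨Or.inr hbc.1, n + 1, fun c' hc' h => ?_⟩
    have hst : ∀ b' : N, ∀ q : Set (M × N), insert (c, c') p ⊆ q → (b, b') ∈ q → AtEq S T q →
        b' ∈ Bs (bt T) V P' Q' → c' ∈ Bs (bt T) V P' Q' := by
      intro b' q hpq hbq hq hb'
      obtain ⟨w, hw, hwb⟩ := hb'
      refine ⟨w, hw, hwb.tail ⟨hc', ?_⟩⟩
      have hPq : Mt q P P' := hP.mono ((subset_insert _ _).trans hpq)
      have hQq : Mt q Q Q' := hQ.mono ((subset_insert _ _).trans hpq)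
      have e1 := rho_of_atEq hq hPq hQq
      have e2 := rho_of_atEq hq (hPq.ins hbq) (hQq.ins (hpq (mem_insert _ _)))
      have e3 := hbc.2
      unfold Arc at e3 ⊢
      rw [← e1, ← e2]
      exact e3
    rcases hbU with hbP | hbU
    · obtain ⟨b', hb', hbb⟩ := hP.1 b hbP
      exact hst b' _ Subset.rfl (mem_insert_of_mem _ hbb) h.atEq
        ⟨b', hb', Relation.ReflTransGen.refl⟩
    · have hlt : (n : Ordinal.{0}) < ((n + 1 : ℕ) : Ordinal.{0}) := by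
        exact_mod_cast Nat.lt_succ_self n
      obtain ⟨b', hb', h1⟩ := h.forth hlt hbU
      refine hst b' _ (subset_insert _ _) (mem_insert _ _) h1.atEq (hn b' hb' (BFR.anti ?_ h1))
      exact insert_subset_insert (subset_insert _ _)

theorem mem_bs_fwd {x : M} {x' : N} (hx' : x' ∈ V)
    (h : BFR S T U V Ordinal.omega0 (insert (x, x') p)) (hP : Mt p P P')
    (hQ : Mt p Q Q') (hx : x ∈ Bs (bt S) U P Q) : x' ∈ Bs (bt T) V P' Q' := by
  obtain ⟨x0, hx0, hxx⟩ := hx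
  obtain ⟨-, n, hn⟩ := bs_fwd (T := T) (V := V) hP hQ hx0 hxx
  exact hn x' hx' (h.mono (Ordinal.natCast_lt_omega0 n).le)

theorem mem_bs_iff {x : M} {x' : N} (hx : x ∈ U) (hx' : x' ∈ V)
    (h : BFR S T U V Ordinal.omega0 (insert (x, x') p)) (hP : Mt p P P')
    (hQ : Mt p Q Q') : x ∈ Bs (bt S) U P Q ↔ x' ∈ Bs (bt T) V P' Q' := by
  constructor
  · exact mem_bs_fwd hx' h hP hQ
  · refine mem_bs_fwd (p := Prod.swap ⁻¹' p) hx (h.symm ?_) (mt_swap hP) (mt_swap hQ)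
    rintro w (rfl | hw)
    · exact mem_insert _ _
    · exact mem_insert_of_mem _ hw

theorem ok_fwd (h : BFR S T U V Ordinal.omega0 p) (hP : Mt p P P')
    (hQ : Mt p Q Q') (hQU : (Q : Set M) ⊆ U) (hPV : (P' : Set N) ⊆ V)
    (hQV : (Q' : Set N) ⊆ V) (ho : Ok (bt S) U P Q) : Ok (bt T) V P' Q' := by
  refine ⟨hPV, hQV, fun z' hz' hzQ => ?_⟩
  obtain ⟨z, hz, hzz⟩ := hQ.2 z' hzQ
  have h1 : BFR S T U V Ordinal.omega0 (insert (z, z') p) := by
    rw [insert_eq_of_mem hzz]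
    exact h
  exact ho.disj z ((mem_bs_iff (hQU hz) (hQV hzQ) h1 hP hQ).mpr hz') hz

theorem ok_iff (h : BFR S T U V (Ordinal.omega0 + 1) p) (hP : Mt p P P')
    (hQ : Mt p Q Q') (hPU : (P : Set M) ⊆ U) (hQU : (Q : Set M) ⊆ U) (hPV : (P' : Set N) ⊆ V)
    (hQV : (Q' : Set N) ⊆ V) : Ok (bt S) U P Q ↔ Ok (bt T) V P' Q' := by
  have h1 : BFR S T U V Ordinal.omega0 p := h.mono le_self_add
  constructor
  · exact ok_fwd h1 hP hQ hQU hPV hQV
  · exact ok_fwd h1.swap (mt_swap hP) (mt_swap hQ) hQV hPU hQU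

theorem bs_subset_fwd (h : BFR S T U V (Ordinal.omega0 + 1) p) (hP : Mt p P P')
    (hQ : Mt p Q Q') (hP₁ : Mt p P₁ P₁') (hQ₁ : Mt p Q₁ Q₁') (hPV : (P' : Set N) ⊆ V)
    (hs : Bs (bt S) U P Q ⊆ Bs (bt S) U P₁ Q₁) : Bs (bt T) V P' Q' ⊆ Bs (bt T) V P₁' Q₁' := by
  intro z' hz'
  have hzV : z' ∈ V := bs_subset hPV hz'
  obtain ⟨z, hz, h1⟩ := h.back (Order.lt_add_one_iff.mpr le_rfl) hzV
  exact (mem_bs_iff hz hzV h1 hP₁ hQ₁).mp (hs ((mem_bs_iff hz hzV h1 hP hQ).mpr hz'))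

theorem bs_subset_iff (h : BFR S T U V (Ordinal.omega0 + 1) p) (hP : Mt p P P')
    (hQ : Mt p Q Q') (hP₁ : Mt p P₁ P₁') (hQ₁ : Mt p Q₁ Q₁') (hPU : (P : Set M) ⊆ U)
    (hPV : (P' : Set N) ⊆ V) :
    Bs (bt S) U P Q ⊆ Bs (bt S) U P₁ Q₁ ↔ Bs (bt T) V P' Q' ⊆ Bs (bt T) V P₁' Q₁' :=
  ⟨bs_subset_fwd h hP hQ hP₁ hQ₁ hPV,
    bs_subset_fwd h.swap (mt_swap hP) (mt_swap hQ) (mt_swap hP₁) (mt_swap hQ₁) hPU⟩

theorem dfb_bs (S : L.Structure M) (P Q : Finset M) : Dfb S (Bs (bt S) univ P Q) := by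
  refine ⟨P ∪ Q, Ordinal.omega0, omega_lt_om1, fun c c' h => ?_⟩
  refine mem_bs_iff (mem_univ c) (mem_univ c') h (mt_dg P ?_) (mt_dg Q ?_)
  · refine image_mono ?_
    rw [Finset.coe_union]
    exact subset_union_left
  · refine image_mono ?_
    rw [Finset.coe_union]
    exact subset_union_right

/-- transfer of column representatives -/
theorem rc_of {X : Set M} {X' : Set N} {κ : Ordinal.{0}}
    (H : ∀ x ∈ U, ∀ x' ∈ V, BFR S T U V κ (insert (x, x') p) → (x ∈ X ↔ x' ∈ X'))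
    (hX : X ⊆ U) (hX' : X' ⊆ V) (hG' : (G' : Set N) ⊆ V)
    (h : BFR S T U V (κ + 2) p) (hG : Mt p G G') (hr : RC S U X G) : RC T V X' G' := by
  have hk1 : κ + 1 < κ + 2 := by
    have h1 : (1 : Ordinal.{0}) < 2 := one_lt_two
    exact add_lt_add_right h1 κ
  have hk0 : κ < κ + 1 := Order.lt_add_one_iff.mpr le_rfl
  constructor
  · intro g' hg'
    obtain ⟨g, hg, hgg⟩ := hG.2 g' hg'
    have h1 : BFR S T U V κ (insert (g, g') p) := by
      rw [insert_eq_of_mem hgg]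
      exact h.mono le_self_add
    have h2 := hr.1 hg
    exact ⟨hG' hg', fun h3 => h2.2 ((H g h2.1 g' (hG' hg') h1).mpr h3)⟩
  · intro y' hy' hyX'
    obtain ⟨y, hy, h1⟩ := h.back hk1 hy'
    have hyX : y ∉ X := fun h3 => hyX' ((H y hy y' hy' (h1.mono hk0.le)).mp h3)
    obtain ⟨g, hg, hgy⟩ := hr.2 y hy hyX
    obtain ⟨g', hg', hgg⟩ := hG.1 g hg
    refine ⟨g', hg', fun x' hx' => ?_⟩
    obtain ⟨x, hx, h2⟩ := h1.back hk0 (hX' hx')
    have hxX : x ∈ X := (H x hx x' (hX' hx') (BFR.anti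
      (insert_subset_insert (subset_insert _ _)) h2)).mpr hx'
    have e1 := bt_of_atEq h2.atEq (a := (x, x')) (b := (y, y')) (mem_insert _ _)
      (mem_insert_of_mem _ (mem_insert _ _))
    have e2 := bt_of_atEq h2.atEq (a := (x, x')) (b := (g, g')) (mem_insert _ _)
      (mem_insert_of_mem _ (mem_insert_of_mem _ hgg))
    have e3 := hgy x hxX
    calc bt T x' y' = bt S x y := e1.symm
      _ = bt S x g := e3
      _ = bt T x' g' := e2

theorem rc_aux {A : Type} {τ : M → M → A} {r : ℕ} (X Z : Set M)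
    (h : ∀ P Q : Finset M, (P : Set M) ⊆ X → (Q : Set M) ⊆ Z → rk1 τ P Q ≤ r) :
    ∃ f : M → Fin (2 ^ r), ∀ x ∈ X, ∀ x' ∈ X, f x = f x' → ∀ g ∈ Z, τ x g = τ x' g := by
  obtain ⟨f, hf⟩ := exists_fin_of_ncard (k := 2 ^ r) (by positivity)
    (fun (x : M) (g : {g // g ∈ Z}) => τ x g.1) X (by
      intro P hP
      have h0 : ∀ x x' : M, (∀ g : {g // g ∈ Z}, τ x g.1 = τ x' g.1) ∨
          ∃ g, g ∈ Z ∧ τ x g ≠ τ x' g := by
        intro x x'
        by_cases h1 : ∀ g : {g // g ∈ Z}, τ x g.1 = τ x' g.1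
        · exact Or.inl h1
        · push Not at h1
          obtain ⟨g, hg⟩ := h1
          exact Or.inr ⟨g.1, g.2, hg⟩
      let s : M × M → Finset M := fun a =>
        if h1 : ∃ g, g ∈ Z ∧ τ a.1 g ≠ τ a.2 g then {Classical.choose h1} else ∅
      let Q : Finset M := (P ×ˢ P).biUnion s
      have hQ : (Q : Set M) ⊆ Z := by
        intro g hg
        rw [Finset.mem_coe, Finset.mem_biUnion] at hg
        obtain ⟨a, _, ha⟩ := hg
        simp only [s] at ha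
        split_ifs at ha with h1
        · rw [Finset.mem_singleton] at ha
          rw [ha]
          exact (Classical.choose_spec h1).1
        · exact absurd ha (Finset.notMem_empty _)
      have hsep : ∀ x ∈ P, ∀ x' ∈ P, row τ Q x = row τ Q x' →
          (fun (g : {g // g ∈ Z}) => τ x g.1) = fun g => τ x' g.1 := by
        intro x hx x' hx' hxx
        rcases h0 x x' with h1 | h1
        · funext g
          exact h1 g
        · exfalso
          have h2 : Classical.choose h1 ∈ Q := by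
            rw [Finset.mem_biUnion]
            refine ⟨(x, x'), Finset.mem_product.mpr ⟨hx, hx'⟩, ?_⟩
            simp only [s]
            rw [dif_pos h1, Finset.mem_singleton]
          exact (Classical.choose_spec h1).2 (row_eq_iff.mp hxx _ h2)
      have h3 : ((fun (x : M) (g : {g // g ∈ Z}) => τ x g.1) '' (P : Set M)).ncard ≤
          (row τ Q '' (P : Set M)).ncard := by
        have h4 : ∀ b ∈ (fun (x : M) (g : {g // g ∈ Z}) => τ x g.1) '' (P : Set M),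
            ∃ x, x ∈ P ∧ (fun (g : {g // g ∈ Z}) => τ x g.1) = b := fun b hb => hb
        rcases P.eq_empty_or_nonempty with hP0 | ⟨x0, _⟩
        · rw [hP0]
          simp
        have : Nonempty M := ⟨x0⟩
        choose! φ hφ hφ' using h4
        refine ncard_le_ncard_of_injOn (fun b => row τ Q (φ b)) (fun b hb => ⟨φ b, hφ b hb, rfl⟩)
          ?_ (P.finite_toSet.image _)
        intro b hb b' hb' hbb
        rw [← hφ' b hb, ← hφ' b' hb']
        exact hsep _ (hφ b hb) _ (hφ b' hb') hbb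
      refine h3.trans ((ncard_row_le τ P Q).trans ?_)
      exact Nat.pow_le_pow_right (by norm_num) (h P Q hP hQ))
  refine ⟨f, fun x hx x' hx' hxx g hg => ?_⟩
  exact congrFun (hf x hx x' hx' hxx) ⟨g, hg⟩

theorem exists_rc {X : Set M} (h : rk (bt S) U X ≠ ⊤) : ∃ G, RC S U X G := by
  obtain ⟨n, hn⟩ := ENat.ne_top_iff_exists.mp h
  have h1 := rk_le_iff.mp hn.ge
  obtain ⟨f, hf⟩ := rc_aux (τ := bt S) (r := n) (U \ X) X (fun P Q hP hQ => by
    have h2 := h1 Q P hQ hP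
    unfold rho at h2
    omega)
  let s : Fin (2 ^ n) → Finset M := fun i =>
    if h2 : ∃ y, y ∈ U \ X ∧ f y = i then {Classical.choose h2} else ∅
  refine ⟨Finset.univ.biUnion s, ?_, ?_⟩
  · intro g hg
    rw [Finset.mem_coe, Finset.mem_biUnion] at hg
    obtain ⟨i, _, hi⟩ := hg
    simp only [s] at hi
    split_ifs at hi with h2
    · rw [Finset.mem_singleton] at hi
      rw [hi]
      exact (Classical.choose_spec h2).1
    · exact absurd hi (Finset.notMem_empty _)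
  · intro y hyU hyX
    have h2 : ∃ z, z ∈ U \ X ∧ f z = f y := ⟨y, ⟨hyU, hyX⟩, rfl⟩
    refine ⟨Classical.choose h2, ?_, fun x hx => ?_⟩
    · rw [Finset.mem_biUnion]
      refine ⟨f y, Finset.mem_univ _, ?_⟩
      simp only [s]
      rw [dif_pos h2, Finset.mem_singleton]
    · have h3 := hf _ (Classical.choose_spec h2).1 y ⟨hyU, hyX⟩ (Classical.choose_spec h2).2 x hx
      have h4 : ∀ u v : M, bt S u v = (bt S v u).swap := fun u v => rfl
      rw [h4 x y, h4 x (Classical.choose h2), h3]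

end Pool.Agent.CW

end

/-! ### formerly `Pool.Agent.CW.LVa` -/

section

/-!
# CW, module LVa
-/

set_option autoImplicit false
set_option linter.unusedSectionVars false
set_option linter.unusedVariables false

namespace Pool.Agent.CW

open Set Pool.Agent.Helper5 Pool.Agent.Helper5.DU Pool.Agent.Helper6.Str
  Pool.Agent.Helper79.VC Pool.Agent.Helper97.VC Pool.Agent.Helper97.MD Pool.Agent.Helper6.VC
  Pool.Agent.Helper97.LO

open scoped Classical

variable {L : FirstOrder.Language.{0, 0}} [∀ n, IsEmpty (L.Functions n)] {M N : Type}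
  {S : L.Structure M} {T : L.Structure N} {U X Y C D : Set M} {G : Finset M}
  {ζ γ : Ordinal.{0}}

private theorem lva_cross (hL : Ar2 L) (hG : RC S U X G) {p : Set (M × M)}
    (hp : ∀ a ∈ p, a.1 ∈ X ∧ a.2 ∈ X) (h : AtEq S S (p ∪ dg (G : Set M))) {a : M × M}
    (ha : a ∈ p) {y : M} (hy : y ∈ U \ X) : AtEq S S {(a.1, a.2), (y, y)} := by
  obtain ⟨g, hg, hgy⟩ := hG.2 y hy.1 hy.2
  have hlb := lbl_bt hL S
  have h1 : bt S a.1 g = bt S a.2 g := by
    refine hlb.inv a.1 g a.2 g (AtEq.anti ?_ h)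
    rintro d (rfl | rfl)
    · exact Or.inl ha
    · exact Or.inr ⟨g, hg, rfl⟩
  refine hlb.det a.1 y a.2 y ?_ ?_ ?_ ?_ ?_
  · rintro rfl
    exact hy.2 (hp a ha).1
  · rintro rfl
    exact hy.2 (hp a ha).2
  · refine AtEq.anti ?_ h
    rintro d rfl
    exact Or.inl ha
  · refine TR.atEq_refl S ?_
    rintro d rfl
    rfl
  · rw [hgy a.1 (hp a ha).1, hgy a.2 (hp a ha).2, h1]

/-- **Extension by the identity**, atomic case. -/
theorem atEq_ext (hL : Ar2 L) (hG : RC S U X G) {p : Set (M × M)}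
    (hp : ∀ a ∈ p, a.1 ∈ X ∧ a.2 ∈ X) (h : AtEq S S (p ∪ dg (G : Set M))) {H : Set M}
    (hH : H ⊆ U \ X) : AtEq S S (p ∪ dg H) := by
  refine atEq_of_pairs hL fun a ha b hb => ?_
  rcases ha with ha | ⟨y, hy, rfl⟩ <;> rcases hb with hb | ⟨z, hz, rfl⟩
  · refine AtEq.anti ?_ h
    rintro d (rfl | rfl)
    · exact Or.inl ha
    · exact Or.inl hb
  · exact lva_cross hL hG hp h ha (hH hz)
  · refine AtEq.anti ?_ (lva_cross hL hG hp h hb (hH hy))
    rintro d (rfl | rfl)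
    · exact Or.inr rfl
    · exact Or.inl rfl
  · refine TR.atEq_refl S ?_
    rintro d (rfl | rfl) <;> rfl

private theorem lva_ext (hL : Ar2 L) (hG : RC S U X G) (hXY : X ⊆ Y) (hYU : Y ⊆ U)
    (γ : Ordinal.{0}) : ∀ {p : Set (M × M)}, (∀ a ∈ p, a.1 ∈ X ∧ a.2 ∈ X) →
    BFR S S X X γ (p ∪ dg (G : Set M)) → BFR S S Y Y γ (p ∪ dg (U \ X)) := by
  induction γ using WellFoundedLT.induction with
  | _ γ ih =>
    intro p hp h
    rw [BFR.def]
    refine ⟨atEq_ext hL hG hp h.atEq subset_rfl, fun β hβ => ⟨fun x hxY => ?_, fun y hyY => ?_⟩⟩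
    · by_cases hx : x ∈ X
      · obtain ⟨y, hyX, hy⟩ := h.forth hβ hx
        refine ⟨y, hXY hyX, ?_⟩
        rw [← insert_union] at hy ⊢
        refine ih β hβ ?_ hy
        rintro a (rfl | ha)
        · exact ⟨hx, hyX⟩
        · exact hp a ha
      · refine ⟨x, hxY, ?_⟩
        rw [insert_eq_of_mem (show (x, x) ∈ p ∪ dg (U \ X) from Or.inr ⟨x, ⟨hYU hxY, hx⟩, rfl⟩)]
        exact ih β hβ hp (h.mono hβ.le)
    · by_cases hy : y ∈ X
      · obtain ⟨x, hxX, hx⟩ := h.back hβ hy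
        refine ⟨x, hXY hxX, ?_⟩
        rw [← insert_union] at hx ⊢
        refine ih β hβ ?_ hx
        rintro a (rfl | ha)
        · exact ⟨hxX, hy⟩
        · exact hp a ha
      · refine ⟨y, hyY, ?_⟩
        rw [insert_eq_of_mem (show (y, y) ∈ p ∪ dg (U \ X) from Or.inr ⟨y, ⟨hYU hyY, hy⟩, rfl⟩)]
        exact ih β hβ hp (h.mono hβ.le)

/-- **Extension by the identity.** -/
theorem bfr_ext (hL : Ar2 L) (hG : RC S U X G) (hXY : X ⊆ Y) (hYU : Y ⊆ U)
    {p : Set (M × M)} (hp : ∀ a ∈ p, a.1 ∈ X ∧ a.2 ∈ X)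
    (h : BFR S S X X γ (p ∪ dg (G : Set M))) {H : Set M} (hH : H ⊆ U \ X) :
    BFR S S Y Y γ (p ∪ dg H) :=
  BFR.anti (union_subset_union_right p (image_mono hH)) (lva_ext hL hG hXY hYU γ hp h)

theorem lv_iff_rc (hL : Ar2 L) (hXU : X ⊆ U) (hG : RC S U X G) : Lv S U X ζ ↔
    ∀ p : Set (M × M), p.Finite → (∀ a ∈ p, a.1 ∈ X ∧ a.2 ∈ X) →
      BFR S S X X ζ (p ∪ dg (G : Set M)) → BFI S S X X (p ∪ dg (G : Set M)) := by
  constructor
  · rintro ⟨G', hG', h⟩ p hpf hp h1 γ hγ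
    exact bfr_ext hL hG' subset_rfl hXU hp
      (h p hpf hp (bfr_ext hL hG subset_rfl hXU hp h1 hG'.1) γ hγ) hG.1
  · exact fun h => ⟨G, hG, h⟩

theorem Lv.mono (h : Lv S U X ζ) (hζ : ζ ≤ γ) : Lv S U X γ := by
  obtain ⟨G, hG, h⟩ := h
  exact ⟨G, hG, fun p hpf hp h1 => h p hpf hp (h1.mono hζ)⟩

theorem lv_empty (S : L.Structure M) (U : Set M) (ζ : Ordinal.{0}) : Lv S U ∅ ζ := by
  have hG : ∃ G : Finset M, RC S U ∅ G := by
    rcases U.eq_empty_or_nonempty with rfl | ⟨y₀, hy₀⟩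
    · exact ⟨∅, by simp, fun y hy => hy.elim⟩
    · refine ⟨{y₀}, ?_, fun y _ _ => ⟨y₀, by simp, fun x hx => hx.elim⟩⟩
      intro x hx
      rw [Finset.coe_singleton, mem_singleton_iff] at hx
      rw [hx]
      exact ⟨hy₀, fun h => h⟩
  obtain ⟨G, hG⟩ := hG
  refine ⟨G, hG, fun p _ _ h γ _ => ?_⟩
  rw [BFR.def]
  exact ⟨h.atEq, fun β _ => ⟨fun x hx => hx.elim, fun y hy => hy.elim⟩⟩

end Pool.Agent.CW

end

/-! ### formerly `Pool.Agent.CW.DET` -/

section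

/-!
# CW, module DET
-/

set_option autoImplicit false
set_option linter.unusedSectionVars false
set_option linter.unusedVariables false

namespace Pool.Agent.CW

open Set Pool.Agent.Helper5 Pool.Agent.Helper5.DU Pool.Agent.Helper6.Str
  Pool.Agent.Helper79.VC Pool.Agent.Helper97.VC Pool.Agent.Helper97.MD Pool.Agent.Helper6.VC
  Pool.Agent.Helper97.LO

open scoped Classical

variable {L : FirstOrder.Language.{0, 0}} [∀ n, IsEmpty (L.Functions n)] {M N : Type}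
  {S : L.Structure M} {T : L.Structure N} {U X : Set M} {V X' : Set N} {G : Finset M}
  {G' : Finset N} {ζ : Ordinal.{0}} {p q : Set (M × N)}

private lemma DET_enum {K₁ K₂ : Type} {p : Set (K₁ × K₂)} (hp : p.Finite) :
    ∃ (n : ℕ) (a : Fin n → K₁) (b : Fin n → K₂), (∀ z ∈ p, ∃ i, a i = z.1 ∧ b i = z.2) ∧
      ∀ i, (a i, b i) ∈ p := by
  let e := hp.toFinset.equivFin
  refine ⟨hp.toFinset.card, fun i => (e.symm i).1.1, fun i => (e.symm i).1.2, ?_, ?_⟩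
  · intro z hz
    have hz' : z ∈ hp.toFinset := hp.mem_toFinset.mpr hz
    exact ⟨e ⟨z, hz'⟩, by simp, by simp⟩
  · intro i
    have := (e.symm i).2
    rw [hp.mem_toFinset] at this
    exact this

private lemma DET_key (hL : Ar2 L) (hζ : ζ < om1) (hXU : X ⊆ U) (hG : RC S U X G)
    (h : Lv S U X ζ) (hGG : Mt q G G') (hqG : ∀ a ∈ q, a.1 ∈ G ∧ a.2 ∈ G')
    (hb : BFR S T X X' (ζ + Ordinal.omega0) q) (hp : p.Finite)
    (hpX : ∀ a ∈ p, a.1 ∈ X ∧ a.2 ∈ X') (hb' : BFR S T X X' ζ (p ∪ q)) :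
    BFR S T X X' (ζ + 1) (p ∪ q) := by
  obtain ⟨n, a, b, hpe, hpe'⟩ := DET_enum hp
  have h1 : BFR S T X X' (ζ + 1 + ((n : ℕ) : Ordinal.{0})) q := by
    refine hb.mono ?_
    rw [add_assoc]
    gcongr
    have : (1 : Ordinal.{0}) + ((n : ℕ) : Ordinal.{0}) = ((1 + n : ℕ) : Ordinal.{0}) := by
      push_cast; rfl
    rw [this]
    exact (Ordinal.natCast_lt_omega0 _).le
  obtain ⟨a', ha'X, h2⟩ := BFR.back_many _ h1 b fun i => (hpX _ (hpe' i)).2
  have hlt : ζ ≤ ζ + 1 := (lt_add_one_self ζ).le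
  have h3 : BFR S S X X ζ ((range fun i => (a i, a' i)) ∪ dg (G : Set M)) := by
    refine hb'.trans ((h2.mono hlt).swap) ?_
    rintro _ (⟨i, rfl⟩ | ⟨g, hg, rfl⟩)
    · exact ⟨b i, Or.inl (hpe' i), Or.inr ⟨i, rfl⟩⟩
    · obtain ⟨g', hg', hgg⟩ := hGG.1 g hg
      exact ⟨g', Or.inr hgg, Or.inl hgg⟩
  have h5 := (lv_iff_rc hL hXU hG).mp h _ (finite_range _) (by
    rintro _ ⟨i, rfl⟩
    exact ⟨(hpX _ (hpe' i)).1, ha'X i⟩) h3 (ζ + 1) (add_one_lt_om1 hζ)
  refine h5.trans h2 ?_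
  rintro z (hz | hz)
  · obtain ⟨i, hi1, hi2⟩ := hpe z hz
    exact ⟨a' i, Or.inl ⟨i, by rw [← hi1]⟩, Or.inr ⟨i, by rw [← hi2]⟩⟩
  · exact ⟨z.1, Or.inr ⟨z.1, (hqG z hz).1, rfl⟩, Or.inl hz⟩

/-- (DET) a cut with a level is determined by its equivalence class with its rows -/
theorem Lv.det (hL : Ar2 L) (hζ : ζ < om1) (hXU : X ⊆ U) (hG : RC S U X G) (h : Lv S U X ζ)
    (hq : q.Finite) (hGG : Mt q G G') (hqG : ∀ a ∈ q, a.1 ∈ G ∧ a.2 ∈ G')
    (hb : BFR S T X X' (ζ + Ordinal.omega0) q) (hp : p.Finite)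
    (hpX : ∀ a ∈ p, a.1 ∈ X ∧ a.2 ∈ X') (hb' : BFR S T X X' ζ (p ∪ q)) (γ : Ordinal.{0}) :
    BFR S T X X' γ (p ∪ q) := by
  induction γ using WellFoundedLT.induction generalizing p with
  | _ γ ih =>
    rw [BFR.def]
    have h1 := DET_key hL hζ hXU hG h hGG hqG hb hp hpX hb'
    refine ⟨hb'.atEq, fun β hβ => ⟨fun x hx => ?_, fun y hy => ?_⟩⟩
    · obtain ⟨y, hyV, hy⟩ := h1.forth (lt_add_one_self ζ) hx
      refine ⟨y, hyV, ?_⟩
      rw [← insert_union] at hy ⊢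
      refine ih β hβ (hp.insert _) ?_ hy
      rintro a (rfl | ha)
      · exact ⟨hx, hyV⟩
      · exact hpX a ha
    · obtain ⟨x, hxV, hx⟩ := h1.back (lt_add_one_self ζ) hy
      refine ⟨x, hxV, ?_⟩
      rw [← insert_union] at hx ⊢
      refine ih β hβ (hp.insert _) ?_ hx
      rintro a (rfl | ha)
      · exact ⟨hxV, hy⟩
      · exact hpX a ha

theorem Lv.congr (hL : Ar2 L) (hζ : ζ < om1) (hXU : X ⊆ U) (hXV : X' ⊆ V)
    (hG : RC S U X G) (hG' : RC T V X' G')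
    (h : Lv S U X ζ) (hq : q.Finite) (hGG : Mt q G G') (hqG : ∀ a ∈ q, a.1 ∈ G ∧ a.2 ∈ G')
    (hb : BFR S T X X' (ζ + Ordinal.omega0) q) : Lv T V X' ζ := by
  rw [lv_iff_rc hL hXV hG']
  intro r hr hrX hbr γ hγ
  obtain ⟨n, a, b, hre, hre'⟩ := DET_enum hr
  have h1 : BFR S T X X' (ζ + ((n : ℕ) : Ordinal.{0})) q := by
    refine hb.mono ?_
    gcongr
    exact (Ordinal.natCast_lt_omega0 _).le
  obtain ⟨a', ha'X, h2⟩ := BFR.back_many _ h1 a fun i => (hrX _ (hre' i)).1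
  obtain ⟨b', hb'X, h3⟩ := BFR.back_many _ h1 b fun i => (hrX _ (hre' i)).2
  rw [union_comm] at h2 h3
  have h2' := Lv.det hL hζ hXU hG h hq hGG hqG hb (p := range fun i => (a' i, a i))
    (finite_range _) (by
      rintro _ ⟨i, rfl⟩
      exact ⟨ha'X i, (hrX _ (hre' i)).1⟩) h2 γ
  have h3' := Lv.det hL hζ hXU hG h hq hGG hqG hb (p := range fun i => (b' i, b i))
    (finite_range _) (by
      rintro _ ⟨i, rfl⟩
      exact ⟨hb'X i, (hrX _ (hre' i)).2⟩) h3 γ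
  have h4 : BFR S S X X ζ ((range fun i => (a' i, b' i)) ∪ dg (G : Set M)) := by
    refine (h2.comp hbr).trans h3.swap ?_
    rintro _ (⟨i, rfl⟩ | ⟨g, hg, rfl⟩)
    · exact ⟨b i, ⟨a i, Or.inl ⟨i, rfl⟩, Or.inl (hre' i)⟩, Or.inl ⟨i, rfl⟩⟩
    · obtain ⟨g', hg', hgg⟩ := hGG.1 g hg
      exact ⟨g', ⟨g', Or.inr hgg, Or.inr ⟨g', hg', rfl⟩⟩, Or.inr hgg⟩
  have h7 := (lv_iff_rc hL hXU hG).mp h _ (finite_range _) (by
    rintro _ ⟨i, rfl⟩
    exact ⟨ha'X i, hb'X i⟩) h4 γ hγ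
  refine (h2'.swap.comp h7).trans h3' ?_
  rintro z (hz | ⟨g', hg', rfl⟩)
  · obtain ⟨i, hi1, hi2⟩ := hre z hz
    exact ⟨b' i, ⟨a' i, Or.inl ⟨i, by rw [← hi1]; rfl⟩, Or.inl ⟨i, rfl⟩⟩,
      Or.inl ⟨i, by rw [← hi2]⟩⟩
  · obtain ⟨g, hg, hgg⟩ := hGG.2 g' hg'
    exact ⟨g, ⟨g, Or.inr hgg, Or.inr ⟨g, hg, rfl⟩⟩, Or.inr hgg⟩

end Pool.Agent.CW

end

/-! ### formerly `Pool.Agent.CW.SUB` -/

section

/-!
# CW, module SUB
-/

set_option autoImplicit false
set_option linter.unusedSectionVars false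
set_option linter.unusedVariables false

namespace Pool.Agent.CW

open Set Pool.Agent.Helper5 Pool.Agent.Helper5.DU Pool.Agent.Helper6.Str
  Pool.Agent.Helper79.VC Pool.Agent.Helper97.VC Pool.Agent.Helper97.MD Pool.Agent.Helper6.VC
  Pool.Agent.Helper97.LO

open scoped Classical

variable {L : FirstOrder.Language.{0, 0}} [∀ n, IsEmpty (L.Functions n)] {M : Type}
  {S : L.Structure M} {U C D : Set M} {ζ : Ordinal.{0}} {P Q : Finset M}

theorem sub_mem_dg {X : Set M} {x : M} (hx : x ∈ X) : (x, x) ∈ dg X := ⟨x, hx, rfl⟩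

/-- restriction of a back-and-forth system from `C` to the definable subset `D` -/
theorem sub_restrict (hL : Ar2 L) (hCU : C ⊆ U) (hDC : D ⊆ C) {GC GD : Finset M}
    (hGC : RC S U C GC) (hGD : RC S U D GD)
    (F : Finset M) (hF : (F : Set M) ⊆ U) {η : Ordinal.{0}}
    (hdef : ∀ c ∈ U, ∀ c' ∈ U, BFR S S U U η (insert (c, c') (dg (F : Set M))) →
      (c ∈ D ↔ c' ∈ D)) {q : Set (M × M)} (hq : ∀ a ∈ q, a.1 ∈ D ∧ a.2 ∈ D)
    (hqF : ∀ x ∈ F, x ∈ D → ∃ y, (x, y) ∈ q)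
    (hqb : BFR S S D D (η + 1) (q ∪ dg (GD : Set M))) (γ : Ordinal.{0}) :
    ∀ r : Set (M × M), (∀ a ∈ r, a.1 ∈ C ∧ a.2 ∈ C) → q ⊆ r →
      (∀ x ∈ F, x ∉ D → x ∈ C → (x, x) ∈ r) →
      BFR S S C C (η + γ) (r ∪ dg (U \ C)) → BFR S S D D γ (r ∪ dg (U \ C)) := by
  have hDU : D ⊆ U := hDC.trans hCU
  have hqU : BFR S S U U (η + 1) (q ∪ dg (U \ D)) :=
    bfr_ext hL hGD hDU Subset.rfl hq hqb Subset.rfl
  have hlt1 : η < η + 1 := by
    rw [← Order.succ_eq_add_one]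
    exact Order.lt_succ η
  -- extension to `U`
  have hext : ∀ r : Set (M × M), (∀ a ∈ r, a.1 ∈ C ∧ a.2 ∈ C) →
      ∀ δ, η ≤ δ → BFR S S C C δ (r ∪ dg (U \ C)) → BFR S S U U η (r ∪ dg (U \ C)) := by
    intro r hr δ hδ h
    have h1 : BFR S S C C η (r ∪ dg (GC : Set M)) := by
      refine BFR.anti (union_subset_union_right r ?_) (h.mono hδ)
      exact image_mono hGC.1
    exact bfr_ext hL hGC hCU Subset.rfl hr h1 Subset.rfl
  -- the pairs over `F`
  have hFp : ∀ r : Set (M × M), q ⊆ r → (∀ x ∈ F, x ∉ D → x ∈ C → (x, x) ∈ r) →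
      ∀ f ∈ F, ∃ b, (f, b) ∈ r ∪ dg (U \ C) ∧ (f, b) ∈ q ∪ dg (U \ D) := by
    intro r hqr hrF f hf
    by_cases hfD : f ∈ D
    · obtain ⟨b, hb⟩ := hqF f hf hfD
      exact ⟨b, Or.inl (hqr hb), Or.inl hb⟩
    · by_cases hfC : f ∈ C
      · exact ⟨f, Or.inl (hrF f hf hfD hfC), Or.inr (sub_mem_dg ⟨hF hf, hfD⟩)⟩
      · exact ⟨f, Or.inr (sub_mem_dg ⟨hF hf, hfC⟩), Or.inr (sub_mem_dg ⟨hF hf, hfD⟩)⟩
  induction γ using WellFoundedLT.induction with
  | _ γ ih =>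
    intro r hr hqr hrF h
    rw [BFR.def]
    refine ⟨h.atEq, fun β hβ => ⟨fun x hx => ?_, fun y hy => ?_⟩⟩
    · have hβ' : η + β < η + γ := add_lt_add_right hβ η
      obtain ⟨y, hy, h1⟩ := h.forth hβ' (hDC hx)
      have h1' : BFR S S C C (η + β) (insert (x, y) r ∪ dg (U \ C)) := by
        rw [insert_union]
        exact h1
      have hr' : ∀ a ∈ insert (x, y) r, a.1 ∈ C ∧ a.2 ∈ C := by
        rintro a (rfl | ha)
        · exact ⟨hDC hx, hy⟩
        · exact hr a ha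
      have hyD : y ∈ D := by
        by_contra hyD
        have h2 := hext _ hr' _ (le_self_add) h1'
        have h3 : BFR S S U U η (insert (x, y) (dg (F : Set M))) := by
          refine BFR.trans h2 (hqU.mono hlt1.le).swap ?_
          rintro a (rfl | ⟨f, hf, rfl⟩)
          · exact ⟨y, Or.inl (mem_insert _ _), Or.inr (sub_mem_dg ⟨hCU hy, hyD⟩)⟩
          · obtain ⟨b, hb1, hb2⟩ := hFp r hqr hrF f hf
            refine ⟨b, ?_, hb2⟩
            rcases hb1 with hb1 | hb1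
            · exact Or.inl (mem_insert_of_mem _ hb1)
            · exact Or.inr hb1
        exact hyD ((hdef x (hDU hx) y (hCU hy) h3).mp hx)
      refine ⟨y, hyD, ?_⟩
      have h4 := ih β hβ (insert (x, y) r) hr' (hqr.trans (subset_insert _ _))
        (fun z hz hzD hzC => mem_insert_of_mem _ (hrF z hz hzD hzC)) h1'
      rw [insert_union] at h4
      exact h4
    · have hβ' : η + β < η + γ := add_lt_add_right hβ η
      obtain ⟨x, hx, h1⟩ := h.back hβ' (hDC hy)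
      have h1' : BFR S S C C (η + β) (insert (x, y) r ∪ dg (U \ C)) := by
        rw [insert_union]
        exact h1
      have hr' : ∀ a ∈ insert (x, y) r, a.1 ∈ C ∧ a.2 ∈ C := by
        rintro a (rfl | ha)
        · exact ⟨hx, hDC hy⟩
        · exact hr a ha
      have hxD : x ∈ D := by
        obtain ⟨d, hd, h5⟩ := hqb.back hlt1 hy
        have h5' : BFR S S D D η (insert (d, y) q ∪ dg (GD : Set M)) := by
          rw [insert_union]
          exact h5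
        have hq' : ∀ a ∈ insert (d, y) q, a.1 ∈ D ∧ a.2 ∈ D := by
          rintro a (rfl | ha)
          · exact ⟨hd, hy⟩
          · exact hq a ha
        have h6 : BFR S S U U η (insert (d, y) q ∪ dg (U \ D)) :=
          bfr_ext hL hGD hDU Subset.rfl hq' h5' Subset.rfl
        have h2 := hext _ hr' _ (le_self_add) h1'
        have h3 : BFR S S U U η (insert (x, d) (dg (F : Set M))) := by
          refine BFR.trans h2 h6.swap ?_
          rintro a (rfl | ⟨f, hf, rfl⟩)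
          · exact ⟨y, Or.inl (mem_insert _ _), Or.inl (mem_insert _ _)⟩
          · obtain ⟨b, hb1, hb2⟩ := hFp r hqr hrF f hf
            refine ⟨b, ?_, ?_⟩
            · rcases hb1 with hb1 | hb1
              · exact Or.inl (mem_insert_of_mem _ hb1)
              · exact Or.inr hb1
            · rcases hb2 with hb2 | hb2
              · exact Or.inl (mem_insert_of_mem _ hb2)
              · exact Or.inr hb2
        exact (hdef x (hCU hx) d (hDU hd) h3).mpr hd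
      refine ⟨x, hxD, ?_⟩
      have h4 := ih β hβ (insert (x, y) r) hr' (hqr.trans (subset_insert _ _))
        (fun z hz hzD hzC => mem_insert_of_mem _ (hrF z hz hzD hzC)) h1'
      rw [insert_union] at h4
      exact h4

/-- (SUB) definable subcuts of cuts with a level -/
theorem lv_sub (hL : Ar2 L) (hCU : C ⊆ U) (hDC : D ⊆ C) (hC : Lv S U C ζ)
    (hD : rk (bt S) U D ≠ ⊤) (F : Finset M) (hF : (F : Set M) ⊆ U) {η : Ordinal.{0}}
    (hη : η < om1)
    (hdef : ∀ c ∈ U, ∀ c' ∈ U, BFR S S U U η (insert (c, c') (dg (F : Set M))) →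
      (c ∈ D ↔ c' ∈ D)) : Lv S U D (ζ + η + Ordinal.omega0) := by
  obtain ⟨GC, hGC, hlev⟩ := hC
  obtain ⟨GD, hGD⟩ := exists_rc hD
  have hDU : D ⊆ U := hDC.trans hCU
  refine ⟨GD, hGD, fun p hpf hp hb => ?_⟩
  have e1 : ζ + η + Ordinal.omega0 = (ζ + η + 1) + Ordinal.omega0 := by
    rw [add_assoc (ζ + η), Ordinal.one_add_omega0]
  rw [e1] at hb
  obtain ⟨q, F', hqf, hF', hMt, hqF, hb1⟩ := forth_fin hb (F.filter (· ∈ D)) (by
    intro x hx
    exact (Finset.mem_filter.mp hx).2)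
  -- the finite map in `D`
  have hp1 : ∀ a ∈ p ∪ q, a.1 ∈ D ∧ a.2 ∈ D := by
    rintro a (ha | ha)
    · exact hp a ha
    · exact ⟨(Finset.mem_filter.mp (hqF a ha).1).2, hF' (hqF a ha).2⟩
  have hb2 : BFR S S D D (ζ + η + 1) ((p ∪ q) ∪ dg (GD : Set M)) := by
    refine BFR.anti ?_ hb1
    rintro a ((ha | ha) | ha)
    · exact Or.inl (Or.inl ha)
    · exact Or.inr ha
    · exact Or.inl (Or.inr ha)
  have hb3 : BFR S S C C (ζ + η + 1) ((p ∪ q) ∪ dg (U \ D)) :=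
    bfr_ext hL hGD hDC hCU hp1 hb2 Subset.rfl
  -- the finite map in `C`
  let K : Finset M := (F ∪ GD).filter fun x => x ∉ D ∧ x ∈ C
  have hK : ∀ x ∈ K, (x ∈ F ∨ x ∈ GD) ∧ x ∉ D ∧ x ∈ C := by
    intro x hx
    have := Finset.mem_filter.mp hx
    exact ⟨Finset.mem_union.mp this.1, this.2⟩
  let r : Set (M × M) := (p ∪ q) ∪ dg (K : Set M)
  have hrf : r.Finite := (hpf.union hqf).union (K.finite_toSet.image _)
  have hr : ∀ a ∈ r, a.1 ∈ C ∧ a.2 ∈ C := by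
    rintro a (ha | ⟨x, hx, rfl⟩)
    · exact ⟨hDC (hp1 a ha).1, hDC (hp1 a ha).2⟩
    · exact ⟨(hK x hx).2.2, (hK x hx).2.2⟩
  have hle : ζ ≤ ζ + η + 1 := by
    rw [add_assoc]
    exact le_self_add
  have hr1 : BFR S S C C ζ (r ∪ dg (GC : Set M)) := by
    refine BFR.anti ?_ (hb3.mono hle)
    rintro a ((ha | ⟨x, hx, rfl⟩) | ⟨x, hx, rfl⟩)
    · exact Or.inl ha
    · exact Or.inr (sub_mem_dg ⟨hCU (hK x hx).2.2, (hK x hx).2.1⟩)
    · exact Or.inr (sub_mem_dg ⟨(hGC.1 hx).1, fun h => (hGC.1 hx).2 (hDC h)⟩)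
  have hr2 := hlev r hrf hr hr1
  intro γ hγ
  have hr3 : BFR S S C C (η + γ) (r ∪ dg (U \ C)) :=
    bfr_ext hL hGC Subset.rfl hCU hr (hr2 (η + γ) (add_lt_om1 hη hγ)) Subset.rfl
  have hη1 : η + 1 ≤ ζ + η + 1 := by
    rw [add_assoc ζ]
    exact le_add_self
  have hb4 : BFR S S D D (η + 1) ((p ∪ q) ∪ dg (GD : Set M)) := hb2.mono hη1
  have hr4 := sub_restrict hL hCU hDC hGC hGD F hF hdef hp1 (by
      intro x hx hxD
      obtain ⟨y, -, hy⟩ := hMt.1 x (Finset.mem_filter.mpr ⟨hx, hxD⟩)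
      exact ⟨y, Or.inr hy⟩) hb4 γ r hr subset_union_left (by
      intro x hx hxD hxC
      refine Or.inr (sub_mem_dg ?_)
      exact Finset.mem_coe.mpr (Finset.mem_filter.mpr
        ⟨Finset.mem_union_left _ hx, hxD, hxC⟩)) hr3
  refine BFR.anti ?_ hr4
  rintro a (ha | ⟨x, hx, rfl⟩)
  · exact Or.inl (Or.inl (Or.inl ha))
  · by_cases hxC : x ∈ C
    · refine Or.inl (Or.inr (sub_mem_dg ?_))
      exact Finset.mem_coe.mpr (Finset.mem_filter.mpr
        ⟨Finset.mem_union_right _ hx, (hGD.1 hx).2, hxC⟩)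
    · exact Or.inr (sub_mem_dg ⟨(hGD.1 hx).1, hxC⟩)

theorem lv_sub_bs (hL : Ar2 L) (hCU : C ⊆ U) (hC : Lv S U C ζ) (hOk : Ok (bt S) U P Q)
    (h : Bs (bt S) U P Q ⊆ C) :
    Lv S U (Bs (bt S) U P Q) (ζ + Ordinal.omega0 + Ordinal.omega0) := by
  refine lv_sub hL hCU h hC ?_ (P ∪ Q) ?_ omega_lt_om1 ?_
  · rw [rk_bs hOk]
    exact ENat.natCast_ne_top _
  · intro x hx
    rw [Finset.coe_union] at hx
    rcases hx with hx | hx
    · exact hOk.left hx
    · exact hOk.right hx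
  · intro c hc c' hc' hb
    refine mem_bs_iff hc hc' hb (mt_dg P ?_) (mt_dg Q ?_)
    · exact image_mono (by
        intro x hx
        exact Finset.mem_coe.mpr (Finset.mem_union_left _ hx))
    · exact image_mono (by
        intro x hx
        exact Finset.mem_coe.mpr (Finset.mem_union_right _ hx))

end Pool.Agent.CW

end

/-! ### formerly `Pool.Agent.CW.COV` -/

section

/-!
# CW, module COV
-/

set_option autoImplicit false
set_option linter.unusedSectionVars false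
set_option linter.unusedVariables false

namespace Pool.Agent.CW

open Set Pool.Agent.Helper5 Pool.Agent.Helper5.DU Pool.Agent.Helper6.Str
  Pool.Agent.Helper79.VC Pool.Agent.Helper97.VC Pool.Agent.Helper97.MD Pool.Agent.Helper6.VC
  Pool.Agent.Helper97.LO

open scoped Classical

variable {L : FirstOrder.Language.{0, 0}} [∀ n, IsEmpty (L.Functions n)] {M : Type}
  {S : L.Structure M} {U Z Z' C : Set M} {F F' P Q : Finset M} {ζ ζ' : Ordinal.{0}}
  {k k' : ℕ}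

theorem Cov.mono (h : Cov S U F k ζ) (hF : F' ⊆ F) (hk : k ≤ k') (hζ : ζ ≤ ζ') :
    Cov S U F' k' ζ' := by
  obtain ⟨P, Q, h1, h2⟩ := h
  refine ⟨fun i => if hi : (i : ℕ) < k then P ⟨i, hi⟩ else ∅,
    fun i => if hi : (i : ℕ) < k then Q ⟨i, hi⟩ else ∅, fun i => ?_, fun x hx => ?_⟩
  · by_cases hi : (i : ℕ) < k
    · simp only [dif_pos hi]
      exact ⟨(h1 _).1, (h1 _).2.1.trans hk, (h1 _).2.2.mono hζ⟩
    · simp only [dif_neg hi]
      refine ⟨ok_empty (by simp), ?_, ?_⟩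
      · rw [rho_empty_left]
        exact Nat.zero_le _
      · rw [bs_empty]
        exact lv_empty S U ζ'
  · obtain ⟨i, hi⟩ := h2 x (hF hx)
    refine ⟨⟨i, lt_of_lt_of_le i.2 hk⟩, ?_⟩
    simpa only [dif_pos i.2] using hi

theorem Cov.union (h : Cov S U F k ζ) (h' : Cov S U F' k' ζ) :
    Cov S U (F ∪ F') (k + k') ζ := by
  obtain ⟨P, Q, h1, h2⟩ := h
  obtain ⟨P', Q', h1', h2'⟩ := h'
  refine ⟨Fin.append P P', Fin.append Q Q', fun i => ?_, fun x hx => ?_⟩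
  · refine Fin.addCases (fun j => ?_) (fun j => ?_) i
    · rw [Fin.append_left, Fin.append_left]
      exact ⟨(h1 j).1, (h1 j).2.1.trans (Nat.le_add_right _ _), (h1 j).2.2⟩
    · rw [Fin.append_right, Fin.append_right]
      exact ⟨(h1' j).1, (h1' j).2.1.trans (Nat.le_add_left _ _), (h1' j).2.2⟩
  · rcases Finset.mem_union.1 hx with hx | hx
    · obtain ⟨i, hi⟩ := h2 x hx
      refine ⟨Fin.castAdd k' i, ?_⟩
      rw [Fin.append_left, Fin.append_left]
      exact hi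
    · obtain ⟨i, hi⟩ := h2' x hx
      refine ⟨Fin.natAdd k i, ?_⟩
      rw [Fin.append_right, Fin.append_right]
      exact hi

theorem cov_of_bs (hOk : Ok (bt S) U P Q) (hk : rho (bt S) P Q ≤ k) (hk0 : 0 < k)
    (hζ : Lv S U (Bs (bt S) U P Q) ζ) (hF : (F : Set M) ⊆ Bs (bt S) U P Q) :
    Cov S U F k ζ :=
  ⟨fun _ => P, fun _ => Q, fun _ => ⟨hOk, hk, hζ⟩, fun x hx => ⟨⟨0, hk0⟩, hF hx⟩⟩

theorem CovS.mono (h : CovS S U Z k ζ) (hZ : Z' ⊆ Z) (hk : k ≤ k') (hζ : ζ ≤ ζ') :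
    CovS S U Z' k' ζ' :=
  fun F hF => (h F (hF.trans hZ)).mono subset_rfl hk hζ

theorem CovS.union (h : CovS S U Z k ζ) (h' : CovS S U Z' k' ζ) :
    CovS S U (Z ∪ Z') (k + k') ζ := by
  intro F hF
  have h1 := h (F.filter (· ∈ Z)) (fun x hx => (Finset.mem_filter.1 hx).2)
  have h2 := h' (F.filter (· ∈ Z')) (fun x hx => (Finset.mem_filter.1 hx).2)
  refine (h1.union h2).mono (fun x hx => ?_) le_rfl le_rfl
  rcases hF hx with hz | hz
  · exact Finset.mem_union_left _ (Finset.mem_filter.2 ⟨hx, hz⟩)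
  · exact Finset.mem_union_right _ (Finset.mem_filter.2 ⟨hx, hz⟩)

/-- a cut all of whose basic subsets have level `ζ` -/
theorem covS_of_refs (hZU : Z ⊆ U) (hR : Refs (bt S) U Z P Q) (hk : rho (bt S) P Q ≤ k)
    (hk0 : 0 < k) (h : ∀ F : Finset M, (F : Set M) ⊆ Z →
      Lv S U (Bs (bt S) U (P ∪ F) Q) ζ) : CovS S U Z k ζ := by
  intro F hF
  obtain ⟨h1, h2, h3, h4, -⟩ := hR.bs hZU hF
  exact cov_of_bs h1 (h3.trans_le hk) hk0 (h F hF) h4

/-- a cut with a level is covered -/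
theorem covS_of_lv (hL : Ar2 L) (hCU : C ⊆ U) (hC : Lv S U C ζ) (hk : rk (bt S) U C ≤ k)
    (hk0 : 0 < k) : CovS S U C k (ζ + Ordinal.omega0 + Ordinal.omega0) := by
  obtain ⟨P, Q, hR⟩ := exists_refs (ne_top_of_le_ne_top (ENat.natCast_ne_top k) hk)
  have hk' : rho (bt S) P Q ≤ k := by
    have h1 := hR.eq
    rw [h1] at hk
    exact_mod_cast hk
  refine covS_of_refs hCU hR hk' hk0 fun F hF => ?_
  obtain ⟨h1, h2, -, -, -⟩ := hR.bs hCU hF
  exact lv_sub_bs hL hCU hC h1 h2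

theorem Jd.mono (h : Jd S U ζ Z) (hZ : Z' ⊆ Z) (hζ : ζ ≤ ζ') : Jd S U ζ' Z' := by
  obtain ⟨η, h1, k, h2⟩ := h
  exact ⟨η, h1.trans_le hζ, k, h2.mono hZ le_rfl le_rfl⟩

theorem Jd.union (h : Jd S U ζ Z) (h' : Jd S U ζ Z') : Jd S U ζ (Z ∪ Z') := by
  obtain ⟨η, h1, k, h2⟩ := h
  obtain ⟨η', h1', k', h2'⟩ := h'
  exact ⟨max η η', max_lt h1 h1', k + k',
    (h2.mono subset_rfl le_rfl (le_max_left _ _)).union
      (h2'.mono subset_rfl le_rfl (le_max_right _ _))⟩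

theorem jd_of_covS (h : CovS S U Z k ζ) (hζ : ζ < ζ') : Jd S U ζ' Z := ⟨ζ, hζ, k, h⟩

theorem jd_of_lv (hL : Ar2 L) {μ : Ordinal.{0}} (hμ : Gd μ) (hζ : ζ < μ) (hCU : C ⊆ U)
    (hC : Lv S U C ζ) (hr : rk (bt S) U C ≠ ⊤) : Jd S U μ C := by
  obtain ⟨n, hn⟩ := ENat.ne_top_iff_exists.1 hr
  have hn' : rk (bt S) U C ≤ ((n + 1 : ℕ) : ℕ∞) := by
    rw [← hn]
    exact_mod_cast Nat.le_succ n
  refine jd_of_covS (covS_of_lv hL hCU hC hn' (Nat.succ_pos n)) ?_
  exact hμ.add _ (hμ.add _ hζ _ hμ.om) _ hμ.om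

theorem exists_gd (ζ : Ordinal.{0}) (hζ : ζ < om1) : ∃ μ, ζ < μ ∧ Gd μ := by
  have h1 : (1 : Ordinal.{0}) < Ordinal.omega0 := Ordinal.one_lt_omega0
  have h2 : ζ + 2 < om1 := add_lt_om1 hζ (natCast_lt_om1 2)
  have h3 : ζ < ζ + 2 := by
    conv_lhs => rw [← add_zero ζ]
    exact add_lt_add_right (by norm_num) ζ
  refine ⟨Ordinal.omega0 ^ (ζ + 2), ?_, ?_, ?_, ?_⟩
  · exact h3.trans_le (Ordinal.right_le_opow _ h1)
  · conv_lhs => rw [← Ordinal.opow_one Ordinal.omega0]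
    rw [Ordinal.opow_lt_opow_iff_right h1]
    exact lt_of_lt_of_le one_lt_two le_add_self
  · exact Ordinal.isPrincipal_opow_omega 1 omega_lt_om1 h2
  · intro a ha b hb
    exact Ordinal.isPrincipal_add_omega0_opow _ ha hb

end Pool.Agent.CW

end

/-! ### formerly `Pool.Agent.CW.ELb` -/

section

/-!
# CW, module ELb
-/

set_option autoImplicit false
set_option linter.unusedSectionVars false
set_option linter.unusedVariables false

namespace Pool.Agent.CW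

open Set Pool.Agent.Helper5 Pool.Agent.Helper5.DU Pool.Agent.Helper6.Str
  Pool.Agent.Helper79.VC Pool.Agent.Helper97.VC Pool.Agent.Helper97.MD Pool.Agent.Helper6.VC
  Pool.Agent.Helper97.LO

open scoped Classical

variable {L : FirstOrder.Language.{0, 0}} [∀ n, IsEmpty (L.Functions n)] {M N : Type}
  {S : L.Structure M} {T : L.Structure N} {U : Set M} {V : Set N} {p : Set (M × N)}
  {P Q F : Finset M} {P' Q' F' : Finset N} {ζ : Ordinal.{0}} {k : ℕ}

/-- level for the transfer of levels -/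
noncomputable def up (ζ : Ordinal.{0}) : Ordinal.{0} :=
  Ordinal.omega0 + ζ + Ordinal.omega0 + Ordinal.omega0

private theorem ELb_omega_one_le (ζ : Ordinal.{0}) : Ordinal.omega0 + 1 ≤ up ζ := by
  unfold up
  rw [add_assoc, add_assoc]
  gcongr
  exact Ordinal.one_lt_omega0.le.trans ((le_self_add (a := Ordinal.omega0)
    (b := Ordinal.omega0)).trans le_add_self)

private theorem ELb_omega_le (ζ : Ordinal.{0}) : Ordinal.omega0 ≤ up ζ :=
  (le_self_add (a := Ordinal.omega0) (b := 1)).trans (ELb_omega_one_le ζ)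

private theorem ELb_le_up (ζ : Ordinal.{0}) : ζ ≤ up ζ := by
  unfold up
  exact le_add_self.trans (le_self_add.trans le_self_add)

private theorem ELb_lv {M N : Type} {S : L.Structure M} {T : L.Structure N} {U : Set M}
    {V : Set N} {p : Set (M × N)} {P Q : Finset M} {P' Q' : Finset N}
    (hL : Ar2 L) (hζ : ζ < om1) (h : BFR S T U V (up ζ) p)
    (hOk : Ok (bt S) U P Q) (hOk' : Ok (bt T) V P' Q') (hP : Mt p P P') (hQ : Mt p Q Q')
    (hl : Lv S U (Bs (bt S) U P Q) ζ) : Lv T V (Bs (bt T) V P' Q') ζ := by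
  obtain ⟨G, hG, hGl⟩ := id hl
  have hGU : (G : Set M) ⊆ U := fun x hx => (hG.1 hx).1
  obtain ⟨q, G', hqf, hG'V, hqG, hqm, hb⟩ :=
    forth_fin (γ := Ordinal.omega0 + ζ + Ordinal.omega0) h G hGU
  have hXU : Bs (bt S) U P Q ⊆ U := bs_subset hOk.left
  have hXV : Bs (bt T) V P' Q' ⊆ V := bs_subset hOk'.left
  have H : ∀ x ∈ U, ∀ x' ∈ V, BFR S T U V Ordinal.omega0 (insert (x, x') (p ∪ q)) →
      (x ∈ Bs (bt S) U P Q ↔ x' ∈ Bs (bt T) V P' Q') := by
    intro x hx x' hx' hh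
    exact mem_bs_iff hx hx' hh (hP.mono subset_union_left) (hQ.mono subset_union_left)
  have hRC : RC T V (Bs (bt T) V P' Q') G' := by
    refine rc_of H hXU hXV hG'V (hb.mono ?_) (hqG.mono subset_union_right) hG
    rw [add_assoc]
    gcongr
    refine le_trans ?_ (le_add_self (a := Ordinal.omega0) (b := ζ))
    exact (Ordinal.natCast_lt_omega0 2).le
  have hb' : BFR S T (Bs (bt S) U P Q) (Bs (bt T) V P' Q') (ζ + Ordinal.omega0) (p ∪ q) := by
    refine BFR.restr hXU hXV Ordinal.omega0 _ H ?_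
    rw [← add_assoc]
    exact hb
  exact Lv.congr hL hζ hXU hXV hG hRC hl hqf hqG hqm (hb'.anti subset_union_right)

theorem lv_iff (hL : Ar2 L) (hζ : ζ < om1) (h : BFR S T U V (up ζ) p)
    (hOk : Ok (bt S) U P Q) (hOk' : Ok (bt T) V P' Q') (hP : Mt p P P') (hQ : Mt p Q Q') :
    Lv S U (Bs (bt S) U P Q) ζ ↔ Lv T V (Bs (bt T) V P' Q') ζ :=
  ⟨ELb_lv hL hζ h hOk hOk' hP hQ, ELb_lv hL hζ h.swap hOk' hOk (mt_swap hP) (mt_swap hQ)⟩

private theorem ELb_cov {M N : Type} {S : L.Structure M} {T : L.Structure N} {U : Set M}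
    {V : Set N} {p : Set (M × N)} {F : Finset M} {F' : Finset N}
    (hL : Ar2 L) (hζ : ζ < om1) (h : BFR S T U V (up ζ + Ordinal.omega0) p)
    (hFU : (F : Set M) ⊆ U) (hFV : (F' : Set N) ⊆ V) (hF : Mt p F F')
    (hc : Cov S U F k ζ) : Cov T V F' k ζ := by
  obtain ⟨P, Q, hPQ, hcov⟩ := hc
  set R : Finset M := Finset.univ.biUnion fun i => P i ∪ Q i with hR
  have hRU : (R : Set M) ⊆ U := by
    intro x hx
    rw [Finset.mem_coe, hR, Finset.mem_biUnion] at hx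
    obtain ⟨i, -, hi⟩ := hx
    rcases Finset.mem_union.1 hi with hi | hi
    · exact (hPQ i).1.left hi
    · exact (hPQ i).1.right hi
  obtain ⟨q, R', hqf, hR'V, hqR, hqm, hb⟩ := forth_fin (γ := up ζ) h R hRU
  have key : ∀ A : Finset M, A ⊆ R → ∃ A' : Finset N, (A' : Set N) ⊆ V ∧ Mt q A A' := by
    intro A hA
    refine ⟨R'.filter fun y => ∃ x ∈ A, (x, y) ∈ q, ?_, ?_, ?_⟩
    · intro y hy
      exact hR'V (Finset.mem_filter.1 (Finset.mem_coe.1 hy)).1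
    · intro x hx
      obtain ⟨y, hy, hxy⟩ := hqR.1 x (hA hx)
      exact ⟨y, Finset.mem_filter.2 ⟨hy, x, hx, hxy⟩, hxy⟩
    · intro y hy
      exact (Finset.mem_filter.1 hy).2
  have hPR : ∀ i, P i ⊆ R := fun i x hx => by
    rw [hR, Finset.mem_biUnion]
    exact ⟨i, Finset.mem_univ _, Finset.mem_union_left _ hx⟩
  have hQR : ∀ i, Q i ⊆ R := fun i x hx => by
    rw [hR, Finset.mem_biUnion]
    exact ⟨i, Finset.mem_univ _, Finset.mem_union_right _ hx⟩
  choose P' hP'V hPm using fun i => key (P i) (hPR i)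
  choose Q' hQ'V hQm using fun i => key (Q i) (hQR i)
  have hPm' : ∀ i, Mt (p ∪ q) (P i) (P' i) := fun i => (hPm i).mono subset_union_right
  have hQm' : ∀ i, Mt (p ∪ q) (Q i) (Q' i) := fun i => (hQm i).mono subset_union_right
  have hOk' : ∀ i, Ok (bt T) V (P' i) (Q' i) := fun i =>
    (ok_iff (hb.mono (ELb_omega_one_le ζ)) (hPm' i) (hQm' i) (hPQ i).1.left (hPQ i).1.right
      (hP'V i) (hQ'V i)).1 (hPQ i).1
  refine ⟨P', Q', fun i => ⟨hOk' i, ?_, ?_⟩, fun y hy => ?_⟩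
  · rw [← rho_of_atEq hb.atEq (hPm' i) (hQm' i)]
    exact (hPQ i).2.1
  · exact ELb_lv hL hζ hb (hPQ i).1 (hOk' i) (hPm' i) (hQm' i) (hPQ i).2.2
  · obtain ⟨x, hx, hxy⟩ := hF.2 y hy
    obtain ⟨i, hi⟩ := hcov x hx
    refine ⟨i, (mem_bs_iff (hFU hx) (hFV hy) ?_ (hPm' i) (hQm' i)).1 hi⟩
    rw [insert_eq_of_mem (subset_union_left hxy)]
    exact hb.mono (ELb_omega_le ζ)

theorem cov_iff (hL : Ar2 L) (hζ : ζ < om1) (h : BFR S T U V (up ζ + Ordinal.omega0) p)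
    (hFU : (F : Set M) ⊆ U) (hFV : (F' : Set N) ⊆ V) (hF : Mt p F F') :
    Cov S U F k ζ ↔ Cov T V F' k ζ :=
  ⟨ELb_cov hL hζ h hFU hFV hF, ELb_cov hL hζ h.swap hFV hFU (mt_swap hF)⟩

private theorem ELb_covS {M N : Type} {S : L.Structure M} {T : L.Structure N} {U : Set M}
    {V : Set N} {p : Set (M × N)}
    (hL : Ar2 L) (hζ : ζ < om1) {X : Set M} {X' : Set N} (hXU : X ⊆ U)
    (hXV : X' ⊆ V) {κ : Ordinal.{0}} (hκ : κ ≤ up ζ + Ordinal.omega0)
    (H : ∀ x ∈ U, ∀ x' ∈ V, BFR S T U V κ (insert (x, x') p) → (x ∈ X ↔ x' ∈ X'))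
    (h : BFR S T U V (up ζ + Ordinal.omega0 + Ordinal.omega0) p)
    (hc : CovS S U X k ζ) : CovS T V X' k ζ := by
  intro F' hF'
  obtain ⟨q, F, hqf, hFU, hqF, hqm, hb⟩ :=
    back_fin (γ := up ζ + Ordinal.omega0) h F' (hF'.trans hXV)
  have hFX : (F : Set M) ⊆ X := by
    intro x hx
    obtain ⟨y, hy, hxy⟩ := hqF.1 x hx
    refine (H x (hFU hx) y (hXV (hF' hy)) ?_).2 (hF' hy)
    refine BFR.anti ?_ (hb.mono hκ)
    rintro a (rfl | ha)
    · exact Or.inr hxy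
    · exact Or.inl ha
  exact ELb_cov hL hζ hb hFU (hF'.trans hXV) (hqF.mono subset_union_right) (hc F hFX)

/-- transfer of covers of definable sets -/
theorem covS_iff (hL : Ar2 L) (hζ : ζ < om1) {X : Set M} {X' : Set N} (hXU : X ⊆ U)
    (hXV : X' ⊆ V) {κ : Ordinal.{0}} (hκ : κ ≤ up ζ + Ordinal.omega0)
    (H : ∀ x ∈ U, ∀ x' ∈ V, BFR S T U V κ (insert (x, x') p) → (x ∈ X ↔ x' ∈ X'))
    (h : BFR S T U V (up ζ + Ordinal.omega0 + Ordinal.omega0) p) :
    CovS S U X k ζ ↔ CovS T V X' k ζ := by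
  refine ⟨ELb_covS hL hζ hXU hXV hκ H h, ELb_covS hL hζ hXV hXU hκ ?_ h.swap⟩
  intro y hy x hx hh
  refine (H x hx y hy (hh.symm ?_)).symm
  rintro a (rfl | ha)
  · exact mem_insert _ _
  · exact mem_insert_of_mem _ ha

theorem gd_up {μ : Ordinal.{0}} (hμ : Gd μ) (hζ : ζ < μ) :
    up ζ + Ordinal.omega0 + Ordinal.omega0 < μ := by
  unfold up
  have ho := hμ.om
  exact hμ.add _ (hμ.add _ (hμ.add _ (hμ.add _ (hμ.add _ ho _ hζ) _ ho) _ ho) _ ho) _ ho

theorem up_lt_om1 (hζ : ζ < om1) : up ζ + Ordinal.omega0 + Ordinal.omega0 < om1 := by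
  unfold up
  have ho := omega_lt_om1
  exact add_lt_om1 (add_lt_om1 (add_lt_om1 (add_lt_om1 (add_lt_om1 ho hζ) ho) ho) ho) ho

theorem jd_iff (hL : Ar2 L) {μ : Ordinal.{0}} (hμ : Gd μ) {X : Set M} {X' : Set N}
    (hXU : X ⊆ U) (hXV : X' ⊆ V) {κ : Ordinal.{0}} (hκ : κ < μ)
    (H : ∀ x ∈ U, ∀ x' ∈ V, BFR S T U V κ (insert (x, x') p) → (x ∈ X ↔ x' ∈ X'))
    (h : ∀ γ < μ, BFR S T U V γ p) : Jd S U μ X ↔ Jd T V μ X' := by
  have key : ∀ ζ' < μ, ∀ k, CovS S U X k (max ζ' κ) ↔ CovS T V X' k (max ζ' κ) := by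
    intro ζ' hζ' k
    have hlt : max ζ' κ < μ := max_lt hζ' hκ
    refine covS_iff hL (hlt.trans hμ.lt) hXU hXV (κ := κ) ?_ H (h _ (gd_up hμ hlt))
    exact (le_max_right _ _).trans ((ELb_le_up _).trans le_self_add)
  constructor
  · rintro ⟨ζ', hζ', k, hk⟩
    exact ⟨max ζ' κ, max_lt hζ' hκ, k,
      (key ζ' hζ' k).1 (hk.mono subset_rfl le_rfl (le_max_left _ _))⟩
  · rintro ⟨ζ', hζ', k, hk⟩
    exact ⟨max ζ' κ, max_lt hζ' hκ, k,
      (key ζ' hζ' k).2 (hk.mono subset_rfl le_rfl (le_max_left _ _))⟩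

end Pool.Agent.CW

end

/-! ### formerly `Pool.Agent.CW.LOCa` -/

section

/-!
# CW, module LOCa
-/

set_option autoImplicit false
set_option linter.unusedSectionVars false
set_option linter.unusedVariables false

namespace Pool.Agent.CW

open Set Pool.Agent.Helper5 Pool.Agent.Helper5.DU Pool.Agent.Helper6.Str
  Pool.Agent.Helper79.VC Pool.Agent.Helper97.VC Pool.Agent.Helper97.MD Pool.Agent.Helper6.VC
  Pool.Agent.Helper97.LO

open scoped Classical

variable {L : FirstOrder.Language.{0, 0}} [∀ n, IsEmpty (L.Functions n)] {M N : Type}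
  {S : L.Structure M} {T : L.Structure N} {U C W Z : Set M} {V C' : Set N} {f : M → N}
  {ζ : Ordinal.{0}}

theorem LOCa_refl (S : L.Structure M) {p : Set (M × M)} (hp : ∀ a ∈ p, a.2 = a.1) :
    AtEq S S p := by
  refine ⟨fun a ha b hb => by rw [hp a ha, hp b hb], fun n R v hv => ?_⟩
  have : (fun i => (v i).2) = fun i => (v i).1 := by
    funext i
    exact hp _ (hv i)
  rw [this]

theorem LOCa_swap {x y x' y' : M} (h : bt S x y = bt S x' y') : bt S y x = bt S y' x' :=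
  Prod.ext (congrArg Prod.snd h) (congrArg Prod.fst h)

/-- atomic equivalence together with column representatives -/
theorem LOCa_iff (hL : Ar2 L) {S : L.Structure M} {U X : Set M} {G : Finset M}
    (hG : RC S U X G) {p : Set (M × M)} (hp : ∀ a ∈ p, a.1 ∈ X ∧ a.2 ∈ X) :
    AtEq S S (p ∪ dg (G : Set M)) ↔ AtEq S S p ∧
      ∀ a ∈ p, ∀ g ∈ U, g ∉ X → bt S a.1 g = bt S a.2 g := by
  constructor
  · intro h
    refine ⟨AtEq.anti subset_union_left h, fun a ha g hg hgX => ?_⟩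
    obtain ⟨g₀, hg₀, hr⟩ := hG.2 g hg hgX
    rw [hr a.1 (hp a ha).1, hr a.2 (hp a ha).2]
    exact bt_of_atEq h (a := a) (b := (g₀, g₀)) (Or.inl ha) (Or.inr ⟨g₀, hg₀, rfl⟩)
  · rintro ⟨h1, h2⟩
    have hone : ∀ c ∈ p ∪ dg (G : Set M), AtEq S S {c} := by
      rintro c (hc | ⟨g, hg, rfl⟩)
      · exact AtEq.anti (by rintro d rfl; exact hc) h1
      · exact LOCa_refl S (by rintro d rfl; rfl)
    refine atEq_of_pairs hL fun a ha b hb => ?_
    rcases ha with ha | ⟨g, hg, rfl⟩ <;> rcases hb with hb | ⟨g', hg', rfl⟩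
    · exact AtEq.anti (by rintro d (rfl | rfl) <;> assumption) h1
    · have hgX := hG.1 hg'
      refine atEq_pair hL (hone _ (Or.inl ha)) (hone _ (Or.inr ⟨g', hg', rfl⟩)) ?_
        (h2 a ha g' hgX.1 hgX.2)
      exact ⟨fun (h' : a.1 = g') => absurd (h' ▸ (hp a ha).1) hgX.2,
        fun (h' : a.2 = g') => absurd (h' ▸ (hp a ha).2) hgX.2⟩
    · have hgX := hG.1 hg
      refine atEq_pair hL (hone _ (Or.inr ⟨g, hg, rfl⟩)) (hone _ (Or.inl hb)) ?_
        (LOCa_swap (h2 b hb g hgX.1 hgX.2))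
      exact ⟨fun (h' : g = b.1) => absurd (h' ▸ (hp b hb).1) hgX.2,
        fun (h' : g = b.2) => absurd (h' ▸ (hp b hb).2) hgX.2⟩
    · refine LOCa_refl S ?_
      rintro d (rfl | rfl) <;> rfl

theorem LOCa_rel (h : CutIso S U T V C C' f) (n : ℕ) (R : L.Relations n) (v : Fin n → M)
    (hv : ∀ i, v i ∈ C) : S.RelMap R v ↔ T.RelMap R (fun i => f (v i)) :=
  h.atEq.2 n R (fun i => (v i, f (v i))) fun i => ⟨hv i, rfl⟩

theorem LOCa_atEq (h : CutIso S U T V C C' f) {p : Set (M × M)}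
    (hp : ∀ a ∈ p, a.1 ∈ C ∧ a.2 ∈ C) :
    AtEq S S p ↔ AtEq T T ((fun a : M × M => (f a.1, f a.2)) '' p) := by
  constructor
  · rintro ⟨h1, h2⟩
    refine ⟨?_, fun n R v hv => ?_⟩
    · rintro _ ⟨a, ha, rfl⟩ _ ⟨b, hb, rfl⟩
      show f a.1 = f b.1 ↔ f a.2 = f b.2
      rw [h.bij.injOn.eq_iff (hp a ha).1 (hp b hb).1, h.bij.injOn.eq_iff (hp a ha).2 (hp b hb).2]
      exact h1 a ha b hb
    · choose w hw hwv using hv
      have e1 : (fun i => (v i).1) = fun i => f (w i).1 := by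
        funext i; rw [← hwv i]
      have e2 : (fun i => (v i).2) = fun i => f (w i).2 := by
        funext i; rw [← hwv i]
      rw [e1, e2, ← LOCa_rel h n R (fun i => (w i).1) fun i => (hp _ (hw i)).1,
        ← LOCa_rel h n R (fun i => (w i).2) fun i => (hp _ (hw i)).2]
      exact h2 n R w hw
  · rintro ⟨h1, h2⟩
    refine ⟨fun a ha b hb => ?_, fun n R v hv => ?_⟩
    · have := h1 _ ⟨a, ha, rfl⟩ _ ⟨b, hb, rfl⟩
      rw [← h.bij.injOn.eq_iff (hp a ha).1 (hp b hb).1, ← h.bij.injOn.eq_iff (hp a ha).2 (hp b hb).2]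
      exact this
    · rw [LOCa_rel h n R (fun i => (v i).1) fun i => (hp _ (hv i)).1,
        LOCa_rel h n R (fun i => (v i).2) fun i => (hp _ (hv i)).2]
      exact h2 n R (fun i => (f (v i).1, f (v i).2)) fun i => ⟨v i, hv i, rfl⟩

theorem LOCa_bt (h : CutIso S U T V C C' f) {x y : M} (hx : x ∈ C) (hy : y ∈ C) :
    bt S x y = bt T (f x) (f y) :=
  bt_of_atEq h.atEq (a := (x, f x)) (b := (y, f y)) ⟨hx, rfl⟩ ⟨hy, rfl⟩

theorem LOCa_rows (h : CutIso S U T V C C' f) (hW : W ⊆ C) {x y : M} (hx : x ∈ W) (hy : y ∈ W) :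
    (∀ g ∈ U, g ∉ W → bt S x g = bt S y g) ↔
      ∀ g ∈ V, g ∉ f '' W → bt T (f x) g = bt T (f y) g := by
  constructor
  · intro H g hg hgW
    by_cases hgC : g ∈ C'
    · obtain ⟨z, hz, rfl⟩ := h.bij.surjOn hgC
      rw [← LOCa_bt h (hW hx) hz, ← LOCa_bt h (hW hy) hz]
      exact H z (h.sub hz) fun hzW => hgW ⟨z, hzW, rfl⟩
    · exact (h.rows x (hW hx) y (hW hy)).1 (fun g hg hgC => H g hg fun hgW => hgC (hW hgW)) g hg hgC
  · intro H g hg hgW
    by_cases hgC : g ∈ C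
    · rw [LOCa_bt h (hW hx) hgC, LOCa_bt h (hW hy) hgC]
      refine H (f g) (h.sub' (h.bij.mapsTo hgC)) ?_
      rintro ⟨z, hz, hzg⟩
      rw [h.bij.injOn.eq_iff (hW hz) hgC] at hzg
      exact hgW (hzg ▸ hz)
    · refine (h.rows x (hW hx) y (hW hy)).2 (fun g hg hgC => H g hg ?_) g hg hgC
      rintro ⟨z, hz, rfl⟩
      exact hgC (h.bij.mapsTo (hW hz))

theorem LOCa_bfr (hL : Ar2 L) (h : CutIso S U T V C C' f) (hW : W ⊆ C) {G : Finset M}
    {G' : Finset N} (hG : RC S U W G) (hG' : RC T V (f '' W) G') (γ : Ordinal.{0}) :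
    ∀ {p : Set (M × M)}, (∀ a ∈ p, a.1 ∈ W ∧ a.2 ∈ W) →
      (BFR S S W W γ (p ∪ dg (G : Set M)) ↔ BFR T T (f '' W) (f '' W) γ
        ((fun a : M × M => (f a.1, f a.2)) '' p ∪ dg (G' : Set N))) := by
  induction γ using WellFoundedLT.induction with
  | _ γ ih =>
    intro p hp
    have hins : ∀ x y, insert (f x, f y)
        ((fun a : M × M => (f a.1, f a.2)) '' p ∪ dg (G' : Set N)) =
        (fun a : M × M => (f a.1, f a.2)) '' (insert (x, y) p) ∪ dg (G' : Set N) := by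
      intro x y
      rw [image_insert_eq, insert_union]
    have hins' : ∀ x y, insert (x, y) (p ∪ dg (G : Set M)) =
        insert (x, y) p ∪ dg (G : Set M) := fun x y => (insert_union).symm
    have hpi : ∀ x ∈ W, ∀ y ∈ W, ∀ a ∈ insert (x, y) p, a.1 ∈ W ∧ a.2 ∈ W := by
      rintro x hx y hy a (rfl | ha)
      · exact ⟨hx, hy⟩
      · exact hp a ha
    have hpf : ∀ a ∈ (fun a : M × M => (f a.1, f a.2)) '' p, a.1 ∈ f '' W ∧ a.2 ∈ f '' W := by
      rintro _ ⟨a, ha, rfl⟩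
      exact ⟨⟨_, (hp a ha).1, rfl⟩, ⟨_, (hp a ha).2, rfl⟩⟩
    have hat : AtEq S S (p ∪ dg (G : Set M)) ↔
        AtEq T T ((fun a : M × M => (f a.1, f a.2)) '' p ∪ dg (G' : Set N)) := by
      rw [LOCa_iff hL hG hp, LOCa_iff hL hG' hpf,
        LOCa_atEq h (fun a ha => ⟨hW (hp a ha).1, hW (hp a ha).2⟩)]
      refine and_congr_right fun _ => ?_
      constructor
      · rintro H _ ⟨a, ha, rfl⟩
        exact (LOCa_rows h hW (hp a ha).1 (hp a ha).2).1 (H a ha)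
      · intro H a ha
        exact (LOCa_rows h hW (hp a ha).1 (hp a ha).2).2 (H _ ⟨a, ha, rfl⟩)
    rw [BFR.def, BFR.def, hat]
    refine and_congr_right fun _ => forall_congr' fun β => forall_congr' fun hβ =>
      and_congr ?_ ?_
    · constructor
      · rintro H _ ⟨x, hx, rfl⟩
        obtain ⟨y, hy, h1⟩ := H x hx
        refine ⟨f y, ⟨y, hy, rfl⟩, ?_⟩
        rw [hins, ← ih β hβ (hpi x hx y hy), ← hins']
        exact h1
      · intro H x hx
        obtain ⟨_, ⟨y, hy, rfl⟩, h1⟩ := H (f x) ⟨x, hx, rfl⟩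
        refine ⟨y, hy, ?_⟩
        rw [hins, ← ih β hβ (hpi x hx y hy)] at h1
        rw [hins']
        exact h1
    · constructor
      · rintro H _ ⟨y, hy, rfl⟩
        obtain ⟨x, hx, h1⟩ := H y hy
        refine ⟨f x, ⟨x, hx, rfl⟩, ?_⟩
        rw [hins, ← ih β hβ (hpi x hx y hy), ← hins']
        exact h1
      · intro H y hy
        obtain ⟨_, ⟨x, hx, rfl⟩, h1⟩ := H (f y) ⟨y, hy, rfl⟩
        refine ⟨x, hx, ?_⟩
        rw [hins, ← ih β hβ (hpi x hx y hy)] at h1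
        rw [hins']
        exact h1

theorem CutIso.symm [Nonempty M] (h : CutIso S U T V C C' f) :
    CutIso T V S U C' C (Function.invFunOn f C) := by
  have hinv : ∀ x ∈ C', Function.invFunOn f C x ∈ C ∧ f (Function.invFunOn f C x) = x := by
    intro x hx
    exact ⟨h.bij.surjOn.mapsTo_invFunOn hx, h.bij.invOn_invFunOn.2 hx⟩
  refine ⟨h.sub', h.sub, ?_, ?_, h.cut', h.cut, ?_⟩
  · exact h.bij.invOn_invFunOn.symm.bijOn h.bij.surjOn.mapsTo_invFunOn h.bij.mapsTo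
  · refine ⟨?_, fun n R v hv => ?_⟩
    · rintro a ⟨ha1, ha2⟩ b ⟨hb1, hb2⟩
      have := h.atEq.1 (a.2, a.1) ⟨by rw [ha2]; exact (hinv _ ha1).1, by
        rw [ha2]; exact (hinv _ ha1).2.symm⟩ (b.2, b.1) ⟨by rw [hb2]; exact (hinv _ hb1).1, by
        rw [hb2]; exact (hinv _ hb1).2.symm⟩
      exact this.symm
    · have := h.atEq.2 n R (fun i => ((v i).2, (v i).1)) fun i => ⟨by
        rw [(hv i).2]; exact (hinv _ (hv i).1).1, by
        rw [(hv i).2]; exact (hinv _ (hv i).1).2.symm⟩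
      exact this.symm
  · intro x hx y hy
    have := h.rows _ (hinv x hx).1 _ (hinv y hy).1
    rw [(hinv x hx).2, (hinv y hy).2] at this
    exact this.symm

theorem CutIso.rk_le (h : CutIso S U T V C C' f) (hW : W ⊆ C) :
    rk (bt T) V (f '' W) ≤ rk (bt S) U W + rk (bt T) V C' := by
  by_cases htop : rk (bt S) U W = ⊤
  · rw [htop, top_add]
    exact le_top
  obtain ⟨n, hn⟩ := ENat.ne_top_iff_exists.1 htop
  obtain ⟨m, hm⟩ := ENat.ne_top_iff_exists.1 h.cut'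
  rw [← hn, ← hm]
  have hfW : f '' W ⊆ C' := by
    rintro _ ⟨x, hx, rfl⟩
    exact h.bij.mapsTo (hW hx)
  have key := rk_sub_le (τ := bt T) (U := V) (X := f '' W) hfW (n := n) (m := m) ?_ hm.symm.le
  · exact_mod_cast key
  · rw [rk_le_iff]
    intro P' Q' hP' hQ'
    rcases isEmpty_or_nonempty M with hM | hM
    · have : (P' : Set N) = ∅ := by
        rw [Set.eq_empty_iff_forall_notMem]
        intro z hz
        obtain ⟨x, _⟩ := hP' hz
        exact hM.false x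
      rw [Finset.coe_eq_empty] at this
      rw [this, rho_empty_left]
      exact Nat.zero_le _
    · have hinv : ∀ x ∈ C', Function.invFunOn f C x ∈ C ∧ f (Function.invFunOn f C x) = x := by
        intro x hx
        exact ⟨h.bij.surjOn.mapsTo_invFunOn hx, h.bij.invOn_invFunOn.2 hx⟩
      have hP1 : ∀ x ∈ P', x ∈ C' := fun x hx => hfW (hP' hx)
      have hQ1 : ∀ x ∈ Q', x ∈ C' := fun x hx => (hQ' hx).1
      have hMt : ∀ R : Finset N, (∀ x ∈ R, x ∈ C') →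
          Mt {a : M × N | a.1 ∈ C ∧ a.2 = f a.1} (R.image (Function.invFunOn f C)) R := by
        intro R hR
        constructor
        · intro x hx
          obtain ⟨y, hy, rfl⟩ := Finset.mem_image.1 hx
          exact ⟨y, hy, (hinv y (hR y hy)).1, (hinv y (hR y hy)).2.symm⟩
        · intro y hy
          exact ⟨_, Finset.mem_image_of_mem _ hy, (hinv y (hR y hy)).1, (hinv y (hR y hy)).2.symm⟩
      have h1 := rho_of_atEq h.atEq (hMt P' hP1) (hMt Q' hQ1)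
      rw [← h1]
      have h2 : (rho (bt S) (P'.image (Function.invFunOn f C))
          (Q'.image (Function.invFunOn f C)) : ℕ∞) ≤ rk (bt S) C W := by
        refine rho_le_rk ?_ ?_
        · intro x hx
          obtain ⟨y, hy, rfl⟩ := Finset.mem_image.1 (Finset.mem_coe.1 hx)
          obtain ⟨w, hw, rfl⟩ := hP' hy
          have h3 := hinv (f w) (hP1 _ hy)
          rw [h.bij.injOn.eq_iff h3.1 (hW hw)] at h3
          rw [h3.2]
          exact hw
        · intro x hx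
          obtain ⟨y, hy, rfl⟩ := Finset.mem_image.1 (Finset.mem_coe.1 hx)
          refine ⟨(hinv y (hQ1 y hy)).1, fun hW' => (hQ' hy).2 ⟨_, hW', (hinv y (hQ1 y hy)).2⟩⟩
      have h3 := h2.trans (rk_mono_univ h.sub)
      rw [← hn] at h3
      exact_mod_cast h3

theorem CutIso.lv (hL : Ar2 L) (h : CutIso S U T V C C' f) (hW : W ⊆ C)
    (hr : rk (bt S) U W ≠ ⊤) : Lv S U W ζ ↔ Lv T V (f '' W) ζ := by
  have hr' : rk (bt T) V (f '' W) ≠ ⊤ := by
    refine ne_top_of_le_ne_top ?_ (h.rk_le hW)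
    exact WithTop.add_ne_top.2 ⟨hr, h.cut'⟩
  obtain ⟨G, hG⟩ := exists_rc hr
  obtain ⟨G', hG'⟩ := exists_rc hr'
  have hWU : W ⊆ U := hW.trans h.sub
  have hfW : f '' W ⊆ V := by
    rintro _ ⟨x, hx, rfl⟩
    exact h.sub' (h.bij.mapsTo (hW hx))
  rw [lv_iff_rc hL hWU hG, lv_iff_rc hL hfW hG']
  constructor
  · intro H p' hp' hp'W hb
    -- pull back
    let p : Set (M × M) := {a | a.1 ∈ W ∧ a.2 ∈ W ∧ (f a.1, f a.2) ∈ p'}
    have hpp : (fun a : M × M => (f a.1, f a.2)) '' p = p' := by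
      ext a
      constructor
      · rintro ⟨b, hb, rfl⟩
        exact hb.2.2
      · intro ha
        obtain ⟨⟨x, hx, hx'⟩, ⟨y, hy, hy'⟩⟩ := hp'W a ha
        refine ⟨(x, y), ⟨hx, hy, ?_⟩, ?_⟩
        · show (f x, f y) ∈ p'
          rw [hx', hy']
          exact ha
        · show (f x, f y) = a
          rw [hx', hy']
    have hpW : ∀ a ∈ p, a.1 ∈ W ∧ a.2 ∈ W := fun a ha => ⟨ha.1, ha.2.1⟩
    have hpf : p.Finite := by
      have hinj : InjOn (fun a : M × M => (f a.1, f a.2)) p := by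
        rintro a ha b hb hab
        have h1 := congrArg Prod.fst hab
        have h2 := congrArg Prod.snd hab
        exact Prod.ext (h.bij.injOn (hW ha.1) (hW hb.1) h1) (h.bij.injOn (hW ha.2.1) (hW hb.2.1) h2)
      refine Set.Finite.of_finite_image ?_ hinj
      rw [hpp]
      exact hp'
    rw [← hpp, ← LOCa_bfr hL h hW hG hG' _ hpW] at hb
    intro γ hγ
    rw [← hpp, ← LOCa_bfr hL h hW hG hG' _ hpW]
    exact H p hpf hpW hb γ hγ
  · intro H p hp hpW hb γ hγ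
    rw [LOCa_bfr hL h hW hG hG' _ hpW] at hb ⊢
    refine H _ (hp.image _) ?_ hb γ hγ
    rintro _ ⟨a, ha, rfl⟩
    exact ⟨⟨_, (hpW a ha).1, rfl⟩, ⟨_, (hpW a ha).2, rfl⟩⟩

end Pool.Agent.CW

end

/-! ### formerly `Pool.Agent.CW.LOC` -/

section

/-!
# CW, module LOC
-/

set_option autoImplicit false
set_option linter.unusedSectionVars false
set_option linter.unusedVariables false

namespace Pool.Agent.CW

open Set Pool.Agent.Helper5 Pool.Agent.Helper5.DU Pool.Agent.Helper6.Str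
  Pool.Agent.Helper79.VC Pool.Agent.Helper97.VC Pool.Agent.Helper97.MD Pool.Agent.Helper6.VC
  Pool.Agent.Helper97.LO

open scoped Classical

variable {L : FirstOrder.Language.{0, 0}} [∀ n, IsEmpty (L.Functions n)] {M N : Type}
  {S : L.Structure M} {T : L.Structure N} {U C W Z : Set M} {V C' : Set N} {f : M → N}
  {ζ : Ordinal.{0}}

/-- one basic set -/
theorem LOC_one (hL : Ar2 L) (h : CutIso S U T V C C' f) {k n₀ m₀ : ℕ}
    (hn : rk (bt S) U C ≤ n₀) (hm : rk (bt T) V C' ≤ m₀) {P Q F : Finset M}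
    (hOk : Ok (bt S) U P Q) (hk : rho (bt S) P Q ≤ k) (hlv : Lv S U (Bs (bt S) U P Q) ζ)
    (hF : (F : Set M) ⊆ C) :
    ∃ P' Q' : Finset N, Ok (bt T) V P' Q' ∧ rho (bt T) P' Q' ≤ k + n₀ + m₀ ∧
      Lv T V (Bs (bt T) V P' Q')
        (ζ + Ordinal.omega0 + Ordinal.omega0 + Ordinal.omega0 + Ordinal.omega0) ∧
      ∀ x ∈ F, x ∈ Bs (bt S) U P Q → f x ∈ Bs (bt T) V P' Q' := by
  have hBU : Bs (bt S) U P Q ⊆ U := bs_subset hOk.left
  have hrB : rk (bt S) U (Bs (bt S) U P Q) ≤ k := by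
    rw [rk_bs hOk]
    exact_mod_cast hk
  have hrX : rk (bt S) U (Bs (bt S) U P Q ∩ C) ≤ (k + n₀ : ℕ) := by
    refine (rk_inter_le _ _ _ _).trans ?_
    push_cast
    exact add_le_add hrB hn
  have hrX' : rk (bt S) U (Bs (bt S) U P Q ∩ C) ≠ ⊤ :=
    ne_top_of_le_ne_top (ENat.natCast_ne_top _) hrX
  obtain ⟨P₀, Q₀, hR⟩ := exists_refs hrX'
  set F₀ : Finset M := F.filter (fun x => x ∈ Bs (bt S) U P Q) with hF₀
  have hF₀X : (F₀ : Set M) ⊆ Bs (bt S) U P Q ∩ C := by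
    intro x hx
    rw [hF₀, Finset.mem_coe, Finset.mem_filter] at hx
    exact ⟨hx.2, hF hx.1⟩
  obtain ⟨a1, a2, a3, a4, a5⟩ := hR.bs (inter_subset_left.trans hBU) hF₀X
  have hlv1 := lv_sub_bs hL hBU hlv a1 (a2.trans inter_subset_left)
  have hr1 : rk (bt S) U (Bs (bt S) U (P₀ ∪ F₀) Q₀) ≤ (k + n₀ : ℕ) := by
    rw [rk_bs a1, a3, ← hR.eq]
    exact hrX
  have hW : Bs (bt S) U (P₀ ∪ F₀) Q₀ ⊆ C := a2.trans inter_subset_right
  have hlv2 := (h.lv hL hW (ne_top_of_le_ne_top (ENat.natCast_ne_top _) hr1)).1 hlv1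
  have hr2 : rk (bt T) V (f '' Bs (bt S) U (P₀ ∪ F₀) Q₀) ≤ (k + n₀ + m₀ : ℕ) := by
    refine (h.rk_le hW).trans ?_
    rw [Nat.cast_add (k + n₀) m₀]
    exact add_le_add hr1 hm
  have hVW : f '' Bs (bt S) U (P₀ ∪ F₀) Q₀ ⊆ V := by
    rintro _ ⟨x, hx, rfl⟩
    exact h.sub' (h.bij.mapsTo (hW hx))
  obtain ⟨P₁, Q₁, hR1⟩ := exists_refs (ne_top_of_le_ne_top (ENat.natCast_ne_top _) hr2)
  have hF₁ : ((F₀.image f : Finset N) : Set N) ⊆ f '' Bs (bt S) U (P₀ ∪ F₀) Q₀ := by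
    rw [Finset.coe_image]
    exact image_mono a4
  obtain ⟨b1, b2, b3, b4, b5⟩ := hR1.bs hVW hF₁
  refine ⟨P₁ ∪ F₀.image f, Q₁, b1, ?_, lv_sub_bs hL hVW hlv2 b1 b2, fun x hx hxB => ?_⟩
  · rw [b3]
    have := hR1.eq.symm.le.trans hr2
    exact_mod_cast this
  · apply b4
    rw [Finset.coe_image]
    refine ⟨x, ?_, rfl⟩
    rw [hF₀, Finset.mem_coe, Finset.mem_filter]
    exact ⟨hx, hxB⟩

/-- (LOC) covers are computed in the cut -/
theorem CutIso.covS (hL : Ar2 L) (h : CutIso S U T V C C' f) (hZ : Z ⊆ C) {k : ℕ}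
    (hc : CovS S U Z k ζ) : ∃ k', CovS T V (f '' Z) k'
      (ζ + Ordinal.omega0 + Ordinal.omega0 + Ordinal.omega0 + Ordinal.omega0) := by
  obtain ⟨n₀, hn₀⟩ := ENat.ne_top_iff_exists.1 h.cut
  obtain ⟨m₀, hm₀⟩ := ENat.ne_top_iff_exists.1 h.cut'
  refine ⟨k + n₀ + m₀, fun F' hF' => ?_⟩
  -- pull back `F'`
  have hpre : ∃ F : Finset M, (F : Set M) ⊆ Z ∧ ∀ y ∈ F', ∃ x ∈ F, f x = y := by
    have h1 : ∀ y : N, ∃ x : Option M, y ∈ F' → ∃ z ∈ Z, x = some z ∧ f z = y := by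
      intro y
      by_cases hy : y ∈ F'
      · obtain ⟨z, hz, hzy⟩ := hF' hy
        exact ⟨some z, fun _ => ⟨z, hz, rfl, hzy⟩⟩
      · exact ⟨none, fun h => (hy h).elim⟩
    choose g hg using h1
    refine ⟨F'.biUnion (fun y => (g y).toFinset), ?_, ?_⟩
    · intro x hx
      obtain ⟨y, hy, hxy⟩ := Finset.mem_biUnion.1 (Finset.mem_coe.1 hx)
      obtain ⟨z, hz, hz1, _⟩ := hg y hy
      rw [hz1, Option.toFinset_some, Finset.mem_singleton] at hxy
      rw [hxy]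
      exact hz
    · intro y hy
      obtain ⟨z, hz, hz1, hz2⟩ := hg y hy
      refine ⟨z, Finset.mem_biUnion.2 ⟨y, hy, ?_⟩, hz2⟩
      rw [hz1, Option.toFinset_some, Finset.mem_singleton]
  obtain ⟨F, hFZ, hFF⟩ := hpre
  obtain ⟨P, Q, hPQ, hcov⟩ := hc F hFZ
  have hone : ∀ i, ∃ PQ : Finset N × Finset N, Ok (bt T) V PQ.1 PQ.2 ∧
      rho (bt T) PQ.1 PQ.2 ≤ k + n₀ + m₀ ∧
      Lv T V (Bs (bt T) V PQ.1 PQ.2)
        (ζ + Ordinal.omega0 + Ordinal.omega0 + Ordinal.omega0 + Ordinal.omega0) ∧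
      ∀ x ∈ F, x ∈ Bs (bt S) U (P i) (Q i) → f x ∈ Bs (bt T) V PQ.1 PQ.2 := by
    intro i
    obtain ⟨P', Q', h1⟩ := LOC_one hL h hn₀.symm.le hm₀.symm.le (hPQ i).1 (hPQ i).2.1 (hPQ i).2.2
      (hFZ.trans hZ)
    exact ⟨(P', Q'), h1⟩
  choose PQ hPQ1 hPQ2 hPQ3 hPQ4 using hone
  refine ⟨fun i => if hi : (i : ℕ) < k then (PQ ⟨i, hi⟩).1 else ∅,
    fun i => if hi : (i : ℕ) < k then (PQ ⟨i, hi⟩).2 else ∅, fun i => ?_, fun y hy => ?_⟩
  · by_cases hi : (i : ℕ) < k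
    · simp only [hi, dif_pos]
      exact ⟨hPQ1 _, hPQ2 _, hPQ3 _⟩
    · simp only [hi, dif_neg, not_false_iff]
      refine ⟨ok_empty (by simp), ?_, ?_⟩
      · rw [rho_empty_left]
        exact Nat.zero_le _
      · rw [bs_empty]
        exact lv_empty T V _
  · obtain ⟨x, hx, rfl⟩ := hFF y hy
    obtain ⟨i, hi⟩ := hcov x hx
    refine ⟨⟨i, by have := i.2; omega⟩, ?_⟩
    have hik : (i : ℕ) < k := i.2
    simp only [hik, dif_pos]
    exact hPQ4 i x hx hi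

theorem CutIso.jd (hL : Ar2 L) (h : CutIso S U T V C C' f) {μ : Ordinal.{0}} (hμ : Gd μ)
    (hZ : Z ⊆ C) : Jd S U μ Z ↔ Jd T V μ (f '' Z) := by
  have hlev : ∀ ζ' < μ, ζ' + Ordinal.omega0 + Ordinal.omega0 + Ordinal.omega0 +
      Ordinal.omega0 < μ := fun ζ' hζ' =>
    hμ.add _ (hμ.add _ (hμ.add _ (hμ.add _ hζ' _ hμ.om) _ hμ.om) _ hμ.om) _ hμ.om
  constructor
  · rintro ⟨ζ', hζ', k, hk⟩
    obtain ⟨k', hk'⟩ := h.covS hL hZ hk
    exact ⟨_, hlev ζ' hζ', k', hk'⟩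
  · rintro ⟨ζ', hζ', k, hk⟩
    rcases isEmpty_or_nonempty M with hM | hM
    · refine ⟨0, (Ordinal.omega0_pos).trans hμ.om, 0, fun F hF => ?_⟩
      exact ⟨fun i => i.elim0, fun i => i.elim0, fun i => i.elim0, fun x _ => (hM.false x).elim⟩
    · have hfZ : f '' Z ⊆ C' := by
        rintro _ ⟨x, hx, rfl⟩
        exact h.bij.mapsTo (hZ hx)
      obtain ⟨k', hk'⟩ := h.symm.covS hL hfZ hk
      have hZZ : Function.invFunOn f C '' (f '' Z) = Z := by
        rw [← image_comp]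
        ext x
        constructor
        · rintro ⟨z, hz, rfl⟩
          show Function.invFunOn f C (f z) ∈ Z
          rw [h.bij.invOn_invFunOn.1 (hZ hz)]
          exact hz
        · intro hx
          exact ⟨x, hx, h.bij.invOn_invFunOn.1 (hZ hx)⟩
      rw [hZZ] at hk'
      exact ⟨_, hlev ζ' hζ', k', hk'⟩

end Pool.Agent.CW

end
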