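import Pool.Agent.CW.CLI
import Pool.Agent.VCw.PCE

/-!
# CW, module NEa
-/

set_option autoImplicit false
set_option linter.unusedSectionVars false
set_option linter.unusedVariables false

namespace Pool.Agent.CW

open Set Pool.Agent.Helper5 Pool.Agent.Helper5.DU Pool.Agent.Helper6.Str
  Pool.Agent.Helper79.VC Pool.Agent.Helper97.VC Pool.Agent.Helper97.MD Pool.Agent.Helper6.VC
  Pool.Agent.Helper97.LO

open scoped Classical

variable {L : FirstOrder.Language.{0, 0}} [∀ n, IsEmpty (L.Functions n)] {M N : Type}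
  {S : L.Structure M}

/-- outside the sets `X m` the set `B 0`, in `X m` the set `B (e m)` -/
def NE (X B : ℕ → Set M) (e : ℕ → ℕ) : Set M :=
  {x | (∀ m, x ∉ X m) ∧ x ∈ B 0} ∪ {x | ∃ m, x ∈ X m ∧ x ∈ B (e m)}

/-- the exponents of a subset of `ω` -/
def ef (g : ℕ → Bool) (m : ℕ) : ℕ := if g m then m + 1 else 0

/-- the exponents of the subset restricted to `n` -/
def ee (g : ℕ → Bool) (n m : ℕ) : ℕ := if m < n then ef g m else 0

theorem ne_inter {X B : ℕ → Set M} (hX : ∀ m m', m ≠ m' → ∀ x ∈ X m, x ∉ X m') (e : ℕ → ℕ)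
    (m : ℕ) : X m ∩ NE X B e = X m ∩ B (e m) := by
  ext x
  constructor
  · rintro ⟨hx, ⟨h, -⟩ | ⟨m', hm', h⟩⟩
    · exact absurd hx (h m)
    · have e1 : m' = m := by
        by_contra hne
        exact hX m' m hne x hm' hx
      subst e1
      exact ⟨hx, h⟩
  · rintro ⟨hx, h⟩
    exact ⟨hx, Or.inr ⟨m, hx, h⟩⟩

theorem mem_ne_iff {X B : ℕ → Set M} (hX : ∀ m m', m ≠ m' → ∀ x ∈ X m, x ∉ X m') {e e' : ℕ → ℕ}
    {x : M} (h : ∀ m, x ∈ X m → e m = e' m) : x ∈ NE X B e ↔ x ∈ NE X B e' := by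
  constructor
  · rintro (⟨h1, h2⟩ | ⟨m, h1, h2⟩)
    · exact Or.inl ⟨h1, h2⟩
    · exact Or.inr ⟨m, h1, h m h1 ▸ h2⟩
  · rintro (⟨h1, h2⟩ | ⟨m, h1, h2⟩)
    · exact Or.inl ⟨h1, h2⟩
    · exact Or.inr ⟨m, h1, (h m h1).symm ▸ h2⟩

theorem ne_countable {X B : ℕ → Set M} (hB : ∀ n, (B n).Countable) (e : ℕ → ℕ) :
    (NE X B e).Countable := by
  refine (countable_iUnion hB).mono ?_
  rintro x (⟨-, h⟩ | ⟨m, -, h⟩)
  · exact mem_iUnion.2 ⟨0, h⟩
  · exact mem_iUnion.2 ⟨e m, h⟩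

theorem subset_ne {X B : ℕ → Set M} (hB : ∀ n, B n ⊆ B (n + 1)) (e : ℕ → ℕ) :
    B 0 ⊆ NE X B e := by
  intro x hx
  by_cases h : ∃ m, x ∈ X m
  · obtain ⟨m, hm⟩ := h
    exact Or.inr ⟨m, hm, monotone_nat_of_le_succ hB (Nat.zero_le _) hx⟩
  · exact Or.inl ⟨fun m hm => h ⟨m, hm⟩, hx⟩

/-- the labels of the pairs of different pieces -/
private theorem nea_bt (hL : Ar2 L) {X : Set M} {G : Finset M} (hG : RC S univ X G)
    {x x' y : M} (hx : x ∈ X) (hx' : x' ∈ X) (hy : y ∉ X)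
    (h : AtEq S S (insert (x, x') (dg (G : Set M)))) : bt S x y = bt S x' y := by
  obtain ⟨g, hg, hyg⟩ := hG.2 y (mem_univ _) hy
  rw [hyg x hx, hyg x' hx']
  refine (lbl_bt hL S).inv x g x' g (AtEq.anti ?_ h)
  rintro _ (rfl | rfl)
  · exact mem_insert _ _
  · exact mem_insert_of_mem _ ⟨g, hg, rfl⟩

/-- the relations between different pieces -/
theorem cross_one (hL : Ar2 L) {X : Set M} {G : Finset M} (hG : RC S univ X G) {x x' y : M}
    (hx : x ∈ X) (hx' : x' ∈ X) (hy : y ∉ X)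
    (h : AtEq S S (insert (x, x') (dg (G : Set M)))) : AtEq S S {(x, x'), (y, y)} := by
  refine (lbl_bt hL S).det x y x' y (fun e => hy (e ▸ hx)) (fun e => hy (e ▸ hx')) ?_ ?_
    (nea_bt hL hG hx hx' hy h)
  · exact AtEq.anti (singleton_subset_iff.2 (mem_insert _ _)) h
  · refine TR.atEq_refl S ?_
    rintro _ rfl
    rfl

theorem cross_two (hL : Ar2 L) {X Y : Set M} (hXY : ∀ x ∈ X, x ∉ Y) {G H : Finset M}
    (hG : RC S univ X G) (hH : RC S univ Y H) {x x' y y' : M}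
    (hx : x ∈ X) (hx' : x' ∈ X) (hy : y ∈ Y) (hy' : y' ∈ Y)
    (h : AtEq S S (insert (x, x') (dg (G : Set M))))
    (h' : AtEq S S (insert (y, y') (dg (H : Set M)))) : AtEq S S {(x, x'), (y, y')} := by
  have hyX : y ∉ X := fun e => hXY y e hy
  have h1 : bt S x y = bt S x' y := nea_bt hL hG hx hx' hyX h
  have h2 : bt S y x' = bt S y' x' := nea_bt hL hH hy hy' (hXY x' hx') h'
  refine (lbl_bt hL S).det x y x' y' (fun e => hXY x hx (e ▸ hy)) (fun e => hXY x' hx' (e ▸ hy'))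
    ?_ ?_ ?_
  · exact AtEq.anti (singleton_subset_iff.2 (mem_insert _ _)) h
  · exact AtEq.anti (singleton_subset_iff.2 (mem_insert _ _)) h'
  · rw [h1, (lbl_bt hL S).rev y x', h2, ← (lbl_bt hL S).rev y' x']

end Pool.Agent.CW
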