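import Pool.Agent.CW.NEa
import Pool.Agent.CW.CLC

/-!
# CW, module NEb
-/

set_option autoImplicit false
set_option linter.unusedSectionVars false
set_option linter.unusedVariables false

namespace Pool.Agent.CW

open Set Pool.Agent.Helper5 Pool.Agent.Helper5.DU Pool.Agent.Helper6.Str
  Pool.Agent.Helper79.VC Pool.Agent.Helper97.VC Pool.Agent.Helper97.MD Pool.Agent.Helper6.VC
  Pool.Agent.Helper97.LO

open scoped Classical

variable {L : FirstOrder.Language.{0, 0}} [∀ n, IsEmpty (L.Functions n)] {M N : Type}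
  {S : L.Structure M}

/-- **Composition.** `s` is the identity outside the pieces `X m`, `m ∈ I`. -/
theorem ne_comp (hL : Ar2 L) {X : ℕ → Set M} (hX : ∀ m m', m ≠ m' → ∀ x ∈ X m, x ∉ X m')
    {G : ℕ → Finset M} (hG : ∀ m, RC S univ (X m) (G m)) (I : Set ℕ) {U V : Set M}
    (hUV : ∀ x, (∀ m ∈ I, x ∉ X m) → (x ∈ U ↔ x ∈ V)) {s : Set (M × M)}
    (hs : ∀ a ∈ s, (a.2 = a.1 ∧ ∀ m ∈ I, a.1 ∉ X m) ∨ ∃ m ∈ I, a.1 ∈ X m ∧ a.2 ∈ X m)
    (hsU : ∀ a ∈ s, a.1 ∈ U ↔ a.2 ∈ V)
    {γ : Ordinal.{0}} (h : ∀ m ∈ I, BFR S S (X m ∩ U) (X m ∩ V) γ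
      ({a ∈ s | a.1 ∈ X m} ∪ dg (G m : Set M))) : BFR S S U V γ s := by
  let π : M → M ⊕ ℕ := fun x =>
    if hx : ∃ m ∈ I, x ∈ X m then Sum.inr (Classical.choose hx) else Sum.inl x
  have hπ3 : ∀ x m, π x = Sum.inr m → m ∈ I ∧ x ∈ X m := by
    intro x m hx
    simp only [π] at hx
    split_ifs at hx with h1
    rw [← Sum.inr_injective hx]
    exact Classical.choose_spec h1
  have hπ1 : ∀ x m, m ∈ I → x ∈ X m → π x = Sum.inr m := by
    intro x m hm hx
    have h1 : ∃ m ∈ I, x ∈ X m := ⟨m, hm, hx⟩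
    have h2 : π x = Sum.inr (Classical.choose h1) := dif_pos h1
    rw [h2]
    by_contra hne
    exact hX m (Classical.choose h1) (fun he => hne (by rw [← he])) x hx
      (Classical.choose_spec h1).2
  have hπ2 : ∀ x, (∀ m ∈ I, x ∉ X m) → π x = Sum.inl x := by
    intro x hx
    exact dif_neg (fun ⟨m, hm, hxm⟩ => hx m hm hxm)
  have hπ4 : ∀ x y, π x = Sum.inl y → x = y ∧ ∀ m ∈ I, x ∉ X m := by
    intro x y hx
    by_cases h1 : ∃ m ∈ I, x ∈ X m
    · obtain ⟨m, hm, hxm⟩ := h1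
      rw [hπ1 x m hm hxm] at hx
      exact absurd hx (by simp)
    · push Not at h1
      rw [hπ2 x h1] at hx
      exact ⟨Sum.inl_injective hx, h1⟩
  let q : M ⊕ ℕ → Set (M × M) := fun i =>
    Sum.elim (fun _ => (∅ : Set (M × M))) (fun m => {a ∈ s | a.1 ∈ X m} ∪ dg (G m : Set M)) i
  -- pairs in the pieces
  have hsX : ∀ m ∈ I, ∀ a ∈ s, a.1 ∈ X m → a.2 ∈ X m := by
    intro m hm a ha ham
    rcases hs a ha with ⟨-, h1⟩ | ⟨m', hm', h1, h2⟩
    · exact absurd ham (h1 m hm)
    · by_cases he : m = m'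
      · rw [he]
        exact h2
      · exact absurd h1 (hX m m' he _ ham)
  have hat : ∀ m ∈ I, ∀ a ∈ s, a.1 ∈ X m → AtEq S S (insert (a.1, a.2) (dg (G m : Set M))) := by
    intro m hm a ha ham
    refine AtEq.anti ?_ (h m hm).atEq
    rintro _ (rfl | hb)
    · exact Or.inl ⟨ha, ham⟩
    · exact Or.inr hb
  -- the main case distinction
  have key : ∀ (x x' y y' : M), ((∃ m ∈ I, x ∈ X m ∧ x' ∈ X m ∧
      AtEq S S (insert (x, x') (dg (G m : Set M))) ∧ (y ∈ X m → False)) ∨
      (x' = x ∧ ∀ m ∈ I, x ∉ X m)) → ((∃ m ∈ I, y ∈ X m ∧ y' ∈ X m ∧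
      AtEq S S (insert (y, y') (dg (G m : Set M)))) ∨ (y' = y ∧ ∀ m ∈ I, y ∉ X m)) →
      AtEq S S {(x, x'), (y, y')} := by
    intro x x' y y' h1 h2
    rcases h1 with ⟨m, hm, hx, hx', hat1, hy0⟩ | ⟨rfl, hx⟩
    · rcases h2 with ⟨m', hm', hy, hy', hat2⟩ | ⟨rfl, hy⟩
      · have hne : m ≠ m' := by
          rintro rfl
          exact hy0 hy
        exact cross_two hL (hX m m' hne) (hG m) (hG m') hx hx' hy hy' hat1 hat2
      · exact cross_one hL (hG m) hx hx' (hy m hm) hat1
    · rcases h2 with ⟨m', hm', hy, hy', hat2⟩ | ⟨rfl, hy⟩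
      · rw [Set.pair_comm]
        exact cross_one hL (hG m') hy hy' (hx m' hm') hat2
      · refine TR.atEq_refl S ?_
        rintro a (rfl | rfl) <;> rfl
  have hr : AtEq S S s := by
    refine atEq_of_pairs hL fun a ha b hb => ?_
    by_cases hab : ∃ m ∈ I, a.1 ∈ X m ∧ b.1 ∈ X m
    · obtain ⟨m, hm, h1, h2⟩ := hab
      refine AtEq.anti ?_ (h m hm).atEq
      rintro _ (rfl | rfl)
      · exact Or.inl ⟨ha, h1⟩
      · exact Or.inl ⟨hb, h2⟩
    · push Not at hab
      refine key a.1 a.2 b.1 b.2 ?_ ?_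
      · rcases hs a ha with h1 | ⟨m, hm, h1, h2⟩
        · exact Or.inr h1
        · exact Or.inl ⟨m, hm, h1, h2, hat m hm a ha h1, hab m hm h1⟩
      · rcases hs b hb with h1 | ⟨m, hm, h1, h2⟩
        · exact Or.inr h1
        · exact Or.inl ⟨m, hm, h1, h2, hat m hm b hb h1⟩
  have hres : BFR S S U V γ ({a ∈ s | a.1 ∈ U} ∪ s) := by
    refine piece_comp hL π π q s hr ?_ ?_ γ ?_ ?_
    · intro x hx x' hx' hxx hq b hb
      rcases hi : π x with z | m
      · obtain ⟨rfl, hz⟩ := hπ4 x z hi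
        obtain ⟨hx1, -⟩ := hπ4 x' x (hxx.symm.trans hi)
        refine key x x' b.1 b.2 (Or.inr ⟨hx1, hz⟩) ?_
        rcases hs b hb with h1 | ⟨m, hm, h1, h2⟩
        · exact Or.inr h1
        · exact Or.inl ⟨m, hm, h1, h2, hat m hm b hb h1⟩
      · obtain ⟨hm, hxm⟩ := hπ3 x m hi
        obtain ⟨-, hxm'⟩ := hπ3 x' m (hxx.symm.trans hi)
        rw [hi] at hq
        by_cases hbm : b.1 ∈ X m
        · refine AtEq.anti ?_ hq
          rintro _ (rfl | rfl)
          · exact mem_insert _ _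
          · exact mem_insert_of_mem _ (Or.inl ⟨hb, hbm⟩)
        · refine key x x' b.1 b.2 (Or.inl ⟨m, hm, hxm, hxm', ?_, hbm⟩) ?_
          · refine AtEq.anti ?_ hq
            rintro _ (rfl | hb)
            · exact mem_insert _ _
            · exact mem_insert_of_mem _ (Or.inr hb)
          · rcases hs b hb with h1 | ⟨m, hm, h1, h2⟩
            · exact Or.inr h1
            · exact Or.inl ⟨m, hm, h1, h2, hat m hm b hb h1⟩
    · intro x hx x' hx' hxx y hy y' hy' hyy hxy hqx hqy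
      refine key x x' y y' ?_ ?_
      · rcases hi : π x with z | m
        · obtain ⟨rfl, hz⟩ := hπ4 x z hi
          obtain ⟨hx1, -⟩ := hπ4 x' x (hxx.symm.trans hi)
          exact Or.inr ⟨hx1, hz⟩
        · obtain ⟨hm, hxm⟩ := hπ3 x m hi
          obtain ⟨-, hxm'⟩ := hπ3 x' m (hxx.symm.trans hi)
          rw [hi] at hqx
          refine Or.inl ⟨m, hm, hxm, hxm', ?_, fun hym => ?_⟩
          · refine AtEq.anti ?_ hqx
            rintro _ (rfl | hb)
            · exact mem_insert _ _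
            · exact mem_insert_of_mem _ (Or.inr hb)
          · exact hxy (hi.trans (hπ1 y m hm hym).symm)
      · rcases hi : π y with z | m
        · obtain ⟨rfl, hz⟩ := hπ4 y z hi
          obtain ⟨hx1, -⟩ := hπ4 y' y (hyy.symm.trans hi)
          exact Or.inr ⟨hx1, hz⟩
        · obtain ⟨hm, hxm⟩ := hπ3 y m hi
          obtain ⟨-, hxm'⟩ := hπ3 y' m (hyy.symm.trans hi)
          rw [hi] at hqy
          refine Or.inl ⟨m, hm, hxm, hxm', ?_⟩
          refine AtEq.anti ?_ hqy
          rintro _ (rfl | hb)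
          · exact mem_insert _ _
          · exact mem_insert_of_mem _ (Or.inr hb)
    · rintro a ⟨ha, haU⟩
      refine ⟨haU, (hsU a ha).mp haU, ?_⟩
      rcases hs a ha with ⟨h1, -⟩ | ⟨m, hm, h1, h2⟩
      · rw [h1]
      · rw [hπ1 _ m hm h1, hπ1 _ m hm h2]
    · intro i
      rcases i with z | m
      · have hW : {a ∈ U | π a = Sum.inl z} = {b ∈ V | π b = Sum.inl z} := by
          ext a
          constructor
          · rintro ⟨h1, h2⟩
            exact ⟨(hUV a (hπ4 a z h2).2).mp h1, h2⟩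
          · rintro ⟨h1, h2⟩
            exact ⟨(hUV a (hπ4 a z h2).2).mpr h1, h2⟩
        rw [hW]
        refine bfr_dg S _ γ ?_
        rintro a (⟨⟨ha, -⟩, ha2⟩ | ha)
        · rcases hs a ha with ⟨h1, -⟩ | ⟨m, hm, h1, h2⟩
          · exact h1
          · exact absurd h1 ((hπ4 _ z ha2).2 m hm)
        · exact absurd ha (notMem_empty a)
      · by_cases hm : m ∈ I
        · have hW : ∀ W : Set M, {a ∈ W | π a = Sum.inr m} = X m ∩ W := by
            intro W
            ext a
            constructor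
            · rintro ⟨h1, h2⟩
              exact ⟨(hπ3 a m h2).2, h1⟩
            · rintro ⟨h1, h2⟩
              exact ⟨h2, hπ1 a m hm h1⟩
          rw [hW, hW]
          refine BFR.anti ?_ (h m hm)
          rintro a (⟨⟨ha, -⟩, ha2⟩ | ha)
          · exact Or.inl ⟨ha, (hπ3 _ m ha2).2⟩
          · exact ha
        · have hW : ∀ W : Set M, {a ∈ W | π a = Sum.inr m} = ∅ := by
            intro W
            ext a
            constructor
            · rintro ⟨h1, h2⟩
              exact absurd (hπ3 a m h2).1 hm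
            · intro h1
              exact absurd h1 (notMem_empty a)
          rw [hW, hW]
          refine bfr_dg S _ γ ?_
          rintro a (⟨⟨ha, -⟩, ha2⟩ | ha)
          · exact absurd (hπ3 _ m ha2).1 hm
          · rcases ha with ⟨ha, ham⟩ | ⟨b, hb, rfl⟩
            · rcases hs a ha with ⟨h1, -⟩ | ⟨m', hm', h1, h2⟩
              · exact h1
              · exact absurd h1 (hX m m' (fun he => hm (he ▸ hm')) _ ham)
            · rfl
  exact BFR.anti subset_union_right hres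

end Pool.Agent.CW
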